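import Pool.Agent.H10.Pro.Defs

/-!
# Basic lemmas on the tori `TT e`, `T1 e`
-/

namespace Pool.Agent.H10.Pro

set_option linter.unusedSectionVars false
set_option linter.unusedDecidableInType false
set_option linter.style.haveILetI false

open Module

variable {K : Type} [Field K] {ι : Type} [Fintype ι] [DecidableEq ι] {L : ι → Type}
  [∀ i, Field (L i)] [∀ i, Algebra K (L i)]
  {V : Type} [AddCommGroup V] [Module K V]

lemma mem_TT {e : V ≃ₗ[K] (∀ i, L i)} {g : V ≃ₗ[K] V} : g ∈ TT e ↔ ∃ t, tor e t = g := Iff.rfl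

lemma mem_T1 {e : V ≃ₗ[K] (∀ i, L i)} {g : V ≃ₗ[K] V} :
    g ∈ T1 e ↔ ∃ t, NN K t = 1 ∧ tor e t = g := by
  unfold T1
  simp [Subgroup.mem_map, MonoidHom.mem_ker]

lemma tor_mem_TT (e : V ≃ₗ[K] (∀ i, L i)) (t : ∀ i, (L i)ˣ) : tor e t ∈ TT e := ⟨t, rfl⟩

lemma tor_mem_T1 (e : V ≃ₗ[K] (∀ i, L i)) (t : ∀ i, (L i)ˣ) (h : NN K t = 1) :
    tor e t ∈ T1 e := mem_T1.2 ⟨t, h, rfl⟩

lemma mem_TD {D : Subgroup Kˣ} {e : V ≃ₗ[K] (∀ i, L i)} {g : V ≃ₗ[K] V} :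
    g ∈ TD D e ↔ ∃ t, NN K t ∈ D ∧ tor e t = g := by
  unfold TD
  simp [Subgroup.mem_map, Subgroup.mem_comap]

lemma T1_le_TD (D : Subgroup Kˣ) (e : V ≃ₗ[K] (∀ i, L i)) : T1 e ≤ TD D e := by
  intro g hg
  obtain ⟨t, ht, rfl⟩ := mem_T1.1 hg
  exact mem_TD.2 ⟨t, by rw [ht]; exact D.one_mem, rfl⟩

lemma TD_le_TT (D : Subgroup Kˣ) (e : V ≃ₗ[K] (∀ i, L i)) : TD D e ≤ TT e := by
  intro g hg
  obtain ⟨t, -, rfl⟩ := mem_TD.1 hg
  exact ⟨t, rfl⟩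

lemma T1_le_TT (e : V ≃ₗ[K] (∀ i, L i)) : T1 e ≤ TT e := by
  intro g hg
  obtain ⟨t, -, rfl⟩ := mem_T1.1 hg
  exact ⟨t, rfl⟩

lemma tor_cj (e : V ≃ₗ[K] (∀ i, L i)) (x : V ≃ₗ[K] V) (t : ∀ i, (L i)ˣ) :
    tor (x.symm.trans e) t = x * tor e t * x⁻¹ := by
  ext v
  apply (x.symm.trans e).injective
  funext i
  rw [tor_apply]
  simp only [LinearEquiv.trans_apply, LinearEquiv.mul_apply, LinearEquiv.symm_apply_apply]
  rw [tor_apply]
  rfl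

lemma TT_cj (e : V ≃ₗ[K] (∀ i, L i)) (x : V ≃ₗ[K] V) :
    TT (x.symm.trans e) = conjSub x (TT e) := by
  ext g
  rw [mem_conjSub, mem_TT, mem_TT]
  constructor
  · rintro ⟨t, rfl⟩
    exact ⟨t, by rw [tor_cj]; group⟩
  · rintro ⟨t, ht⟩
    exact ⟨t, by rw [tor_cj, ht]; group⟩

lemma T1_cj (e : V ≃ₗ[K] (∀ i, L i)) (x : V ≃ₗ[K] V) :
    T1 (x.symm.trans e) = conjSub x (T1 e) := by
  ext g
  rw [mem_conjSub, mem_T1, mem_T1]
  constructor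
  · rintro ⟨t, h, rfl⟩
    exact ⟨t, h, by rw [tor_cj]; group⟩
  · rintro ⟨t, h, ht⟩
    exact ⟨t, h, by rw [tor_cj, ht]; group⟩

lemma TD_cj (D : Subgroup Kˣ) (e : V ≃ₗ[K] (∀ i, L i)) (x : V ≃ₗ[K] V) :
    TD D (x.symm.trans e) = conjSub x (TD D e) := by
  ext g
  rw [mem_conjSub, mem_TD, mem_TD]
  constructor
  · rintro ⟨t, h, rfl⟩
    exact ⟨t, h, by rw [tor_cj]; group⟩
  · rintro ⟨t, h, ht⟩
    exact ⟨t, h, by rw [tor_cj, ht]; group⟩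

/-- If `x ∈ H ⊇ TD D e` then `TD D (e ∘ x⁻¹) ≤ H`. -/
lemma TD_cj_le {D : Subgroup Kˣ} {e : V ≃ₗ[K] (∀ i, L i)} {x : V ≃ₗ[K] V}
    {H : Subgroup (V ≃ₗ[K] V)} (hx : x ∈ H) (he : TD D e ≤ H) :
    TD D (x.symm.trans e) ≤ H := by
  rw [TD_cj]
  intro g hg
  rw [mem_conjSub] at hg
  have h1 := he hg
  have h2 : g = x * (x⁻¹ * g * x) * x⁻¹ := by group
  rw [h2]
  exact H.mul_mem (H.mul_mem hx h1) (H.inv_mem hx)

/-- If `x ∈ H ⊇ T1 e` then `T1 (e ∘ x⁻¹) ≤ H`. -/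
lemma T1_cj_le {e : V ≃ₗ[K] (∀ i, L i)} {x : V ≃ₗ[K] V} {H : Subgroup (V ≃ₗ[K] V)}
    (hx : x ∈ H) (he : T1 e ≤ H) : T1 (x.symm.trans e) ≤ H := by
  rw [T1_cj]
  intro g hg
  rw [mem_conjSub] at hg
  have h1 := he hg
  have h2 : g = x * (x⁻¹ * g * x) * x⁻¹ := by group
  rw [h2]
  exact H.mul_mem (H.mul_mem hx h1) (H.inv_mem hx)

lemma cj_cj (e : V ≃ₗ[K] (∀ i, L i)) (x y : V ≃ₗ[K] V) :
    x.symm.trans (y.symm.trans e) = (x * y).symm.trans e := by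
  ext v : 1
  rfl

lemma tor_injective (e : V ≃ₗ[K] (∀ i, L i)) : Function.Injective (tor e) := by
  intro s t h
  funext i
  have h1 := congrArg (fun g : V ≃ₗ[K] V => e (g (e.symm 1)) i) h
  simp only [tor_apply] at h1
  simpa using Units.ext (by simpa using h1)

/-- On vectors supported at `j`, `tor e t` only depends on `t j`. -/
lemma tor_eq_of_supp (e : V ≃ₗ[K] (∀ i, L i)) (t : ∀ i, (L i)ˣ) (j : ι) (u : V)
    (hu : ∀ i, i ≠ j → e u i = 0) : tor e t u = tor e (Pi.mulSingle j (t j)) u := by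
  apply e.injective
  funext i
  rw [tor_apply, tor_apply]
  by_cases h : i = j
  · subst h; simp
  · rw [hu i h]; simp

lemma NN_mulSingle (j : ι) (s : (L j)ˣ) :
    NN K (Pi.mulSingle j s : ∀ i, (L i)ˣ) = Units.map (Algebra.norm K (S := L j)) s := by
  unfold NN
  simp only [MonoidHom.coe_mk, OneHom.coe_mk]
  rw [Finset.prod_eq_single j]
  · simp
  · intro i _ hi
    rw [Pi.mulSingle_eq_of_ne hi]; simp
  · intro h; exact absurd (Finset.mem_univ j) h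

section finite

variable [Finite K] [∀ i, FiniteDimensional K (L i)]

lemma finite_V (e : V ≃ₗ[K] (∀ i, L i)) : Finite V := by
  have : ∀ i, Finite (L i) := fun i => Module.finite_of_finite K
  exact Finite.of_equiv _ e.symm.toEquiv

lemma finite_GL (e : V ≃ₗ[K] (∀ i, L i)) : Finite (V ≃ₗ[K] V) := by
  have := finite_V e
  exact Finite.of_injective (fun g : V ≃ₗ[K] V => (g : V → V)) DFunLike.coe_injective

lemma card_TT (e : V ≃ₗ[K] (∀ i, L i)) : Nat.card (TT e) = Nat.card (∀ i, (L i)ˣ) := by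
  unfold TT
  exact (Nat.card_congr (Equiv.ofInjective _ (tor_injective e))).symm

end finite

end Pool.Agent.H10.Pro
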