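import Mathlib

/-!
# Maximal tori of `GL_n(q)` and pronormality: basic definitions

`K` is a (finite) field, `L i` (`i : ι`) finite field extensions of `K`, and
`e : V ≃ₗ[K] ∏ L i` a coordinate system on the `K`-vector space `V`.
`tor e t` is the element of `GL(V)` which is multiplication by the unit `t i` in the `i`-th
coordinate; `TT e` is the group of all of these (a maximal torus of `GL(V)` of type
`([L i : K])_i`), and `T1 e` its subgroup of the elements with `∏ norm (t i) = 1`
(equivalently: of determinant one).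
-/

namespace Pool.Agent.H10.Pro

set_option linter.unusedSectionVars false
set_option linter.unusedDecidableInType false

open Module

section group

variable {G : Type*} [Group G]

/-- `g H g⁻¹`. -/
def conjSub (g : G) (H : Subgroup G) : Subgroup G := H.map (MulAut.conj g).toMonoidHom

/-- A subgroup `H` of a group `G` is pronormal if for every `g`, `H` and `g H g⁻¹` are conjugate
in the subgroup generated by `H` and `g H g⁻¹`. -/
def IsPronormal (H : Subgroup G) : Prop :=
  ∀ g : G, ∃ x ∈ H ⊔ conjSub g H, conjSub x H = conjSub g H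

lemma mem_conjSub {g x : G} {H : Subgroup G} : x ∈ conjSub g H ↔ g⁻¹ * x * g ∈ H := by
  unfold conjSub
  constructor
  · rintro ⟨y, hy, rfl⟩
    simpa [mul_assoc] using hy
  · intro h
    exact ⟨_, h, by simp [mul_assoc]⟩

end group

variable (K : Type) [Field K] {ι : Type} [Fintype ι] [DecidableEq ι] {L : ι → Type}
  [∀ i, Field (L i)] [∀ i, Algebra K (L i)]
  {V : Type} [AddCommGroup V] [Module K V]

/-- Sub-multisets of the multiset of the `a i` are determined by their sums. -/
def DistinctSums (a : ι → ℕ) : Prop :=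
  ∀ S S' : Finset ι, ∑ i ∈ S, a i = ∑ i ∈ S', a i → S.val.map a = S'.val.map a

/-- Coordinatewise multiplication by a tuple of units. -/
def mulPi (t : ∀ i, (L i)ˣ) : (∀ i, L i) ≃ₗ[K] (∀ i, L i) where
  toFun v := fun i => (t i : L i) * v i
  invFun v := fun i => ((t i)⁻¹ : (L i)ˣ) * v i
  map_add' v w := by funext i; simp [mul_add]
  map_smul' c v := by funext i; simp [Algebra.smul_def]; ring
  left_inv v := by funext i; simp
  right_inv v := by funext i; simp

/-- The norm of a tuple of units: the product of the norms. -/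
noncomputable def NN : (∀ i, (L i)ˣ) →* Kˣ where
  toFun t := ∏ i, Units.map (Algebra.norm K (S := L i)) (t i)
  map_one' := by simp
  map_mul' s t := by simp [Finset.prod_mul_distrib]

variable {K}

/-- The element of `GL(V)` given by the tuple `t` in the coordinates `e`. -/
def tor (e : V ≃ₗ[K] (∀ i, L i)) : (∀ i, (L i)ˣ) →* (V ≃ₗ[K] V) where
  toFun t := (e.trans (mulPi K t)).trans e.symm
  map_one' := by
    ext v; simp [mulPi, LinearEquiv.trans_apply]
  map_mul' s t := by
    ext v
    simp only [LinearEquiv.trans_apply, LinearEquiv.mul_apply, LinearEquiv.apply_symm_apply]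
    congr 1
    funext i
    simp [mulPi, mul_assoc]

lemma tor_apply (e : V ≃ₗ[K] (∀ i, L i)) (t : ∀ i, (L i)ˣ) (v : V) (i : ι) :
    e (tor e t v) i = (t i : L i) * e v i := by
  simp [tor, mulPi, LinearEquiv.trans_apply]

/-- The torus of all `tor e t`. -/
def TT (e : V ≃ₗ[K] (∀ i, L i)) : Subgroup (V ≃ₗ[K] V) := (tor e).range

/-- The subgroup of the elements of `TT e` with norm one. -/
noncomputable def T1 (e : V ≃ₗ[K] (∀ i, L i)) : Subgroup (V ≃ₗ[K] V) :=
  (NN K (L := L)).ker.map (tor e)

/-- The subgroup of the elements of `TT e` with norm in `D`. -/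
noncomputable def TD (D : Subgroup Kˣ) (e : V ≃ₗ[K] (∀ i, L i)) : Subgroup (V ≃ₗ[K] V) :=
  (D.comap (NN K (L := L))).map (tor e)

/-- The support of a vector in the coordinates `e`. -/
noncomputable def supp (e : V ≃ₗ[K] (∀ i, L i)) (v : V) : Finset ι := by
  classical exact Finset.univ.filter (fun i => e v i ≠ 0)

lemma mem_supp {e : V ≃ₗ[K] (∀ i, L i)} {v : V} {i : ι} : i ∈ supp e v ↔ e v i ≠ 0 := by
  classical
  simp [supp]

/-- `e` and `e'` have the same `j`-th coordinate subspace, with the same field of operators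
on it. -/
def SameAt (e e' : V ≃ₗ[K] (∀ i, L i)) (j : ι) : Prop :=
  (∀ u : V, (∀ i, i ≠ j → e u i = 0) ↔ (∀ i, i ≠ j → e' u i = 0)) ∧
  ∀ s : (L j)ˣ, ∃ s' : (L j)ˣ, ∀ u : V, (∀ i, i ≠ j → e u i = 0) →
    tor e (Pi.mulSingle j s) u = tor e' (Pi.mulSingle j s') u

/-- The coordinates induced on the quotient by the `j`-th coordinate subspace `U`. -/
noncomputable def eQ (e : V ≃ₗ[K] (∀ i, L i)) (j : ι) (U : Submodule K V)
    (hU : ∀ u : V, u ∈ U ↔ ∀ i, i ≠ j → e u i = 0) :
    (V ⧸ U) ≃ₗ[K] (∀ i : {i : ι // i ≠ j}, L i) :=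
  LinearEquiv.ofBijective
    (U.liftQ ((LinearMap.pi fun i : {i : ι // i ≠ j} => LinearMap.proj (i : ι)) ∘ₗ e.toLinearMap)
      (by
        intro u hu
        rw [hU] at hu
        simp only [LinearMap.mem_ker, LinearMap.comp_apply]
        funext i
        exact hu i i.2))
    (by
      constructor
      · rw [← LinearMap.ker_eq_bot, Submodule.ker_liftQ_eq_bot]
        intro u hu
        rw [hU]
        intro i hi
        have := congrFun (LinearMap.mem_ker.1 hu) ⟨i, hi⟩
        simpa using this
      · intro w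
        classical
        refine ⟨U.mkQ (e.symm (fun i => if h : i ≠ j then w ⟨i, h⟩ else 0)), ?_⟩
        simp only [Submodule.mkQ_apply, Submodule.liftQ_apply, LinearMap.comp_apply]
        funext i
        simp [i.2])

lemma eQ_apply (e : V ≃ₗ[K] (∀ i, L i)) (j : ι) (U : Submodule K V)
    (hU : ∀ u : V, u ∈ U ↔ ∀ i, i ≠ j → e u i = 0) (v : V) (i : {i : ι // i ≠ j}) :
    eQ e j U hU (U.mkQ v) i = e v i := by
  rfl

end Pool.Agent.H10.Pro
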