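import Pool.Agent.H10.Pro.Defs

/-!
# The determinant of `tor e t`
-/

namespace Pool.Agent.H10.Pro

set_option linter.unusedSectionVars false
set_option linter.unusedDecidableInType false

open Module

section tori

variable {K : Type} [Field K] [Finite K] {ι : Type} [Fintype ι] [DecidableEq ι] {L : ι → Type}
  [∀ i, Field (L i)] [∀ i, Algebra K (L i)] [∀ i, FiniteDimensional K (L i)]
  {V : Type} [AddCommGroup V] [Module K V]

theorem det_bd (κ : ι → Type) [∀ i, Fintype (κ i)] [∀ i, DecidableEq (κ i)]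
    (d : ∀ i, Matrix (κ i) (κ i) K) :
    (Matrix.blockDiagonal' d).det = ∏ i, (d i).det := by
  classical
  let _ : LinearOrder ι := IsWellOrder.linearOrder WellOrderingRel
  have h : (Matrix.blockDiagonal' d).BlockTriangular Sigma.fst :=
    Matrix.blockTriangular_blockDiagonal' d
  have h2 := h.det_fintype
  convert h2 using 1
  apply Finset.prod_congr rfl
  intro i _
  rw [← Matrix.det_reindex_self (Equiv.sigmaSubtype i)]
  congr 1
  ext x y
  simp [Matrix.toSquareBlock_def, Matrix.reindex_apply, Equiv.sigmaSubtype,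
    Matrix.blockDiagonal'_apply]

theorem det_mulPi (t : ∀ i, (L i)ˣ) :
    LinearMap.det ((mulPi K t : (∀ i, L i) ≃ₗ[K] (∀ i, L i)) : (∀ i, L i) →ₗ[K] (∀ i, L i)) =
      ∏ i, Algebra.norm K (t i : L i) := by
  classical
  let b := fun i => Module.Free.chooseBasis K (L i)
  let B := Pi.basis b
  rw [← LinearMap.det_toMatrix B]
  have h : LinearMap.toMatrix B B ((mulPi K t : (∀ i, L i) ≃ₗ[K] (∀ i, L i)) :
      (∀ i, L i) →ₗ[K] (∀ i, L i)) =
      Matrix.blockDiagonal' (fun i => LinearMap.toMatrix (b i) (b i)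
        (Algebra.lmul K (L i) (t i : L i))) := by
    ext ⟨i₁, i₂⟩ ⟨j₁, j₂⟩
    rw [LinearMap.toMatrix_apply, Matrix.blockDiagonal'_apply]
    simp only [B, Pi.basis_apply, Pi.basis_repr]
    split_ifs with hij
    · subst hij
      simp [LinearMap.toMatrix_apply, mulPi]
    · have : (mulPi K t (Pi.single j₁ (b j₁ j₂))) i₁ = 0 := by
        simp [mulPi, Pi.single_eq_of_ne hij]
      change (b i₁).repr ((mulPi K t (Pi.single j₁ (b j₁ j₂))) i₁) i₂ = 0
      rw [this]
      simp
  rw [h, det_bd]
  apply Finset.prod_congr rfl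
  intro i _
  rw [LinearMap.det_toMatrix, Algebra.norm_apply]

/-- (D) the determinant of `tor e t`. -/
theorem det_tor (e : V ≃ₗ[K] (∀ i, L i)) (t : ∀ i, (L i)ˣ) :
    LinearEquiv.det (tor e t) = NN K t := by
  have h1 : LinearEquiv.det (tor e t) = LinearEquiv.det (mulPi K t) := by
    change LinearEquiv.det ((e.trans (mulPi K t)).trans e.symm) = _
    have := LinearEquiv.det_conj (mulPi K t) e.symm
    rw [LinearEquiv.symm_symm] at this
    rw [← this]
  rw [h1]
  apply Units.ext
  rw [LinearEquiv.coe_det, det_mulPi]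
  simp [NN]

end tori

end Pool.Agent.H10.Pro
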