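import Pool.Agent.H10.Pro.StepA
import Pool.Agent.H10.Pro.Det

/-!
# The negative direction
-/

namespace Pool.Agent.H10.Pro

set_option linter.unusedSectionVars false
set_option linter.unusedDecidableInType false

open Module

namespace Neg

variable {K : Type} [Field K] [Finite K] {ι : Type} [Fintype ι] [DecidableEq ι] {L : ι → Type}
  [∀ i, Field (L i)] [∀ i, Algebra K (L i)] [∀ i, FiniteDimensional K (L i)]
  {V : Type} [AddCommGroup V] [Module K V]

lemma supp_tor (e : V ≃ₗ[K] (∀ i, L i)) (t : ∀ i, (L i)ˣ) (v : V) :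
    supp e (tor e t v) = supp e v := by
  ext i
  rw [mem_supp, mem_supp, tor_apply]
  simp

lemma supp_single (e : V ≃ₗ[K] (∀ i, L i)) (i : ι) (x : L i) (hx : x ≠ 0) :
    supp e (e.symm (Pi.single i x)) = {i} := by
  ext l
  rw [mem_supp, LinearEquiv.apply_symm_apply, Finset.mem_singleton]
  constructor
  · intro h
    by_contra hne
    exact h (Pi.single_eq_of_ne hne x)
  · rintro rfl
    rwa [Pi.single_eq_same]

lemma supp_eq_empty (e : V ≃ₗ[K] (∀ i, L i)) (v : V) : supp e v = ∅ ↔ v = 0 := by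
  constructor
  · intro h
    apply e.injective
    funext i
    rw [map_zero]
    by_contra hne
    have : i ∈ supp e v := mem_supp.2 hne
    rw [h] at this
    exact absurd this (Finset.notMem_empty i)
  · rintro rfl
    ext i
    rw [mem_supp]
    simp

/-- the key lemma -/
lemma key (e : V ≃ₗ[K] (∀ i, L i)) (T : Subgroup (V ≃ₗ[K] V)) (hT : T ≤ TT e) (hT1 : T1 e ≤ T)
    (y : V ≃ₗ[K] V) (hy : ∀ t ∈ T, y * t * y⁻¹ ∈ T) (hy' : ∀ t ∈ T, y⁻¹ * t * y ∈ T)
    (Q : Finset ι) (hQ : Q ≠ Finset.univ) (i : ι)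
    (hi : ∀ v, supp e v = {i} → supp e (y v) ⊆ Q) (hi1 : ({i} : Finset ι) ≠ Finset.univ)
    (hai : 2 ≤ finrank K (L i)) :
    ∃ l ∈ Q, finrank K (L l) = finrank K (L i) ∧
      ∀ v, supp e v = {i} ↔ supp e (y v) = {l} := by
  classical
  have hTs : ∀ t ∈ T, ∀ v, supp e (t v) = supp e v := by
    intro t ht v
    obtain ⟨s, rfl⟩ := hT ht
    exact supp_tor e s v
  set v0 := e.symm (Pi.single i (1 : L i)) with hv0
  have hs0 : supp e v0 = {i} := supp_single e i 1 one_ne_zero
  set J := supp e (y v0) with hJ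
  have hJQ : J ⊆ Q := hi v0 hs0
  have hJu : J ≠ Finset.univ := by
    intro h
    apply hQ
    rw [Finset.eq_univ_iff_forall]
    intro l
    apply hJQ
    rw [h]
    exact Finset.mem_univ l
  have h1 : ∀ v, supp e v = {i} → supp e (y v) = J := by
    intro v hv
    obtain ⟨h, hh, hhv⟩ := StepA.trans_supp e hi1 hs0 hv
    have h2 := hTs _ (hy h (hT1 hh)) (y v0)
    have h3 : (y * h * y⁻¹) (y v0) = y v := by
      simp only [LinearEquiv.mul_apply]
      rw [show y⁻¹ (y v0) = v0 from y.symm_apply_apply v0, hhv]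
    rw [h3] at h2
    exact h2
  have h2 : ∀ w, supp e w = J → supp e (y⁻¹ w) = {i} := by
    intro w hw
    obtain ⟨h, hh, hhv⟩ := StepA.trans_supp e hJu hJ.symm hw
    have h3 := hTs _ (hy' h (hT1 hh)) v0
    have h4 : (y⁻¹ * h * y) v0 = y⁻¹ w := by
      simp only [LinearEquiv.mul_apply]
      rw [hhv]
    rw [h4, hs0] at h3
    exact h3
  have hJne : J.Nonempty := by
    rw [Finset.nonempty_iff_ne_empty]
    intro h
    have h3 := (supp_eq_empty e _).1 h
    have h4 : v0 = 0 := by
      apply y.injective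
      rw [h3, map_zero]
    have h5 := (supp_eq_empty e _).2 h4
    rw [hs0] at h5
    exact absurd h5 (Finset.singleton_ne_empty i)
  -- a unit different from one in `L i`
  have hfin : ∀ i, Finite (L i) := fun i => Module.finite_of_finite K
  have hKc : 2 ≤ Nat.card K := Finite.one_lt_card
  obtain ⟨u0, hu0, hu1⟩ : ∃ u0 : L i, u0 ≠ 0 ∧ u0 ≠ 1 := by
    have h3 : 4 ≤ Nat.card (L i) := by
      rw [Module.natCard_eq_pow_finrank (K := K)]
      calc 4 = 2 ^ 2 := by norm_num
        _ ≤ Nat.card K ^ 2 := Nat.pow_le_pow_left hKc 2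
        _ ≤ Nat.card K ^ finrank K (L i) := Nat.pow_le_pow_right (by omega) hai
    haveI : Fintype (L i) := Fintype.ofFinite _
    by_contra hcon
    push Not at hcon
    have h4 : (Finset.univ : Finset (L i)) ⊆ {0, 1} := by
      intro x _
      by_cases hx : x = 0
      · simp [hx]
      · simp [hcon x hx]
    have h5 := Finset.card_le_card h4
    rw [Finset.card_univ, ← Nat.card_eq_fintype_card] at h5
    have h6 : ({0, 1} : Finset (L i)).card ≤ 2 := Finset.card_le_two
    omega
  obtain ⟨l, hl, u, hu⟩ : ∃ l ∈ J, ∃ u : (L l)ˣ, u ≠ 1 := by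
    by_contra hcon
    push Not at hcon
    set v1 := e.symm (Pi.single i u0) with hv1
    have hs1 : supp e v1 = {i} := supp_single e i u0 hu0
    have h3 : y v1 = y v0 := by
      apply e.injective
      funext l
      by_cases hl : l ∈ J
      · have h4 : e (y v1) l ≠ 0 := by
          rw [← mem_supp, h1 v1 hs1]
          exact hl
        have h5 : e (y v0) l ≠ 0 := by
          rw [← mem_supp]
          exact hl
        have h6 := congrArg Units.val ((hcon l hl (Units.mk0 _ h4)).trans
          (hcon l hl (Units.mk0 _ h5)).symm)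
        exact h6
      · have h4 : e (y v1) l = 0 := by
          by_contra h
          apply hl
          rw [← h1 v1 hs1]
          exact mem_supp.2 h
        have h5 : e (y v0) l = 0 := by
          by_contra h
          exact hl (mem_supp.2 h)
        rw [h4, h5]
    have h4 := y.injective h3
    have h5 := e.symm.injective h4
    have h6 := congrFun h5 i
    rw [Pi.single_eq_same, Pi.single_eq_same] at h6
    exact hu1 h6
  have hJl : J = {l} := by
    set w := y v0 with hw
    set w' := tor e (Pi.mulSingle l u) w with hw'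
    have hsw' : supp e w' = J := supp_tor e _ w
    have hsw'' : supp e (w - w') = {l} := by
      ext k
      rw [mem_supp, map_sub, Pi.sub_apply, hw', tor_apply, Finset.mem_singleton]
      constructor
      · intro h
        by_contra hkl
        apply h
        rw [Pi.mulSingle_eq_of_ne hkl]
        simp
      · rintro rfl
        have h3 : e w k ≠ 0 := mem_supp.1 hl
        rw [Pi.mulSingle_eq_same]
        intro h4
        have h5 : (1 - (u : L k)) * e w k = 0 := by rw [sub_mul, one_mul]; exact h4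
        rcases mul_eq_zero.1 h5 with h6 | h6
        · exact hu (Units.ext (sub_eq_zero.1 h6).symm)
        · exact h3 h6
    have h3 : supp e (y⁻¹ (w - w')) = {i} := by
      have h4 : supp e (y⁻¹ (w - w')) ⊆ {i} := by
        intro k hk
        rw [mem_supp, map_sub, map_sub, Pi.sub_apply] at hk
        by_contra hki
        rw [Finset.mem_singleton] at hki
        have h5 : e (y⁻¹ w) k = 0 := by
          by_contra h
          have := mem_supp.2 h
          rw [h2 w rfl, Finset.mem_singleton] at this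
          exact hki this
        have h6 : e (y⁻¹ w') k = 0 := by
          by_contra h
          have := mem_supp.2 h
          rw [h2 w' hsw', Finset.mem_singleton] at this
          exact hki this
        rw [h5, h6, sub_zero] at hk
        exact hk rfl
      rcases Finset.subset_singleton_iff.1 h4 with h5 | h5
      · exfalso
        have h6 := (supp_eq_empty e _).1 h5
        have h7 : w - w' = 0 := by
          apply y⁻¹.injective
          rw [h6, map_zero]
        rw [(supp_eq_empty e _).2 h7] at hsw''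
        exact absurd hsw''.symm (Finset.singleton_ne_empty l)
      · exact h5
    have h4 := h1 _ h3
    rw [show y (y⁻¹ (w - w')) = w - w' from y.apply_symm_apply (w - w'), hsw''] at h4
    exact h4.symm
  refine ⟨l, hJQ hl, ?_, fun v => ⟨fun hv => (h1 v hv).trans hJl, fun hv => ?_⟩⟩
  · apply le_antisymm
    · let f : L l →ₗ[K] L i := (LinearMap.proj i) ∘ₗ e.toLinearMap ∘ₗ (y⁻¹ : V ≃ₗ[K] V).toLinearMap
        ∘ₗ e.symm.toLinearMap ∘ₗ (LinearMap.single K L l)
      apply LinearMap.finrank_le_finrank_of_injective (f := f)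
      rw [← LinearMap.ker_eq_bot, LinearMap.ker_eq_bot']
      intro x hx
      by_contra hx0
      have h3 := h2 _ ((supp_single e l x hx0).trans hJl.symm)
      have h4 : i ∈ supp e (y⁻¹ (e.symm (Pi.single l x))) := by rw [h3]; simp
      exact (mem_supp.1 h4) hx
    · let f : L i →ₗ[K] L l := (LinearMap.proj l) ∘ₗ e.toLinearMap ∘ₗ y.toLinearMap
        ∘ₗ e.symm.toLinearMap ∘ₗ (LinearMap.single K L i)
      apply LinearMap.finrank_le_finrank_of_injective (f := f)
      rw [← LinearMap.ker_eq_bot, LinearMap.ker_eq_bot']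
      intro x hx
      by_contra hx0
      have h3 := (h1 _ (supp_single e i x hx0)).trans hJl
      have h4 : l ∈ supp e (y (e.symm (Pi.single i x))) := by rw [h3]; simp
      exact (mem_supp.1 h4) hx
  · have h3 := h2 (y v) (hv.trans hJl.symm)
    rwa [show y⁻¹ (y v) = v from y.symm_apply_apply v] at h3

/-- counting -/
lemma count_le (e : V ≃ₗ[K] (∀ i, L i)) (y : V ≃ₗ[K] V) (P Q : Finset ι) (d : ℕ)
    (h : ∀ i ∈ P, finrank K (L i) = d → ∃ l ∈ Q, finrank K (L l) = finrank K (L i) ∧
      ∀ v, supp e v = {i} ↔ supp e (y v) = {l}) :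
    (P.filter fun i => finrank K (L i) = d).card ≤
      (Q.filter fun i => finrank K (L i) = d).card := by
  classical
  choose! φ hφ using h
  apply Finset.card_le_card_of_injOn φ
  · intro i hi
    rw [Finset.mem_coe, Finset.mem_filter] at hi
    obtain ⟨h1, h2, -⟩ := hφ i hi.1 hi.2
    rw [Finset.mem_coe, Finset.mem_filter]
    exact ⟨h1, h2.trans hi.2⟩
  · intro i hi i' hi' hii
    rw [Finset.mem_coe, Finset.mem_filter] at hi hi'
    obtain ⟨-, -, h3⟩ := hφ i hi.1 hi.2
    obtain ⟨-, -, h3'⟩ := hφ i' hi'.1 hi'.2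
    have h4 := supp_single e i (1 : L i) one_ne_zero
    have h5 := (h3 _).1 h4
    rw [hii] at h5
    have h6 := (h3' _).2 h5
    rw [h4] at h6
    exact Finset.singleton_injective h6

omit [Fintype ι] [DecidableEq ι] in
/-- multisets with the same counts of the numbers at least two and the same sums -/
lemma mset_eq (a : ι → ℕ) (ha : ∀ i, 1 ≤ a i) (P Q : Finset ι)
    (hc : ∀ d, 2 ≤ d → (P.filter fun i => a i = d).card = (Q.filter fun i => a i = d).card)
    (hs : ∑ i ∈ P, a i = ∑ i ∈ Q, a i) : P.val.map a = Q.val.map a := by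
  classical
  have hcount : ∀ (R : Finset ι) (d : ℕ), (R.val.map a).count d =
      (R.filter fun i => a i = d).card := by
    intro R d
    rw [Multiset.count_map, Finset.card_def, Finset.filter_val]
    congr 1
    apply Multiset.filter_congr
    intro x _
    exact eq_comm
  have hbig : (P.val.map a).filter (fun x => 2 ≤ x) = (Q.val.map a).filter (fun x => 2 ≤ x) := by
    ext d
    by_cases hd : 2 ≤ d
    · rw [Multiset.count_filter_of_pos hd, Multiset.count_filter_of_pos hd, hcount, hcount,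
        hc d hd]
    · rw [Multiset.count_filter_of_neg hd, Multiset.count_filter_of_neg hd]
  have hsm : ∀ R : Finset ι, (R.val.map a).filter (fun x => ¬ 2 ≤ x) =
      Multiset.replicate ((R.val.map a).filter (fun x => ¬ 2 ≤ x)).card 1 := by
    intro R
    rw [Multiset.eq_replicate]
    refine ⟨rfl, fun b hb => ?_⟩
    rw [Multiset.mem_filter, Multiset.mem_map] at hb
    obtain ⟨⟨i, -, rfl⟩, h2⟩ := hb
    have := ha i
    omega
  have hsum : ∀ R : Finset ι, ∑ i ∈ R, a i = ((R.val.map a).filter (fun x => 2 ≤ x)).sum +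
      ((R.val.map a).filter (fun x => ¬ 2 ≤ x)).card := by
    intro R
    have h1 : ∑ i ∈ R, a i = (R.val.map a).sum := rfl
    rw [h1]
    conv_lhs => rw [← Multiset.filter_add_not (fun x => 2 ≤ x) (R.val.map a)]
    rw [Multiset.sum_add]
    congr 1
    conv_lhs => rw [hsm R]
    rw [Multiset.sum_replicate, smul_eq_mul, mul_one]
  have h3 := hsum P
  rw [hs, hsum Q, hbig] at h3
  rw [← Multiset.filter_add_not (fun x => 2 ≤ x) (P.val.map a),
    ← Multiset.filter_add_not (fun x => 2 ≤ x) (Q.val.map a), hbig, hsm P, hsm Q]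
  congr 2
  omega

/-- the subspace of the vectors with support in `J` -/
def VS (e : V ≃ₗ[K] (∀ i, L i)) (J : Finset ι) : Submodule K V where
  carrier := {v | supp e v ⊆ J}
  add_mem' := by
    intro v w hv hw i hi
    rw [mem_supp, map_add, Pi.add_apply] at hi
    by_contra h
    apply hi
    have h1 : e v i = 0 := by
      by_contra h2
      exact h (hv (mem_supp.2 h2))
    have h3 : e w i = 0 := by
      by_contra h2
      exact h (hw (mem_supp.2 h2))
    rw [h1, h3, add_zero]
  zero_mem' := by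
    intro i hi
    rw [mem_supp] at hi
    simp at hi
  smul_mem' := by
    intro c v hv i hi
    rw [mem_supp, map_smul, Pi.smul_apply] at hi
    by_contra h
    apply hi
    have h1 : e v i = 0 := by
      by_contra h2
      exact h (hv (mem_supp.2 h2))
    rw [h1, smul_zero]

lemma mem_VS {e : V ≃ₗ[K] (∀ i, L i)} {J : Finset ι} {v : V} : v ∈ VS e J ↔ supp e v ⊆ J :=
  Iff.rfl

lemma finrank_VS (e : V ≃ₗ[K] (∀ i, L i)) (J : Finset ι) :
    finrank K (VS e J) = ∑ i ∈ J, finrank K (L i) := by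
  classical
  let f : VS e J →ₗ[K] (∀ i : J, L i) :=
    (LinearMap.pi fun i : J => LinearMap.proj (i : ι)) ∘ₗ e.toLinearMap ∘ₗ (VS e J).subtype
  have hf : Function.Bijective f := by
    constructor
    · rw [← LinearMap.ker_eq_bot, LinearMap.ker_eq_bot']
      rintro ⟨v, hv⟩ h
      apply Subtype.ext
      change v = 0
      rw [← supp_eq_empty e, Finset.eq_empty_iff_forall_notMem]
      intro i hi
      have h1 := congrFun h ⟨i, hv hi⟩
      exact (mem_supp.1 hi) h1
    · intro w
      let x : ∀ i, L i := fun i => if h : i ∈ J then w ⟨i, h⟩ else 0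
      refine ⟨⟨e.symm x, ?_⟩, ?_⟩
      · intro i hi
        rw [mem_supp, LinearEquiv.apply_symm_apply] at hi
        by_contra h
        apply hi
        simp only [x]
        rw [dif_neg h]
      · funext i
        change e (e.symm x) i = w i
        rw [LinearEquiv.apply_symm_apply]
        simp only [x]
        rw [dif_pos i.2]
  rw [LinearEquiv.finrank_eq (LinearEquiv.ofBijective f hf), Module.finrank_pi_fintype,
    Finset.sum_coe_sort J (fun i => finrank K (L i))]

/-- an element of determinant one which maps `VS e P` onto `VS e Q` -/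
lemma exists_g (e : V ≃ₗ[K] (∀ i, L i)) (P Q : Finset ι) (hP : P.Nonempty)
    (h : ∑ i ∈ P, finrank K (L i) = ∑ i ∈ Q, finrank K (L i)) :
    ∃ g : V ≃ₗ[K] V, LinearEquiv.det g = 1 ∧ ∀ v, supp e (g v) ⊆ Q ↔ supp e v ⊆ P := by
  classical
  haveI : Module.Finite K V := Module.Finite.equiv e.symm
  obtain ⟨CP, hCP⟩ := Submodule.exists_isCompl (VS e P)
  obtain ⟨CQ, hCQ⟩ := Submodule.exists_isCompl (VS e Q)
  have h1 : finrank K (VS e P) = finrank K (VS e Q) := by
    rw [finrank_VS, finrank_VS, h]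
  have h2 : finrank K CP = finrank K CQ := by
    have h3 := Submodule.finrank_add_eq_of_isCompl hCP
    have h4 := Submodule.finrank_add_eq_of_isCompl hCQ
    omega
  let φ := LinearEquiv.ofFinrankEq (VS e P) (VS e Q) h1
  let ψ := LinearEquiv.ofFinrankEq CP CQ h2
  let g0 : V ≃ₗ[K] V := (Submodule.prodEquivOfIsCompl (VS e P) CP hCP).symm ≪≫ₗ
    (φ.prodCongr ψ) ≪≫ₗ Submodule.prodEquivOfIsCompl (VS e Q) CQ hCQ
  have hg0 : ∀ v ∈ VS e P, g0 v ∈ VS e Q := by
    intro v hv
    have h3 : (Submodule.prodEquivOfIsCompl (VS e P) CP hCP).symm v = (⟨v, hv⟩, 0) :=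
      Submodule.prodEquivOfIsCompl_symm_apply_left (VS e P) CP hCP ⟨v, hv⟩
    have h4 : g0 v = Submodule.prodEquivOfIsCompl (VS e Q) CQ hCQ
        ((φ.prodCongr ψ) ((Submodule.prodEquivOfIsCompl (VS e P) CP hCP).symm v)) := rfl
    rw [h4, h3]
    have h5 : (φ.prodCongr ψ) (⟨v, hv⟩, 0) = (φ ⟨v, hv⟩, 0) := by
      simp [LinearEquiv.prodCongr_apply]
    rw [h5]
    simp
  have hmap : (VS e P).map (g0 : V →ₗ[K] V) = VS e Q := by
    apply Submodule.eq_of_le_of_finrank_eq
    · rintro _ ⟨v, hv, rfl⟩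
      exact hg0 v hv
    · rw [← h1]
      exact LinearEquiv.finrank_map_eq g0 (VS e P)
  obtain ⟨k, -⟩ := hP
  have hfin : ∀ i, Finite (L i) := fun i => Module.finite_of_finite K
  obtain ⟨s, hs⟩ := FiniteField.unitsMap_norm_surjective K (L k) (LinearEquiv.det g0)⁻¹
  have hNs : NN K (Pi.mulSingle k s : ∀ i, (L i)ˣ) = Units.map (Algebra.norm K) s := by
    rw [StepA.NN_apply]
    rw [Finset.prod_eq_single k]
    · simp
    · intro b _ hb
      rw [Pi.mulSingle_eq_of_ne hb]
      simp
    · simp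
  refine ⟨g0 * tor e (Pi.mulSingle k s), ?_, fun v => ?_⟩
  · rw [map_mul, det_tor, hNs, hs, mul_inv_cancel]
  · rw [LinearEquiv.mul_apply]
    have h3 : supp e (g0 (tor e (Pi.mulSingle k s) v)) ⊆ Q ↔
        tor e (Pi.mulSingle k s) v ∈ VS e P := by
      rw [← mem_VS, ← hmap]
      constructor
      · rintro ⟨w, hw, hwv⟩
        rwa [← g0.injective hwv]
      · intro h
        exact ⟨_, h, rfl⟩
    rw [h3, mem_VS, supp_tor]

end Neg

section tori

variable {K : Type} [Field K] [Finite K] {ι : Type} [Fintype ι] [DecidableEq ι] {L : ι → Type}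
  [∀ i, Field (L i)] [∀ i, Algebra K (L i)] [∀ i, FiniteDimensional K (L i)]
  {V : Type} [AddCommGroup V] [Module K V]

/-- (Neg) the negative direction, for every finite field. -/
theorem not_pronormal (e : V ≃ₗ[K] (∀ i, L i)) (Γ : Subgroup (V ≃ₗ[K] V))
    (hΓ : ∀ g : V ≃ₗ[K] V, LinearEquiv.det g = 1 → g ∈ Γ)
    (hD : ¬ DistinctSums fun i => finrank K (L i)) :
    ¬ IsPronormal ((TT e).subgroupOf Γ) := by
  classical
  intro hpro
  unfold DistinctSums at hD
  push Not at hD
  obtain ⟨S, S', hSS, hne⟩ := hD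
  have ha : ∀ i, 1 ≤ finrank K (L i) := fun i => Module.finrank_pos
  set P := S.filter (fun i => i ∉ S') with hP
  set Q := S'.filter (fun i => i ∉ S) with hQ
  have hI : S.filter (fun i => i ∈ S') = S'.filter (fun i => i ∈ S) := by
    ext i
    simp only [Finset.mem_filter]
    tauto
  have hsum : ∑ i ∈ P, finrank K (L i) = ∑ i ∈ Q, finrank K (L i) := by
    have h1 := Finset.sum_filter_add_sum_filter_not S (fun i => i ∈ S')
      (fun i => finrank K (L i))
    have h2 := Finset.sum_filter_add_sum_filter_not S' (fun i => i ∈ S)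
      (fun i => finrank K (L i))
    have h3 : ∑ i ∈ S, finrank K (L i) = ∑ i ∈ S', finrank K (L i) := hSS
    have h4 : ∑ i ∈ S.filter (fun i => i ∉ S'), finrank K (L i) =
        ∑ i ∈ S'.filter (fun i => i ∉ S), finrank K (L i) := by
      rw [hI] at h1
      linarith
    exact h4
  have hPQ : P.val.map (fun i => finrank K (L i)) ≠ Q.val.map (fun i => finrank K (L i)) := by
    intro h
    apply hne
    have h1 := Multiset.filter_add_not (fun i => i ∈ S') S.val
    have h2 := Multiset.filter_add_not (fun i => i ∈ S) S'.val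
    rw [← h1, ← h2, Multiset.map_add, Multiset.map_add]
    congr 1
    have h3 : Multiset.filter (fun i => i ∈ S') S.val = Multiset.filter (fun i => i ∈ S) S'.val := by
      have := congrArg Finset.val hI
      simpa [Finset.filter_val] using this
    rw [h3]
  have hdisj : ∀ i, i ∈ P → i ∉ Q := by
    intro i hi hi'
    rw [hP, Finset.mem_filter] at hi
    rw [hQ, Finset.mem_filter] at hi'
    exact hi.2 hi'.1
  have hPne : P.Nonempty := by
    rw [Finset.nonempty_iff_ne_empty]
    intro h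
    rw [h, Finset.sum_empty] at hsum
    have h1 : Q = ∅ := by
      rw [Finset.eq_empty_iff_forall_notMem]
      intro i hi
      have h2 := (Finset.sum_eq_zero_iff.1 hsum.symm) i hi
      have := ha i
      omega
    rw [h, h1] at hPQ
    exact hPQ rfl
  have hQne : Q.Nonempty := by
    rw [Finset.nonempty_iff_ne_empty]
    intro h
    rw [h, Finset.sum_empty] at hsum
    have h1 : P = ∅ := by
      rw [Finset.eq_empty_iff_forall_notMem]
      intro i hi
      have h2 := (Finset.sum_eq_zero_iff.1 hsum) i hi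
      have := ha i
      omega
    rw [h1, h] at hPQ
    exact hPQ rfl
  obtain ⟨i₁, hi₁⟩ := hPne
  obtain ⟨i₂, hi₂⟩ := hQne
  have hPu : P ≠ Finset.univ := fun h => hdisj i₂ (by rw [h]; exact Finset.mem_univ _) hi₂
  have hQu : Q ≠ Finset.univ := fun h => hdisj i₁ hi₁ (by rw [h]; exact Finset.mem_univ _)
  obtain ⟨g, hg1, hg⟩ := Neg.exists_g e P Q ⟨i₁, hi₁⟩ hsum
  set H := (TT e).subgroupOf Γ with hH
  obtain ⟨x, hx, hxg⟩ := hpro ⟨g, hΓ g hg1⟩
  -- the stabiliser
  let St : Subgroup Γ :=
    { carrier := {z | ∀ v, supp e ((z : V ≃ₗ[K] V) v) ⊆ Q ↔ supp e v ⊆ Q}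
      mul_mem' := by
        intro z w hz hw v
        have h1 : ((z * w : Γ) : V ≃ₗ[K] V) v = (z : V ≃ₗ[K] V) ((w : V ≃ₗ[K] V) v) := rfl
        rw [h1, hz, hw]
      one_mem' := by
        intro v
        exact Iff.rfl
      inv_mem' := by
        intro z hz v
        have h1 := hz (((z⁻¹ : Γ) : V ≃ₗ[K] V) v)
        have h2 : (z : V ≃ₗ[K] V) (((z⁻¹ : Γ) : V ≃ₗ[K] V) v) = v :=
          (z : V ≃ₗ[K] V).apply_symm_apply v
        rw [h2] at h1
        exact h1.symm }
  have hHS : ∀ t ∈ H, ∀ v, supp e ((t : V ≃ₗ[K] V) v) = supp e v := by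
    intro t ht v
    obtain ⟨s, hs⟩ := Subgroup.mem_subgroupOf.1 ht
    rw [← hs, Neg.supp_tor]
  have hSt : H ⊔ conjSub (⟨g, hΓ g hg1⟩ : Γ) H ≤ St := by
    rw [sup_le_iff]
    constructor
    · intro t ht v
      rw [hHS t ht]
    · intro t ht v
      rw [mem_conjSub] at ht
      have h1 := hHS _ ht (g.symm v)
      have h2 : ((((⟨g, hΓ g hg1⟩ : Γ)⁻¹ * t * ⟨g, hΓ g hg1⟩ : Γ)) : V ≃ₗ[K] V) (g.symm v) =
          g.symm ((t : V ≃ₗ[K] V) v) := by
        change g.symm ((t : V ≃ₗ[K] V) (g (g.symm v))) = _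
        rw [g.apply_symm_apply]
      rw [h2] at h1
      have h3 := hg (g.symm ((t : V ≃ₗ[K] V) v))
      have h4 := hg (g.symm v)
      rw [g.apply_symm_apply] at h3 h4
      rw [h3, h4, h1]
  have hxS := hSt hx
  set y : V ≃ₗ[K] V := (x : V ≃ₗ[K] V)⁻¹ * g with hy
  have hyP : ∀ v, supp e (y v) ⊆ Q ↔ supp e v ⊆ P := by
    intro v
    rw [← hg v]
    have h1 := St.inv_mem hxS (g v)
    exact h1
  set T : Subgroup (V ≃ₗ[K] V) := TT e ⊓ Γ with hT
  have hT1 : T1 e ≤ T := by
    rintro _ ⟨t, ht, rfl⟩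
    refine ⟨⟨t, rfl⟩, hΓ _ ?_⟩
    rw [det_tor]
    exact ht
  have hyT : ∀ t ∈ T, y * t * y⁻¹ ∈ T := by
    intro t ht
    have h1 : (⟨g, hΓ g hg1⟩ : Γ) * ⟨t, ht.2⟩ * (⟨g, hΓ g hg1⟩ : Γ)⁻¹ ∈
        conjSub (⟨g, hΓ g hg1⟩ : Γ) H := by
      rw [mem_conjSub]
      have h2 : (⟨g, hΓ g hg1⟩ : Γ)⁻¹ * ((⟨g, hΓ g hg1⟩ : Γ) * ⟨t, ht.2⟩ *
          (⟨g, hΓ g hg1⟩ : Γ)⁻¹) * (⟨g, hΓ g hg1⟩ : Γ) = ⟨t, ht.2⟩ := by group
      rw [h2]
      exact Subgroup.mem_subgroupOf.2 ht.1
    rw [← hxg, mem_conjSub] at h1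
    have h3 := Subgroup.mem_subgroupOf.1 h1
    refine ⟨?_, ?_⟩
    · have h4 : y * t * y⁻¹ = (x : V ≃ₗ[K] V)⁻¹ * (g * t * g⁻¹) * (x : V ≃ₗ[K] V) := by
        rw [hy]
        group
      rw [h4]
      exact h3
    · exact Γ.mul_mem (Γ.mul_mem (Γ.mul_mem (Γ.inv_mem x.2) (hΓ g hg1)) ht.2)
        (Γ.inv_mem (Γ.mul_mem (Γ.inv_mem x.2) (hΓ g hg1)))
  have hyT' : ∀ t ∈ T, y⁻¹ * t * y ∈ T := by
    intro t ht
    have h1 : x * ⟨t, ht.2⟩ * x⁻¹ ∈ conjSub x H := by
      rw [mem_conjSub]
      have h2 : x⁻¹ * (x * ⟨t, ht.2⟩ * x⁻¹) * x = ⟨t, ht.2⟩ := by group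
      rw [h2]
      exact Subgroup.mem_subgroupOf.2 ht.1
    rw [hxg, mem_conjSub] at h1
    have h3 := Subgroup.mem_subgroupOf.1 h1
    refine ⟨?_, ?_⟩
    · have h4 : y⁻¹ * t * y = g⁻¹ * ((x : V ≃ₗ[K] V) * t * (x : V ≃ₗ[K] V)⁻¹) * g := by
        rw [hy]
        group
      rw [h4]
      exact h3
    · exact Γ.mul_mem (Γ.mul_mem (Γ.inv_mem (Γ.mul_mem (Γ.inv_mem x.2) (hΓ g hg1))) ht.2)
        (Γ.mul_mem (Γ.inv_mem x.2) (hΓ g hg1))
  apply hPQ
  apply Neg.mset_eq _ ha P Q _ hsum
  intro d hd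
  apply le_antisymm
  · apply Neg.count_le e y P Q d
    intro i hi hid
    apply Neg.key e T inf_le_left hT1 y hyT hyT' Q hQu i _ _ (by omega)
    · intro v hv
      rw [hyP, hv, Finset.singleton_subset_iff]
      exact hi
    · intro h
      have h1 : i₂ ∈ ({i} : Finset ι) := by rw [h]; exact Finset.mem_univ _
      rw [Finset.mem_singleton] at h1
      exact hdisj i hi (h1 ▸ hi₂)
  · apply Neg.count_le e y⁻¹ Q P d
    intro i hi hid
    apply Neg.key e T inf_le_left hT1 y⁻¹ (by rw [inv_inv]; exact hyT')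
      (by rw [inv_inv]; exact hyT) P hPu i _ _ (by omega)
    · intro v hv
      rw [← hyP, show y (y⁻¹ v) = v from y.apply_symm_apply v, hv,
        Finset.singleton_subset_iff]
      exact hi
    · intro h
      have h1 : i₁ ∈ ({i} : Finset ι) := by rw [h]; exact Finset.mem_univ _
      rw [Finset.mem_singleton] at h1
      exact hdisj i₁ hi₁ (h1 ▸ hi)

end tori

end Pool.Agent.H10.Pro
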