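import Pool.Agent.H10.Pro.Main
import Pool.Agent.H10.Pro.Neg

/-!
# Pronormality of maximal tori in type A
-/

namespace Pool.Agent.H10.Pro

set_option linter.unusedSectionVars false
set_option linter.unusedDecidableInType false
set_option linter.style.haveILetI false

open Module

/-- Pronormality and quotients: if `N ≤ H` then `H` is pronormal in `G` iff `H / N` is pronormal
in `G / N`. -/
theorem isPronormal_map_iff {G : Type*} [Group G] (N : Subgroup G) [N.Normal] (H : Subgroup G)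
    (hN : N ≤ H) : IsPronormal (H.map (QuotientGroup.mk' N)) ↔ IsPronormal H := by
  have hmap : ∀ (x : G), conjSub (QuotientGroup.mk' N x) (H.map (QuotientGroup.mk' N))
      = (conjSub x H).map (QuotientGroup.mk' N) := by
    intro x
    ext y
    obtain ⟨y, rfl⟩ := QuotientGroup.mk'_surjective N y
    rw [mem_conjSub]
    constructor
    · rintro ⟨h, hh, hy⟩
      refine ⟨x * h * x⁻¹, ?_, ?_⟩
      · show x * h * x⁻¹ ∈ conjSub x H
        rw [mem_conjSub]
        have : x⁻¹ * (x * h * x⁻¹) * x = h := by group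
        rw [this]; exact hh
      · rw [map_mul, map_mul, hy, map_inv]; group
    · rintro ⟨z, hz, hy⟩
      have hz' : z ∈ conjSub x H := hz
      rw [mem_conjSub] at hz'
      refine ⟨x⁻¹ * z * x, hz', ?_⟩
      rw [← hy, map_mul, map_mul, map_inv]
  have hle : ∀ x : G, N ≤ conjSub x H := by
    intro x n hn
    rw [mem_conjSub]
    apply hN
    have := (inferInstance : N.Normal).conj_mem n hn x⁻¹
    simpa using this
  have hcomap : ∀ A B : Subgroup G, N ≤ A → N ≤ B →
      A.map (QuotientGroup.mk' N) = B.map (QuotientGroup.mk' N) → A = B := by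
    intro A B hA hB h
    have h1 := congrArg (Subgroup.comap (QuotientGroup.mk' N)) h
    rwa [Subgroup.comap_map_eq_self (by rw [QuotientGroup.ker_mk']; exact hA),
      Subgroup.comap_map_eq_self (by rw [QuotientGroup.ker_mk']; exact hB)] at h1
  constructor
  · intro h g
    obtain ⟨x', hx', hxe⟩ := h (QuotientGroup.mk' N g)
    rw [hmap, ← Subgroup.map_sup] at hx'
    obtain ⟨x, hx, rfl⟩ := hx'
    refine ⟨x, hx, ?_⟩
    rw [hmap, hmap] at hxe
    exact hcomap _ _ (hle x) (hle g) hxe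
  · intro h g'
    obtain ⟨g, rfl⟩ := QuotientGroup.mk'_surjective N g'
    obtain ⟨x, hx, hxe⟩ := h g
    refine ⟨QuotientGroup.mk' N x, ?_, ?_⟩
    · rw [hmap, ← Subgroup.map_sup]
      exact ⟨x, hx, rfl⟩
    · rw [hmap, hmap, hxe]

section

variable {K : Type} [Field K] [Finite K] {ι : Type} [Fintype ι] [DecidableEq ι] {L : ι → Type}
  [∀ i, Field (L i)] [∀ i, Algebra K (L i)] [∀ i, FiniteDimensional K (L i)]
  {V : Type} [AddCommGroup V] [Module K V]

lemma TD_le_of_det (e : V ≃ₗ[K] (∀ i, L i)) (Γ : Subgroup (V ≃ₗ[K] V))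
    (hΓ : ∀ g : V ≃ₗ[K] V, LinearEquiv.det g = 1 → g ∈ Γ) :
    TD (Γ.map LinearEquiv.det) e ≤ Γ := by
  intro g hg
  obtain ⟨t, ⟨γ, hγ, ht⟩, rfl⟩ := mem_TD.1 hg
  have h1 : LinearEquiv.det (tor e t * γ⁻¹) = 1 := by
    rw [map_mul, map_inv, det_tor, ← ht, mul_inv_cancel]
  have h2 := hΓ _ h1
  have h3 : tor e t = tor e t * γ⁻¹ * γ := by group
  rw [h3]
  exact Γ.mul_mem h2 hγ

/-- The positive direction. -/
theorem pronormal_pos (e : V ≃ₗ[K] (∀ i, L i)) (Γ : Subgroup (V ≃ₗ[K] V))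
    (hΓ : ∀ g : V ≃ₗ[K] V, LinearEquiv.det g = 1 → g ∈ Γ) (hq31 : 31 ≤ Nat.card K)
    (hq : 2 ^ Fintype.card ι + Fintype.card ι *
      (min (∑ i, finrank K (L i)) (Γ.map LinearEquiv.det).index + 1) ≤ Nat.card K)
    (hD : DistinctSums fun i => finrank K (L i)) :
    IsPronormal ((TT e).subgroupOf Γ) := by
  intro g
  set D : Subgroup Kˣ := Γ.map LinearEquiv.det with hDdef
  set e' := (g : V ≃ₗ[K] V).symm.trans e with he'
  have hTe' : TT e' = conjSub (g : V ≃ₗ[K] V) (TT e) := TT_cj e g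
  obtain ⟨x, hx, hxe⟩ := conj_tori D hq31 hq hD e e'
  have h1 : TD D e ≤ Γ := TD_le_of_det e Γ hΓ
  have h2 : TD D e' ≤ Γ := TD_le_of_det e' Γ hΓ
  have hxΓ : x ∈ Γ := (sup_le h1 h2) hx
  have hle : TD D e ⊔ TD D e' ≤
      ((TT e).subgroupOf Γ ⊔ conjSub g ((TT e).subgroupOf Γ)).map Γ.subtype := by
    apply sup_le
    · intro y hy
      refine ⟨⟨y, h1 hy⟩, ?_, rfl⟩
      apply (le_sup_left : (TT e).subgroupOf Γ ≤ _)
      exact TD_le_TT D e hy
    · intro y hy
      refine ⟨⟨y, h2 hy⟩, ?_, rfl⟩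
      apply (le_sup_right : conjSub g ((TT e).subgroupOf Γ) ≤ _)
      rw [mem_conjSub, Subgroup.mem_subgroupOf]
      have h3 : y ∈ TT e' := TD_le_TT D e' hy
      rw [hTe', mem_conjSub] at h3
      exact h3
  obtain ⟨x', hx', hxx⟩ := hle hx
  have hxx' : (x' : V ≃ₗ[K] V) = x := hxx
  refine ⟨x', hx', ?_⟩
  rw [TT_cj, hTe'] at hxe
  ext y
  rw [mem_conjSub, mem_conjSub, Subgroup.mem_subgroupOf, Subgroup.mem_subgroupOf]
  have h4 := SetLike.ext_iff.1 hxe (y : V ≃ₗ[K] V)
  rw [mem_conjSub, mem_conjSub] at h4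
  simpa [hxx'] using h4

end

variable (K : Type) [Field K] {ι : Type} (L : ι → Type)
  [∀ i, Field (L i)] [∀ i, Algebra K (L i)]

/-- The general linear group of the `K`-vector space `∏ L i`. -/
def GLP : Type := (∀ i, L i) ≃ₗ[K] (∀ i, L i)

instance : Group (GLP K L) := inferInstanceAs (Group ((∀ i, L i) ≃ₗ[K] (∀ i, L i)))

/-- The determinant. -/
noncomputable def detP : GLP K L →* Kˣ := LinearEquiv.det

/-- The value of `g` at `v`. -/
def act (g : GLP K L) (v : ∀ i, L i) : ∀ i, L i :=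
  (id g : (∀ i, L i) ≃ₗ[K] (∀ i, L i)) v

/-- The maximal torus `∏ L_i^×` of `GL_K(∏ L_i)` (of type `([L_i : K])_i`). -/
def torus : Subgroup (GLP K L) where
  carrier := {g | ∃ t : ∀ i, (L i)ˣ, ∀ (v : ∀ i, L i) (i : ι), act K L g v i = (t i : L i) * v i}
  mul_mem' := by
    rintro a b ⟨s, hs⟩ ⟨t, ht⟩
    refine ⟨s * t, fun v i => ?_⟩
    have : act K L (a * b) v i = act K L a (act K L b v) i := rfl
    rw [this, hs, ht]
    simp [mul_assoc]
  one_mem' := ⟨1, fun v i => by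
    have : act K L 1 v i = v i := rfl
    simp [this]⟩
  inv_mem' := by
    rintro a ⟨s, hs⟩
    refine ⟨s⁻¹, fun v i => ?_⟩
    have h1 : act K L a (act K L a⁻¹ v) = v := by
      have h0 : act K L a (act K L a⁻¹ v) = act K L (a * a⁻¹) v := rfl
      rw [h0, mul_inv_cancel]; rfl
    have h2 := hs (act K L a⁻¹ v) i
    rw [h1] at h2
    rw [h2]
    simp

lemma torus_eq [Fintype ι] [DecidableEq ι] :
    torus K L = TT (LinearEquiv.refl K (∀ i, L i)) := by
  ext g
  constructor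
  · rintro ⟨t, ht⟩
    refine ⟨t, ?_⟩
    apply LinearEquiv.ext
    intro v
    funext i
    have := tor_apply (LinearEquiv.refl K (∀ i, L i)) t v i
    simp only [LinearEquiv.refl_apply] at this
    rw [this]
    exact (ht v i).symm
  · rintro ⟨t, rfl⟩
    refine ⟨t, fun v i => ?_⟩
    exact tor_apply (LinearEquiv.refl K (∀ i, L i)) t v i

/-- The degrees `[L_i : K]`. -/
noncomputable def deg (i : ι) : ℕ := finrank K (L i)

variable {K L}

/-- The image of `torus K L ∩ Γ` in `Γ / N`. -/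
def torusQ (Γ : Subgroup (GLP K L)) (N : Subgroup Γ) [N.Normal] : Subgroup (Γ ⧸ N) :=
  ((torus K L).subgroupOf Γ).map (QuotientGroup.mk' N)

/-- **Pronormality of the maximal tori in type A.** -/
theorem main [Finite K] [Fintype ι] [∀ i, FiniteDimensional K (L i)]
    (Γ : Subgroup (GLP K L)) (hΓ : (detP K L).ker ≤ Γ)
    (N : Subgroup Γ) [N.Normal] (hN : N ≤ (torus K L).subgroupOf Γ) :
    (¬ DistinctSums (deg K L) → ¬ IsPronormal (torusQ Γ N)) ∧
    (31 ≤ Nat.card K →
      2 ^ Fintype.card ι + Fintype.card ι *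
        (min (∑ i, deg K L i) (Γ.map (detP K L)).index + 1) ≤ Nat.card K →
      (IsPronormal (torusQ Γ N) ↔ DistinctSums (deg K L))) := by
  classical
  have hΓ' : ∀ g : (∀ i, L i) ≃ₗ[K] (∀ i, L i), LinearEquiv.det g = 1 → g ∈ Γ := by
    intro g hg
    exact hΓ (MonoidHom.mem_ker.2 hg)
  unfold torusQ
  rw [isPronormal_map_iff N _ hN, torus_eq]
  refine ⟨fun h => not_pronormal _ Γ hΓ' h, fun hq31 hq => ⟨fun h => ?_, fun h => ?_⟩⟩
  · by_contra hD
    exact not_pronormal _ Γ hΓ' hD h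
  · exact pronormal_pos _ Γ hΓ' hq31 hq h

end Pool.Agent.H10.Pro
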