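import Pool.Agent.H10.Pro.Base
import Pool.Agent.H10.Pro.Det

/-!
# Gluing
-/

namespace Pool.Agent.H10.Pro

set_option linter.unusedSectionVars false
set_option linter.unusedDecidableInType false
set_option linter.style.haveILetI false

open Module

variable {K : Type} [Field K] [Finite K] {ι : Type} [Fintype ι] [DecidableEq ι] {L : ι → Type}
  [∀ i, Field (L i)] [∀ i, Algebra K (L i)] [∀ i, FiniteDimensional K (L i)]
  {V : Type} [AddCommGroup V] [Module K V]

/-- the projection onto the `j`-th coordinate subspace -/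
noncomputable def pr (e : V ≃ₗ[K] (∀ i, L i)) (j : ι) : V →ₗ[K] V :=
  e.symm.toLinearMap ∘ₗ (LinearMap.single K L j) ∘ₗ (LinearMap.proj j) ∘ₗ e.toLinearMap

lemma e_pr (e : V ≃ₗ[K] (∀ i, L i)) (j : ι) (v : V) : e (pr e j v) = Pi.single j (e v j) := by
  simp [pr]

lemma pr_eq_self (e : V ≃ₗ[K] (∀ i, L i)) (j : ι) (v : V) (h : ∀ i, i ≠ j → e v i = 0) :
    pr e j v = v := by
  apply e.injective
  rw [e_pr]
  funext i
  by_cases hi : i = j
  · subst hi; simp
  · rw [Pi.single_eq_of_ne hi, h i hi]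

lemma pr_mem (e : V ≃ₗ[K] (∀ i, L i)) (j : ι) (v : V) : ∀ i, i ≠ j → e (pr e j v) i = 0 := by
  intro i hi
  rw [e_pr, Pi.single_eq_of_ne hi]

/-- `ν` kills `U` and maps into `U`. -/
def Nil (U : Submodule K V) (ν : V →ₗ[K] V) : Prop := (∀ u ∈ U, ν u = 0) ∧ ∀ v, ν v ∈ U

/-- `1 + ν` -/
def uni (U : Submodule K V) (ν : V →ₗ[K] V) (h : Nil U ν) : V ≃ₗ[K] V where
  toFun v := v + ν v
  invFun v := v - ν v
  map_add' v w := by simp; abel
  map_smul' c v := by simp
  left_inv v := by simp [h.1 _ (h.2 v)]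
  right_inv v := by simp [h.1 _ (h.2 v)]

lemma uni_apply (U : Submodule K V) (ν : V →ₗ[K] V) (h : Nil U ν) (v : V) :
    uni U ν h v = v + ν v := rfl

lemma uni_inv_apply (U : Submodule K V) (ν : V →ₗ[K] V) (h : Nil U ν) (v : V) :
    (uni U ν h)⁻¹ v = v - ν v := rfl

lemma exists_root (m : ℕ) (hm : 0 < m) (h : m + 2 ≤ Nat.card K) : ∃ α : Kˣ, α ^ m ≠ 1 := by
  classical
  have : Fintype K := Fintype.ofFinite K
  by_contra hcon
  push Not at hcon
  obtain ⟨g, hg⟩ := IsCyclic.exists_generator (α := Kˣ)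
  have h1 : orderOf g = Nat.card Kˣ := orderOf_eq_card_of_forall_mem_zpowers hg
  have h2 : orderOf g ∣ m := orderOf_dvd_of_pow_eq_one (hcon g)
  have h3 : orderOf g ≤ m := Nat.le_of_dvd hm h2
  rw [h1, Nat.card_units] at h3
  omega

/-- the element used to kill the unipotent radical -/
lemma exists_sep (hι : 2 ≤ Fintype.card ι) (hq : 5 ≤ Nat.card K) (j : ι)
    (hmin : ∀ i, finrank K (L j) ≤ finrank K (L i)) :
    ∃ (α : Kˣ) (t : ∀ i, (L i)ˣ), NN K t = 1 ∧ (t j : L j) = algebraMap K (L j) α ∧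
      ∀ i, i ≠ j → (t i : L i) ≠ algebraMap K (L i) α := by
  classical
  haveI : Nontrivial ι := Fintype.one_lt_card_iff_nontrivial.1 (by omega)
  obtain ⟨k, hk⟩ := exists_ne j
  have hpos : 0 < finrank K (L j) := finrank_pos
  obtain ⟨α, hα⟩ := exists_root (K := K) 2 (by norm_num) (by omega)
  haveI : Finite (L k) := Module.finite_of_finite K
  have hα1 : α ≠ 1 := by
    rintro rfl; simp at hα
  have hnα : ∀ i, Units.map (Algebra.norm K (S := L i))
      (Units.map (algebraMap K (L i)).toMonoidHom α) = α ^ finrank K (L i) := by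
    intro i
    ext
    simp [Algebra.norm_algebraMap]
  -- a unit `y` of `L k` of norm `α ^ (- a_j)` different from `α`
  have hy : ∃ y : (L k)ˣ, Units.map (Algebra.norm K (S := L k)) y = (α ^ finrank K (L j))⁻¹ ∧
      (y : L k) ≠ algebraMap K (L k) α := by
    obtain ⟨y, hy⟩ := FiniteField.unitsMap_norm_surjective K (L k) (α ^ finrank K (L j))⁻¹
    by_cases hyα : (y : L k) = algebraMap K (L k) α
    · by_cases hk1 : finrank K (L k) = 1
      · exfalso
        have hj1 : finrank K (L j) = 1 := by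
          have := hmin k
          omega
        have h2 : y = Units.map (algebraMap K (L k)).toMonoidHom α := Units.ext hyα
        rw [h2, hnα, hk1, hj1, pow_one] at hy
        apply hα
        rw [pow_two]
        nth_rewrite 2 [hy]
        simp
      · -- multiply by a nontrivial norm one element
        have hninj : ¬ Function.Injective
            (Units.map (Algebra.norm K (S := L k)) : (L k)ˣ →* Kˣ) := by
          intro hinj
          have h1 : Nat.card (L k)ˣ ≤ Nat.card Kˣ := Nat.card_le_card_of_injective _ hinj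
          rw [Nat.card_units, Nat.card_units, Module.natCard_eq_pow_finrank (K := K)] at h1
          have h2 : 2 ≤ finrank K (L k) := by
            have : 0 < finrank K (L k) := finrank_pos
            omega
          have h3 : Nat.card K ^ 2 ≤ Nat.card K ^ finrank K (L k) :=
            Nat.pow_le_pow_right (by omega) h2
          have h4 : Nat.card K * 5 ≤ Nat.card K ^ 2 := by
            rw [pow_two]; exact Nat.mul_le_mul_left _ hq
          omega
        rw [← MonoidHom.ker_eq_bot_iff, Subgroup.eq_bot_iff_forall] at hninj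
        push Not at hninj
        obtain ⟨u, hu, hu1⟩ := hninj
        refine ⟨y * u, ?_, ?_⟩
        · rw [map_mul, MonoidHom.mem_ker.1 hu, mul_one, hy]
        · rw [← hyα, Units.val_mul]
          intro h
          apply hu1
          have h5 : (y : L k) * (u : L k) = (y : L k) * 1 := by rw [mul_one]; exact h
          have h6 := mul_left_cancel₀ (Units.ne_zero y) h5
          exact Units.ext h6
    · exact ⟨y, hy, hyα⟩
  obtain ⟨y, hy, hyα⟩ := hy
  refine ⟨α, Pi.mulSingle j (Units.map (algebraMap K (L j)).toMonoidHom α) *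
    Pi.mulSingle k y, ?_, ?_, ?_⟩
  · rw [map_mul, NN_mulSingle, NN_mulSingle, hy, hnα]
    simp
  · simp [Pi.mulSingle_eq_of_ne hk.symm]
  · intro i hi
    by_cases hik : i = k
    · subst hik
      simp only [Pi.mul_apply, Pi.mulSingle_eq_of_ne hi, Pi.mulSingle_eq_same, one_mul]
      exact hyα
    · simp only [Pi.mul_apply, Pi.mulSingle_eq_of_ne hi, Pi.mulSingle_eq_of_ne hik, one_mul,
        Units.val_one]
      intro h
      apply hα1
      ext
      rw [← map_one (algebraMap K (L i))] at h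
      exact ((algebraMap K (L i)).injective h).symm

/-- (G) gluing. -/
theorem glue (e e' : V ≃ₗ[K] (∀ i, L i)) (H : Subgroup (V ≃ₗ[K] V)) (he : T1 e ≤ H)
    (he' : T1 e' ≤ H) (hι : 2 ≤ Fintype.card ι) (hq : 5 ≤ Nat.card K) (j : ι)
    (hmin : ∀ i, finrank K (L j) ≤ finrank K (L i)) (hS : SameAt e e' j)
    (U : Submodule K V)
    (hU : ∀ u : V, u ∈ U ↔ ∀ i, i ≠ j → e u i = 0)
    (hU' : ∀ u : V, u ∈ U ↔ ∀ i, i ≠ j → e' u i = 0)
    (hQ : TT (eQ e j U hU) = TT (eQ e' j U hU')) :
    ∃ x ∈ H, TT (x.symm.trans e) = TT e' := by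
  classical
  haveI := finite_V e
  haveI := finite_GL e
  -- elements of the tori preserve `U`
  have hpres : ∀ (t : ∀ i, (L i)ˣ) (u : V), u ∈ U → tor e t u ∈ U := by
    intro t u hu
    rw [hU] at hu ⊢
    intro i hi
    rw [tor_apply, hu i hi, mul_zero]
  have hnil : Nil U (pr e j - pr e' j) := by
    constructor
    · intro u hu
      rw [LinearMap.sub_apply, pr_eq_self e j u ((hU u).1 hu), pr_eq_self e' j u ((hU' u).1 hu),
        sub_self]
    · intro v
      rw [LinearMap.sub_apply]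
      exact U.sub_mem ((hU _).2 (pr_mem e j v)) ((hU' _).2 (pr_mem e' j v))
  set x0 : V ≃ₗ[K] V := uni U (pr e j - pr e' j) hnil with hx0
  have hx0a : ∀ v, x0 v = v + (pr e j v - pr e' j v) := fun v => rfl
  -- claim 1
  have claim1 : ∀ t : ∀ i, (L i)ˣ, ∃ t' : ∀ i, (L i)ˣ, x0 * tor e t = tor e' t' * x0 := by
    intro t
    obtain ⟨s', hs'⟩ := hS.2 (t j)
    have hq1 : tor (eQ e j U hU) (fun i => t i) ∈ TT (eQ e' j U hU') := by
      rw [← hQ]; exact tor_mem_TT _ _
    obtain ⟨t'', ht''⟩ := hq1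
    set t' : ∀ i, (L i)ˣ := fun i => if h : i = j then h ▸ s' else t'' ⟨i, h⟩ with ht'
    have ht'j : t' j = s' := by simp [ht']
    have ht'i : ∀ i (h : i ≠ j), t' i = t'' ⟨i, h⟩ := by
      intro i h; simp [ht', h]
    refine ⟨t', ?_⟩
    ext v
    simp only [LinearEquiv.mul_apply]
    apply e'.injective
    funext i
    by_cases hi : i = j
    · subst hi
      rw [tor_apply, hx0a, hx0a]
      simp only [map_add, map_sub, Pi.add_apply, Pi.sub_apply, e_pr e', Pi.single_eq_same]
      have h1 : pr e i (tor e t v) = tor e' t' (pr e i v) := by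
        have h2 : pr e i (tor e t v) = tor e t (pr e i v) := by
          apply e.injective
          funext k
          rw [e_pr, tor_apply, tor_apply, e_pr]
          by_cases hk : k = i
          · subst hk; simp
          · simp [Pi.single_eq_of_ne hk]
        rw [h2, tor_eq_of_supp e t i _ (pr_mem e i v), hs' _ (pr_mem e i v),
          tor_eq_of_supp e' t' i (pr e i v) ((hS.1 _).1 (pr_mem e i v)), ht'j]
      rw [h1, tor_apply]
      ring
    · have hx0i : ∀ w, e' (x0 w) i = e' w i := by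
        intro w
        have h3 : x0 w = w + (pr e j - pr e' j) w := rfl
        rw [h3, map_add, Pi.add_apply, (hU' _).1 (hnil.2 w) i hi, add_zero]
      rw [hx0i, tor_apply, hx0i, ht'i i hi]
      have h4 : U.mkQ (tor e t v) = tor (eQ e j U hU) (fun i => t i) (U.mkQ v) := by
        apply (eQ e j U hU).injective
        funext k
        rw [tor_apply, eQ_apply, eQ_apply, tor_apply]
      have h5 := congrArg (fun w => eQ e' j U hU' w ⟨i, hi⟩) h4
      simp only [← ht'', tor_apply, eQ_apply] at h5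
      exact h5
  -- claim 2
  have claim2 : TT (x0.symm.trans e) = TT e' := by
    apply Subgroup.eq_of_le_of_card_ge
    · rw [TT_cj]
      intro g hg
      rw [mem_conjSub] at hg
      obtain ⟨t, ht⟩ := hg
      obtain ⟨t', ht'⟩ := claim1 t
      refine ⟨t', ?_⟩
      have : g = x0 * tor e t * x0⁻¹ := by rw [ht]; group
      rw [this, ht']; group
    · rw [card_TT, card_TT]
  refine ⟨x0, ?_, claim2⟩
  -- claim 3/4
  obtain ⟨α, t, hNt, htj, hti⟩ := exists_sep (K := K) (L := L) hι hq j hmin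
  set τ : V ≃ₗ[K] V := tor e t with hτ
  have hτH : τ ∈ H := he (tor_mem_T1 e t hNt)
  have hτU : ∀ u ∈ U, τ u ∈ U := fun u hu => hpres t u hu
  have hτα : ∀ u ∈ U, τ u = (α : K) • u := by
    intro u hu
    apply e.injective
    funext i
    rw [tor_apply, map_smul, Pi.smul_apply, Algebra.smul_def]
    by_cases hi : i = j
    · subst hi; rw [htj]
    · rw [(hU u).1 hu i hi, mul_zero, mul_zero]
  let Q : (V →ₗ[K] V) → (V →ₗ[K] V) := fun ν =>
    ν - τ.toLinearMap ∘ₗ ν ∘ₗ (τ⁻¹ : V ≃ₗ[K] V).toLinearMap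
  have hQa : ∀ ν v, Q ν v = ν v - τ (ν (τ⁻¹ v)) := fun ν v => rfl
  have hτinv : ∀ v, τ (τ⁻¹ v) = v := fun v => by
    rw [← LinearEquiv.mul_apply, mul_inv_cancel]; rfl
  have hτinv' : ∀ v, τ⁻¹ (τ v) = v := fun v => by
    rw [← LinearEquiv.mul_apply, inv_mul_cancel]; rfl
  let S : Set (V →ₗ[K] V) := {ν | Nil U ν ∧ ∃ x ∈ H, ∀ v, x v = v + ν v}
  have hfin : Finite (V →ₗ[K] V) :=
    Finite.of_injective (fun g : V →ₗ[K] V => (g : V → V)) DFunLike.coe_injective
  have hτinvU : ∀ u ∈ U, τ⁻¹ u ∈ U := by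
    intro u hu
    have h1 : τ⁻¹ = tor e t⁻¹ := by rw [hτ, map_inv]
    rw [h1]
    exact hpres _ u hu
  have hmaps : Set.MapsTo Q S S := by
    rintro ν ⟨hν, x, hx, hxv⟩
    refine ⟨⟨?_, ?_⟩, x * (τ * x⁻¹ * τ⁻¹), ?_, ?_⟩
    · intro u hu
      rw [hQa, hν.1 u hu, hν.1 _ (hτinvU u hu), map_zero, sub_zero]
    · intro v
      rw [hQa]
      exact U.sub_mem (hν.2 v) (hτU _ (hν.2 _))
    · exact H.mul_mem hx (H.mul_mem (H.mul_mem hτH (H.inv_mem hx)) (H.inv_mem hτH))
    · intro v
      have hxinv : ∀ w, x⁻¹ w = w - ν w := by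
        intro w
        have h1 : x (w - ν w) = w := by
          rw [hxv, map_sub, hν.1 _ (hν.2 w)]; abel
        have h2 : x⁻¹ (x (w - ν w)) = w - ν w := by
          rw [← LinearEquiv.mul_apply, inv_mul_cancel]; rfl
        rw [h1] at h2
        exact h2
      simp only [LinearEquiv.mul_apply]
      rw [hxinv, hxv, map_sub τ, hτinv, hQa, map_sub ν, hν.1 _ (hτU _ (hν.2 _))]
      abel
  have hinj : ∀ ν, Nil U ν → Q ν = 0 → ν = 0 := by
    intro ν hν h0
    have h1 : ∀ v, ν v = (α : K) • ν (τ⁻¹ v) := by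
      intro v
      have := congrArg (fun f : V →ₗ[K] V => f v) h0
      simp only [hQa, LinearMap.zero_apply] at this
      rw [← hτα _ (hν.2 _)]
      exact sub_eq_zero.1 this
    have h2 : ∀ v, ν (τ v - (α : K) • v) = 0 := by
      intro v
      rw [map_sub, map_smul, h1 (τ v), hτinv', sub_self]
    ext v
    -- decompose `v = pr v + (v - pr v)`
    have h3 : ν v = ν (v - pr e j v) := by
      rw [map_sub, hν.1 _ ((hU _).2 (pr_mem e j v)), sub_zero]
    rw [h3, LinearMap.zero_apply]
    have h4 : ∃ w, v - pr e j v = τ w - (α : K) • w := by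
      refine ⟨e.symm (fun i => (e v i - Pi.single (M := L) j (e v j) i) *
        ((t i : L i) - algebraMap K (L i) α)⁻¹), ?_⟩
      apply e.injective
      funext i
      rw [map_sub, map_sub, Pi.sub_apply, Pi.sub_apply, tor_apply, map_smul, Pi.smul_apply,
        LinearEquiv.apply_symm_apply, e_pr, Algebra.smul_def]
      by_cases hi : i = j
      · subst hi; simp
      · have h5 : (t i : L i) - algebraMap K (L i) α ≠ 0 := sub_ne_zero.2 (hti i hi)
        field_simp
    obtain ⟨w, hw⟩ := h4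
    rw [hw, h2]
  have hinjOn : Set.InjOn Q S := by
    intro ν hν μ hμ h
    have h1 : Nil U (ν - μ) := by
      constructor
      · intro u hu
        rw [LinearMap.sub_apply, hν.1.1 u hu, hμ.1.1 u hu, sub_zero]
      · intro v
        exact U.sub_mem (hν.1.2 v) (hμ.1.2 v)
    have h2 : Q (ν - μ) = 0 := by
      have : Q (ν - μ) = Q ν - Q μ := by
        ext v
        simp only [hQa, LinearMap.sub_apply, map_sub]
        abel
      rw [this, h, sub_self]
    exact sub_eq_zero.1 (hinj _ h1 h2)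
  have hsurj : Set.SurjOn Q S S := by
    have hfS : S.Finite := Set.toFinite S
    exact ((hfS.injOn_iff_bijOn_of_mapsTo hmaps).1 hinjOn).surjOn
  -- `Q ν0 ∈ S`
  have hQν0 : Q (pr e j - pr e' j) ∈ S := by
    refine ⟨⟨?_, ?_⟩, x0 * τ * x0⁻¹ * τ⁻¹, ?_, ?_⟩
    · intro u hu
      rw [hQa, hnil.1 u hu, hnil.1 _ (hτinvU u hu), map_zero, sub_zero]
    · intro v
      rw [hQa]
      exact U.sub_mem (hnil.2 v) (hτU _ (hnil.2 _))
    · obtain ⟨t', ht'⟩ := claim1 t
      have h1 : x0 * τ * x0⁻¹ = tor e' t' := by rw [hτ, ht']; group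
      have h2 : NN K t' = 1 := by
        have h3 := congrArg LinearEquiv.det h1
        rw [det_tor e' t'] at h3
        rw [← h3, map_mul, map_mul, hτ, det_tor, hNt, map_inv]
        simp
      rw [h1]
      exact H.mul_mem (he' (tor_mem_T1 e' t' h2)) (H.inv_mem hτH)
    · intro v
      simp only [LinearEquiv.mul_apply]
      have h1 : ∀ w, x0⁻¹ w = w - (pr e j - pr e' j) w := fun w => rfl
      have h2 : ∀ w, x0 w = w + (pr e j - pr e' j) w := fun w => rfl
      rw [h1, h2, map_sub τ, hτinv, hQa, map_sub (pr e j - pr e' j),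
        hnil.1 _ (hτU _ (hnil.2 _))]
      abel
  obtain ⟨ν1, hν1, hν1'⟩ := hsurj hQν0
  have h6 : ν1 = pr e j - pr e' j := by
    have h1 : Nil U (ν1 - (pr e j - pr e' j)) := by
      constructor
      · intro u hu
        rw [LinearMap.sub_apply, hν1.1.1 u hu, hnil.1 u hu, sub_zero]
      · intro v
        exact U.sub_mem (hν1.1.2 v) (hnil.2 v)
    have h2 : Q (ν1 - (pr e j - pr e' j)) = 0 := by
      have : Q (ν1 - (pr e j - pr e' j)) = Q ν1 - Q (pr e j - pr e' j) := by
        ext v
        simp only [hQa, LinearMap.sub_apply, map_sub]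
        abel
      rw [this, hν1', sub_self]
    exact sub_eq_zero.1 (hinj _ h1 h2)
  obtain ⟨-, x, hx, hxv⟩ := hν1
  have h7 : x = x0 := by
    ext v
    rw [hxv, h6]; rfl
  rw [← h7]; exact hx

end Pool.Agent.H10.Pro
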