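import Pool.Agent.H10.Pro.Base

/-!
# Lifting conjugating elements from the quotient; relabelling
-/

namespace Pool.Agent.H10.Pro

set_option linter.unusedSectionVars false
set_option linter.unusedDecidableInType false
set_option linter.style.haveILetI false

open Module

variable {K : Type} [Field K] [Finite K] {ι : Type} [Fintype ι] [DecidableEq ι] {L : ι → Type}
  [∀ i, Field (L i)] [∀ i, Algebra K (L i)] [∀ i, FiniteDimensional K (L i)]
  {V : Type} [AddCommGroup V] [Module K V]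

/-- extension of a tuple by `1` at `j` -/
def ext1 (j : ι) (t : ∀ i : {i : ι // i ≠ j}, (L i)ˣ) : ∀ i, (L i)ˣ :=
  fun i => if h : i = j then 1 else t ⟨i, h⟩

lemma ext1_j (j : ι) (t : ∀ i : {i : ι // i ≠ j}, (L i)ˣ) : ext1 j t j = 1 := by
  simp [ext1]

lemma ext1_i (j : ι) (t : ∀ i : {i : ι // i ≠ j}, (L i)ˣ) (i : ι) (h : i ≠ j) :
    ext1 j t i = t ⟨i, h⟩ := by
  simp [ext1, h]

lemma NN_ext1 (j : ι) (t : ∀ i : {i : ι // i ≠ j}, (L i)ˣ) :
    NN K (ext1 j t) = NN K (L := fun i : {i : ι // i ≠ j} => L i) t := by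
  unfold NN
  simp only [MonoidHom.coe_mk, OneHom.coe_mk]
  rw [← Finset.mul_prod_erase Finset.univ _ (Finset.mem_univ j), ext1_j, map_one, one_mul]
  symm
  apply Finset.prod_bij (fun (i : {i : ι // i ≠ j}) _ => (i : ι))
  · intro i _; simp [i.2]
  · intro i _ k _ h; exact Subtype.ext h
  · intro i hi
    exact ⟨⟨i, (Finset.mem_erase.1 hi).1⟩, Finset.mem_univ _, rfl⟩
  · intro i _
    rw [ext1_i j t i i.2]

lemma lift_aux (e : V ≃ₗ[K] (∀ i, L i)) (j : ι) (U : Submodule K V)
    (hU : ∀ u : V, u ∈ U ↔ ∀ i, i ≠ j → e u i = 0)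
    (t : ∀ i : {i : ι // i ≠ j}, (L i)ˣ) :
    (∀ u ∈ U, tor e (ext1 j t) u = u) ∧
    ∀ v, U.mkQ (tor e (ext1 j t) v) = tor (eQ e j U hU) t (U.mkQ v) := by
  constructor
  · intro u hu
    apply e.injective
    funext i
    rw [tor_apply]
    by_cases hi : i = j
    · subst hi; rw [ext1_j]; simp
    · rw [(hU u).1 hu i hi, mul_zero]
  · intro v
    apply (eQ e j U hU).injective
    funext i
    rw [tor_apply, eQ_apply, eQ_apply, tor_apply, ext1_i j t i i.2]

/-- (Li) lifting conjugating elements from the quotient. -/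
theorem lift (D : Subgroup Kˣ) (e e' : V ≃ₗ[K] (∀ i, L i)) (j : ι) (U : Submodule K V)
    (hU : ∀ u : V, u ∈ U ↔ ∀ i, i ≠ j → e u i = 0)
    (hU' : ∀ u : V, u ∈ U ↔ ∀ i, i ≠ j → e' u i = 0)
    (x' : (V ⧸ U) ≃ₗ[K] (V ⧸ U)) (hx' : x' ∈ TD D (eQ e j U hU) ⊔ TD D (eQ e' j U hU')) :
    ∃ x ∈ TD D e ⊔ TD D e', (∀ u ∈ U, x u = u) ∧ ∀ v, U.mkQ (x v) = x' (U.mkQ v) := by
  let M : Subgroup ((V ⧸ U) ≃ₗ[K] (V ⧸ U)) :=
    { carrier := {y | ∃ x ∈ TD D e ⊔ TD D e', (∀ u ∈ U, x u = u) ∧ ∀ v, U.mkQ (x v) = y (U.mkQ v)}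
      mul_mem' := by
        rintro a b ⟨x, hx, hx1, hx2⟩ ⟨y, hy, hy1, hy2⟩
        refine ⟨x * y, Subgroup.mul_mem _ hx hy, ?_, ?_⟩
        · intro u hu
          rw [LinearEquiv.mul_apply, hy1 u hu, hx1 u hu]
        · intro v
          rw [LinearEquiv.mul_apply, LinearEquiv.mul_apply, hx2, hy2]
      one_mem' := ⟨1, Subgroup.one_mem _, fun u _ => rfl, fun v => rfl⟩
      inv_mem' := by
        rintro a ⟨x, hx, hx1, hx2⟩
        refine ⟨x⁻¹, Subgroup.inv_mem _ hx, ?_, ?_⟩
        · intro u hu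
          have h1 : x⁻¹ (x u) = u := by rw [← LinearEquiv.mul_apply, inv_mul_cancel]; rfl
          rw [hx1 u hu] at h1
          exact h1
        · intro v
          apply a.injective
          have h1 : x (x⁻¹ v) = v := by rw [← LinearEquiv.mul_apply, mul_inv_cancel]; rfl
          have h2 : ∀ w, a (a⁻¹ w) = w := fun w => by
            rw [← LinearEquiv.mul_apply, mul_inv_cancel]; rfl
          rw [h2, ← hx2, h1] }
  have hM : TD D (eQ e j U hU) ⊔ TD D (eQ e' j U hU') ≤ M := by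
    apply sup_le
    · intro g hg
      obtain ⟨t, ht, rfl⟩ := mem_TD.1 hg
      refine ⟨tor e (ext1 j t), (le_sup_left : TD D e ≤ _) (mem_TD.2 ⟨_, ?_, rfl⟩),
        (lift_aux e j U hU t).1, (lift_aux e j U hU t).2⟩
      rw [NN_ext1]; exact ht
    · intro g hg
      obtain ⟨t, ht, rfl⟩ := mem_TD.1 hg
      refine ⟨tor e' (ext1 j t), (le_sup_right : TD D e' ≤ _) (mem_TD.2 ⟨_, ?_, rfl⟩),
        (lift_aux e' j U hU' t).1, (lift_aux e' j U hU' t).2⟩
      rw [NN_ext1]; exact ht
  exact hM hx'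

/-- (R) relabelling. -/
theorem relabel (e' : V ≃ₗ[K] (∀ i, L i)) (j l : ι) (hjl : finrank K (L l) = finrank K (L j)) :
    ∃ e'' : V ≃ₗ[K] (∀ i, L i), TT e'' = TT e' ∧ (∀ D : Subgroup Kˣ, TD D e'' = TD D e') ∧
      ∀ v, supp e' v = {l} → supp e'' v = {j} := by
  classical
  -- isomorphisms `L (swap j l i) ≃ₐ L i`
  have hiso : ∀ i, Nonempty (L (Equiv.swap j l i) ≃ₐ[K] L i) := by
    intro i
    obtain ⟨p, hp⟩ := CharP.exists K
    haveI := hp
    haveI : Fact p.Prime := ⟨CharP.char_is_prime K p⟩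
    have hd : finrank K (L (Equiv.swap j l i)) = finrank K (L i) := by
      by_cases h1 : i = j
      · subst h1; rw [Equiv.swap_apply_left]; exact hjl
      · by_cases h2 : i = l
        · subst h2; rw [Equiv.swap_apply_right]; exact hjl.symm
        · rw [Equiv.swap_apply_of_ne_of_ne h1 h2]
    haveI : NeZero (finrank K (L i)) := ⟨finrank_pos.ne'⟩
    exact ⟨(FiniteField.algEquivExtension K p (finrank K (L i)) _ hd).trans
      (FiniteField.algEquivExtension K p (finrank K (L i)) _ rfl).symm⟩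
  have φ : ∀ i, L (Equiv.swap j l i) ≃ₐ[K] L i := fun i => (hiso i).some
  -- the coordinate change
  let s0 : (∀ i, L i) →ₗ[K] (∀ i, L i) :=
    LinearMap.pi fun i => (φ i).toLinearMap ∘ₗ LinearMap.proj (Equiv.swap j l i)
  have hs0 : ∀ v i, s0 v i = φ i (v (Equiv.swap j l i)) := fun v i => rfl
  have hinj : Function.Injective s0 := by
    rw [← LinearMap.ker_eq_bot, LinearMap.ker_eq_bot']
    intro v hv
    funext k
    have h1 := congrFun hv (Equiv.swap j l k)
    rw [hs0] at h1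
    have h2 : v (Equiv.swap j l (Equiv.swap j l k)) = 0 := by
      apply (φ (Equiv.swap j l k)).injective
      rw [h1, map_zero]; rfl
    rw [Equiv.swap_apply_self] at h2
    exact h2
  let s : (∀ i, L i) ≃ₗ[K] (∀ i, L i) := LinearEquiv.ofInjectiveEndo s0 hinj
  have hs : ∀ v i, s v i = φ i (v (Equiv.swap j l i)) := fun v i => by
    have h1 : s v = s0 v := by
      simp [s]
    rw [h1, hs0]
  have key : ∀ t' : ∀ i, (L i)ˣ,
      tor (e'.trans s) (fun i => Units.map (φ i).toRingEquiv.toMonoidHom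
        (t' (Equiv.swap j l i))) = tor e' t' := by
    intro t'
    ext v
    apply (e'.trans s).injective
    funext i
    rw [tor_apply]
    simp only [LinearEquiv.trans_apply, hs, tor_apply, map_mul]
    rfl
  have keyN : ∀ t' : ∀ i, (L i)ˣ,
      NN K (L := L) (fun i => Units.map (φ i).toRingEquiv.toMonoidHom
        (t' (Equiv.swap j l i))) = NN K t' := by
    intro t'
    unfold NN
    simp only [MonoidHom.coe_mk, OneHom.coe_mk]
    rw [← Equiv.prod_comp (Equiv.swap j l)
      (fun i => Units.map (Algebra.norm K (S := L i)) (t' i))]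
    apply Finset.prod_congr rfl
    intro i _
    ext
    simp only [Units.coe_map]
    exact Algebra.norm_eq_of_algEquiv (φ i) _
  have hcard1 : ∀ (D : Subgroup Kˣ) (e : V ≃ₗ[K] (∀ i, L i)),
      Nat.card (TD D e) = Nat.card (D.comap (NN K (L := L))) := by
    intro D e
    unfold TD
    exact (Nat.card_congr
      ((D.comap (NN K (L := L))).equivMapOfInjective _ (tor_injective e)).toEquiv).symm
  haveI := finite_GL e'
  refine ⟨e'.trans s, ?_, ?_, ?_⟩
  · symm
    apply Subgroup.eq_of_le_of_card_ge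
    · rintro g ⟨t', rfl⟩
      exact ⟨_, key t'⟩
    · rw [card_TT, card_TT]
  · intro D
    symm
    apply Subgroup.eq_of_le_of_card_ge
    · intro g hg
      obtain ⟨t', ht', rfl⟩ := mem_TD.1 hg
      rw [← key t']
      exact mem_TD.2 ⟨_, by rw [keyN]; exact ht', rfl⟩
    · rw [hcard1, hcard1]
  · intro v hv
    ext i
    rw [mem_supp, Finset.mem_singleton]
    have h1 : (e'.trans s) v i = φ i (e' v (Equiv.swap j l i)) := by
      rw [LinearEquiv.trans_apply, hs]
    rw [h1]
    have h2 : φ i (e' v (Equiv.swap j l i)) ≠ 0 ↔ Equiv.swap j l i ∈ supp e' v := by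
      rw [mem_supp]
      simp
    rw [h2, hv, Finset.mem_singleton]
    constructor
    · intro h
      have := congrArg (Equiv.swap j l) h
      rwa [Equiv.swap_apply_self, Equiv.swap_apply_right] at this
    · rintro rfl
      exact Equiv.swap_apply_left _ _

end Pool.Agent.H10.Pro
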