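import Pool.Agent.H10.Pro.Zsig

/-!
# The `r`-group of norm one elements
-/

namespace Pool.Agent.H10.Pro

open Module

section aux

variable {K : Type} [Field K] [Finite K] {F : Type} [Field F] [Algebra K F]
    [FiniteDimensional K F]

lemma card_units_pow (K : Type) [Field K] [Finite K] (F : Type) [Field F] [Algebra K F]
    [FiniteDimensional K F] : Nat.card Fˣ = Nat.card K ^ finrank K F - 1 := by
  rw [Nat.card_units, Module.natCard_eq_pow_finrank (K := K)]

lemma unit_pow_card (E : Type) [Field E] [Finite E] (x : Eˣ) : x ^ (Nat.card E - 1) = 1 := by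
  rw [← Nat.card_units]
  exact pow_card_eq_one'

omit [FiniteDimensional K F] in
lemma norm_pow_card (x : Fˣ) :
    (Units.map (Algebra.norm K (S := F)) x) ^ (Nat.card K - 1) = 1 :=
  unit_pow_card K _

/-- the field generated by `x` has `q ^ b` elements. -/
lemma adjoin_top_or (x : Fˣ) :
    Algebra.adjoin K {(x : F)} = ⊤ ∨
      ∃ b, 0 < b ∧ b < finrank K F ∧ b ∣ finrank K F ∧ x ^ (Nat.card K ^ b - 1) = 1 := by
  set E := IntermediateField.adjoin K {(x : F)} with hE
  have hfin : Finite F := Module.finite_of_finite K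
  rcases lt_or_ge (finrank K E) (finrank K F) with hlt | hge
  · right
    refine ⟨finrank K E, finrank_pos, hlt, ?_, ?_⟩
    · exact ⟨finrank E F, (finrank_mul_finrank K E F).symm⟩
    · have hxE : (x : F) ∈ E := IntermediateField.mem_adjoin_simple_self K (x : F)
      set y : E := ⟨(x : F), hxE⟩ with hy
      have hy0 : y ≠ 0 := by
        intro h
        have : (x : F) = 0 := congrArg Subtype.val h
        exact x.ne_zero this
      have h1 := unit_pow_card E (Units.mk0 y hy0)
      have h2 : Nat.card E = Nat.card K ^ finrank K E :=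
        Module.natCard_eq_pow_finrank (K := K)
      rw [h2] at h1
      have h3 : y ^ (Nat.card K ^ finrank K E - 1) = 1 := by
        have := congrArg Units.val h1
        simpa using this
      have h4 := congrArg (fun z : E => (z : F)) h3
      ext
      simpa [hy] using h4
  · left
    have htop : E = ⊤ := by
      apply IntermediateField.eq_of_le_of_finrank_le le_top
      rw [IntermediateField.finrank_top']
      exact hge
    have hint : IsAlgebraic K (x : F) := Algebra.IsAlgebraic.isAlgebraic _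
    rw [← IntermediateField.adjoin_simple_toSubalgebra_of_isAlgebraic hint, ← hE, htop,
      IntermediateField.top_toSubalgebra]

end aux

/-- a prime dividing `q ^ b - 1` only for the multiples `b` of `a`. -/
lemma prim_dvd_iff (q a r : ℕ) (hq : 1 ≤ q) (ha : 0 < a) (h1 : r ∣ q ^ a - 1)
    (h2 : ∀ b, 0 < b → b < a → ¬ r ∣ q ^ b - 1) (b : ℕ) : r ∣ q ^ b - 1 ↔ a ∣ b := by
  have key : ∀ c : ℕ, r ∣ q ^ c - 1 ↔ (q : ZMod r) ^ c = 1 := by
    intro c
    have h1 : 1 ≤ q ^ c := Nat.one_le_pow _ _ hq
    rw [← ZMod.natCast_eq_zero_iff, Nat.cast_sub h1, sub_eq_zero]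
    push_cast
    rfl
  have ho : orderOf (q : ZMod r) = a := by
    rw [orderOf_eq_iff ha]
    refine ⟨(key a).mp h1, fun m hm hm0 h => h2 m hm0 hm ((key m).mpr h)⟩
  rw [key, ← ho, orderOf_dvd_iff_pow_eq_one]

/-- the primitive prime case. -/
lemma rgroup_prim (K : Type) [Field K] [Finite K] (F : Type) [Field F] [Algebra K F]
    [FiniteDimensional K F] (ha : 2 ≤ finrank K F) (r : ℕ) (hr : r.Prime)
    (h1 : r ∣ Nat.card K ^ finrank K F - 1)
    (h2 : ∀ b, 0 < b → b < finrank K F → ¬ r ∣ Nat.card K ^ b - 1) :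
    ∃ (r c : ℕ) (R : Subgroup Fˣ), r.Prime ∧ ¬ r ∣ Nat.card K ∧ IsPGroup r R ∧
      (∀ x ∈ R, Algebra.norm K (x : F) = 1) ∧
      (∀ A : Subgroup Fˣ, A ≤ R → c < Nat.card A →
        ∃ x ∈ A, Algebra.adjoin K {(x : F)} = ⊤) ∧
      (∀ N, N < 2 * finrank K F → ∀ k,
        r ^ k ∣ ∏ i ∈ Finset.range N, (Nat.card K ^ N - Nat.card K ^ i) →
        c * r ^ k < Nat.card R * Nat.card R) := by
  set q := Nat.card K with hqdef
  set a := finrank K F with hadef
  have hq2 : 2 ≤ q := Finite.one_lt_card
  have hfin : Finite F := Module.finite_of_finite K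
  have hfact : Fact r.Prime := ⟨hr⟩
  have hiff := prim_dvd_iff q a r (by omega) (by omega) h1 h2
  let P : Sylow r Fˣ := default
  have hcard : Nat.card P = r ^ (q ^ a - 1).factorization r := by
    rw [Sylow.card_eq_multiplicity P, card_units_pow K F]
  set v := (q ^ a - 1).factorization r with hv
  have hqa : q ^ a - 1 ≠ 0 := by
    have : 1 < q ^ a := Nat.one_lt_pow (by omega) (by omega)
    omega
  have hv1 : 1 ≤ v := (hr.dvd_iff_one_le_factorization hqa).mp h1
  have hrq : ¬ r ∣ q := by
    intro hd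
    have h3 : r ∣ q ^ a := dvd_pow hd (by omega)
    have h4 := Nat.dvd_sub h3 h1
    have h5 : 1 < q ^ a := Nat.one_lt_pow (by omega) (by omega)
    rw [show q ^ a - (q ^ a - 1) = 1 by omega] at h4
    exact hr.one_lt.ne' (Nat.dvd_one.mp h4)
  have hpow : ∀ x ∈ (P : Subgroup Fˣ), x ^ (r ^ v) = 1 := by
    intro x hx
    have : (⟨x, hx⟩ : (P : Subgroup Fˣ)) ^ (Nat.card P) = 1 := pow_card_eq_one'
    rw [hcard] at this
    have := congrArg Subtype.val this
    simpa using this
  refine ⟨r, 1, P, hr, hrq, P.isPGroup', ?_, ?_, ?_⟩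
  · intro x hx
    have e1 : (Units.map (Algebra.norm K (S := F)) x) ^ (r ^ v) = 1 := by
      rw [← map_pow, hpow x hx, map_one]
    have e2 : (Units.map (Algebra.norm K (S := F)) x) ^ (q - 1) = 1 := norm_pow_card x
    have hcop : Nat.Coprime (r ^ v) (q - 1) := by
      apply Nat.Coprime.pow_left
      rw [hr.coprime_iff_not_dvd]
      have := h2 1 (by omega) (by omega)
      simpa using this
    have e3 : (Units.map (Algebra.norm K (S := F)) x) ^ (Nat.gcd (r ^ v) (q - 1)) = 1 :=
      pow_gcd_eq_one.mpr ⟨e1, e2⟩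
    rw [hcop, pow_one] at e3
    have := congrArg Units.val e3
    simpa using this
  · intro A hAP hA
    have : Nontrivial A := by
      rw [← Finite.one_lt_card_iff_nontrivial]
      exact hA
    obtain ⟨x, hx, hx1⟩ := (Subgroup.nontrivial_iff_exists_ne_one A).mp this
    refine ⟨x, hx, ?_⟩
    rcases adjoin_top_or (K := K) x with htop | ⟨b, hb0, hba, -, hb⟩
    · exact htop
    · exfalso
      apply hx1
      have hcop : Nat.Coprime (r ^ v) (q ^ b - 1) := by
        apply Nat.Coprime.pow_left
        rw [hr.coprime_iff_not_dvd]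
        exact h2 b hb0 hba
      have e3 : x ^ (Nat.gcd (r ^ v) (q ^ b - 1)) = 1 :=
        pow_gcd_eq_one.mpr ⟨hpow x (hAP hx), hb⟩
      rwa [hcop, pow_one] at e3
  · intro N hN k hk
    have hne : ∀ i ∈ Finset.range N, q ^ N - q ^ i ≠ 0 := by
      intro i hi
      have : q ^ i < q ^ N := Nat.pow_lt_pow_right (by omega) (Finset.mem_range.mp hi)
      omega
    have hprod : ∏ i ∈ Finset.range N, (q ^ N - q ^ i) ≠ 0 :=
      Finset.prod_ne_zero_iff.mpr hne
    have hk1 : k ≤ (∏ i ∈ Finset.range N, (q ^ N - q ^ i)).factorization r :=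
      (hr.pow_dvd_iff_le_factorization hprod).mp hk
    have hterm : ∀ i ∈ Finset.range N, (q ^ N - q ^ i).factorization r =
        if N - i = a then v else 0 := by
      intro i hi
      have hiN := Finset.mem_range.mp hi
      have hsplit : q ^ N - q ^ i = q ^ i * (q ^ (N - i) - 1) := by
        rw [Nat.mul_sub, mul_one, ← pow_add]
        congr 2
        omega
      have hne2 : q ^ (N - i) - 1 ≠ 0 := by
        have : 1 < q ^ (N - i) := Nat.one_lt_pow (by omega) (by omega)
        omega
      rw [hsplit, Nat.factorization_mul (by positivity) hne2]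
      have hz : (q ^ i).factorization r = 0 := by
        rw [Nat.factorization_pow]
        simp [Nat.factorization_eq_zero_of_not_dvd hrq]
      simp only [Finsupp.coe_add, Pi.add_apply, hz, zero_add]
      split_ifs with hNi
      · rw [hNi]
      · apply Nat.factorization_eq_zero_of_not_dvd
        rw [hiff]
        rintro ⟨c, hc⟩
        have hc0 : c ≠ 0 := by rintro rfl; omega
        have hc1 : c ≠ 1 := by rintro rfl; omega
        have : 2 ≤ c := by omega
        have : a * 2 ≤ a * c := Nat.mul_le_mul_left _ this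
        omega
    have hk2 : k ≤ v := by
      refine le_trans hk1 ?_
      rw [Nat.factorization_prod hne, Finsupp.coe_finsetSum, Finset.sum_apply,
        Finset.sum_congr rfl hterm]
      by_cases haN : a ≤ N
      · rw [Finset.sum_eq_single (N - a)]
        · split_ifs
          · exact le_rfl
          · exact Nat.zero_le _
        · intro i hi hia
          have hiN := Finset.mem_range.mp hi
          rw [if_neg (by omega)]
        · intro hni
          rw [if_neg]
          intro h
          apply hni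
          rw [Finset.mem_range]
          omega
      · rw [Finset.sum_eq_zero]
        · exact Nat.zero_le _
        · intro i hi
          rw [if_neg (by omega)]
    have hcard' : Nat.card (P : Subgroup Fˣ) = r ^ v := hcard
    rw [hcard', one_mul, ← pow_add]
    exact Nat.pow_lt_pow_right hr.one_lt (by omega)

/-- the case `q + 1 = 2 ^ s`. -/
lemma rgroup_two (K : Type) [Field K] [Finite K] (F : Type) [Field F] [Algebra K F]
    [FiniteDimensional K F] (ha : finrank K F = 2) (s : ℕ) (hs : 5 ≤ s)
    (hq : Nat.card K + 1 = 2 ^ s) :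
    ∃ (r c : ℕ) (R : Subgroup Fˣ), r.Prime ∧ ¬ r ∣ Nat.card K ∧ IsPGroup r R ∧
      (∀ x ∈ R, Algebra.norm K (x : F) = 1) ∧
      (∀ A : Subgroup Fˣ, A ≤ R → c < Nat.card A →
        ∃ x ∈ A, Algebra.adjoin K {(x : F)} = ⊤) ∧
      (∀ N, N < 2 * finrank K F → ∀ k,
        r ^ k ∣ ∏ i ∈ Finset.range N, (Nat.card K ^ N - Nat.card K ^ i) →
        c * r ^ k < Nat.card R * Nat.card R) := by
  set q := Nat.card K with hqdef
  have hfin : Finite F := Module.finite_of_finite K
  have hq31 : 31 ≤ q := by
    have : 2 ^ 5 ≤ 2 ^ s := Nat.pow_le_pow_right (by norm_num) hs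
    omega
  obtain ⟨w, hw⟩ : ∃ w, 2 ^ s = 4 * w := by
    obtain ⟨s', rfl⟩ : ∃ s', s = s' + 2 := ⟨s - 2, by omega⟩
    exact ⟨2 ^ s', by ring⟩
  have hqw : q = 4 * w - 1 := by omega
  have hFcard : Nat.card Fˣ = q ^ 2 - 1 := by
    rw [card_units_pow K F, ha]
  have hfac : q ^ 2 - 1 = (q + 1) * (q - 1) := by
    obtain ⟨z, hz⟩ : ∃ z, q = z + 1 := ⟨q - 1, by omega⟩
    rw [hz]
    have e1 : (z + 1) ^ 2 = (z + 1 + 1) * z + 1 := by ring
    rw [e1]
    simp
  set R : Subgroup Fˣ := (powMonoidHom (q + 1) : Fˣ →* Fˣ).ker with hR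
  have hRcard : Nat.card R = 2 ^ s := by
    rw [hR, IsCyclic.card_powMonoidHom_ker, hFcard, hfac, ← hq]
    exact Nat.gcd_mul_right_left (q - 1) (q + 1)
  have hmemR : ∀ x : Fˣ, x ∈ R ↔ x ^ (q + 1) = 1 := by
    intro x
    rw [hR, MonoidHom.mem_ker, powMonoidHom_apply]
  have hinj := (algebraMap K F).injective
  have hnorm : ∀ x : F, algebraMap K F (Algebra.norm K x) = x ^ (q + 1) := by
    intro x
    rw [FiniteField.algebraMap_norm_eq_pow, Module.natCard_eq_pow_finrank (K := K), ha]
    congr 1
    rw [← hqdef, hfac]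
    exact Nat.mul_div_cancel _ (by omega)
  refine ⟨2, 2, R, Nat.prime_two, ?_, ?_, ?_, ?_, ?_⟩
  · omega
  · exact IsPGroup.of_card hRcard
  · intro x hx
    apply hinj
    rw [hnorm, map_one]
    have := congrArg Units.val ((hmemR x).mp hx)
    simpa using this
  · intro A hAR hA
    by_contra hcon
    push Not at hcon
    have hsq : ∀ x ∈ A, x ^ 2 = 1 := by
      intro x hx
      rcases adjoin_top_or (K := K) x with htop | ⟨b, hb0, hb2, -, hb⟩
      · exact absurd htop (hcon x hx)
      · have hb1 : b = 1 := by omega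
        rw [hb1, pow_one] at hb
        have e3 : x ^ (Nat.gcd (q + 1) (q - 1)) = 1 :=
          pow_gcd_eq_one.mpr ⟨(hmemR x).mp (hAR hx), hb⟩
        have hg : Nat.gcd (q + 1) (q - 1) ∣ 2 := by
          have h1 : Nat.gcd (q + 1) (q - 1) ∣ q + 1 := Nat.gcd_dvd_left _ _
          have h2 : Nat.gcd (q + 1) (q - 1) ∣ q - 1 := Nat.gcd_dvd_right _ _
          have h3 := Nat.dvd_sub h1 h2
          rwa [show q + 1 - (q - 1) = 2 by omega] at h3
        obtain ⟨c, hc⟩ := hg
        rw [hc, pow_mul, e3, one_pow]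
    have hsub : A ≤ (powMonoidHom 2 : Fˣ →* Fˣ).ker := by
      intro x hx
      rw [MonoidHom.mem_ker, powMonoidHom_apply]
      exact hsq x hx
    have hle : Nat.card A ≤ Nat.card (powMonoidHom 2 : Fˣ →* Fˣ).ker :=
      Subgroup.card_le_of_le hsub
    rw [IsCyclic.card_powMonoidHom_ker] at hle
    have : (Nat.card Fˣ).gcd 2 ≤ 2 := Nat.gcd_le_right _ (by norm_num)
    omega
  · intro N hN k hk
    rw [ha] at hN
    have hk' : k ≤ s + 3 := by
      obtain ⟨u, hu⟩ : ∃ u, q = 2 * u + 1 := ⟨2 * w - 1, by omega⟩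
      have huodd : Odd u := ⟨w - 1, by omega⟩
      have hqodd : Odd q := ⟨u, hu⟩
      have hS : 2 ^ s = 2 * u + 2 := by omega
      have h3odd : Odd (q ^ 2 + q + 1) := by
        have h2 : Even (q ^ 2 + q) := by
          rw [pow_two]
          have := Nat.even_mul_succ_self q
          rwa [Nat.mul_succ] at this
        exact h2.add_one
      have key : ∀ m o : ℕ, Odd o → 2 ^ k ∣ 2 ^ m * o → k ≤ m := by
        intro m o ho hd
        have hc : Nat.Coprime (2 ^ k) o := Nat.Coprime.pow_left k ho.coprime_two_left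
        have := hc.dvd_of_dvd_mul_right hd
        exact (Nat.pow_dvd_pow_iff_le_right (by norm_num)).mp this
      have hcases : N = 0 ∨ N = 1 ∨ N = 2 ∨ N = 3 := by omega
      rcases hcases with rfl | rfl | rfl | rfl
      · have := key 0 1 odd_one (by simpa using hk)
        omega
      · have e : ∏ i ∈ Finset.range 1, (q ^ 1 - q ^ i) = 2 ^ 1 * u := by
          rw [Finset.prod_range_one, pow_one, pow_zero, hu]
          omega
        rw [e] at hk
        have := key 1 u huodd hk
        omega
      · have e : ∏ i ∈ Finset.range 2, (q ^ 2 - q ^ i) = 2 ^ (s + 2) * (u * (q * u)) := by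
          rw [Finset.prod_range_succ, Finset.prod_range_one, pow_add, hS]
          have e0 : q ^ 2 - q ^ 0 = (2 * u + 2) * (2 * u) := by
            apply Nat.sub_eq_of_eq_add
            rw [hu]; ring
          have e1 : q ^ 2 - q ^ 1 = q * (2 * u) := by
            apply Nat.sub_eq_of_eq_add
            rw [hu]; ring
          rw [e0, e1]; ring
        rw [e] at hk
        have := key (s + 2) _ (huodd.mul (hqodd.mul huodd)) hk
        omega
      · have e : ∏ i ∈ Finset.range 3, (q ^ 3 - q ^ i) =
            2 ^ (s + 3) * (u * (q ^ 2 + q + 1) * (q * u * (q ^ 2 * u))) := by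
          rw [Finset.prod_range_succ, Finset.prod_range_succ, Finset.prod_range_one, pow_add, hS]
          have e0 : q ^ 3 - q ^ 0 = 2 * u * (q ^ 2 + q + 1) := by
            apply Nat.sub_eq_of_eq_add
            rw [hu]; ring
          have e1 : q ^ 3 - q ^ 1 = q * ((2 * u + 2) * (2 * u)) := by
            apply Nat.sub_eq_of_eq_add
            rw [hu]; ring
          have e2 : q ^ 3 - q ^ 2 = q ^ 2 * (2 * u) := by
            apply Nat.sub_eq_of_eq_add
            rw [hu]; ring
          rw [e0, e1, e2]; ring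
        rw [e] at hk
        exact key (s + 3) _ ((huodd.mul h3odd).mul ((hqodd.mul huodd).mul
          ((hqodd.pow).mul huodd))) hk
    rw [hRcard, ← pow_add, mul_comm, ← pow_succ]
    exact Nat.pow_lt_pow_right (by norm_num) (by omega)

/-- (Z2) the `r`-group `R` of norm one elements used in the linking step. -/
theorem exists_rgroup (K : Type) [Field K] [Finite K] (F : Type) [Field F] [Algebra K F]
    [FiniteDimensional K F] (ha : 2 ≤ finrank K F) (hq : 31 ≤ Nat.card K) :
    ∃ (r c : ℕ) (R : Subgroup Fˣ), r.Prime ∧ ¬ r ∣ Nat.card K ∧ IsPGroup r R ∧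
      (∀ x ∈ R, Algebra.norm K (x : F) = 1) ∧
      (∀ A : Subgroup Fˣ, A ≤ R → c < Nat.card A →
        ∃ x ∈ A, Algebra.adjoin K {(x : F)} = ⊤) ∧
      (∀ N, N < 2 * finrank K F → ∀ k,
        r ^ k ∣ ∏ i ∈ Finset.range N, (Nat.card K ^ N - Nat.card K ^ i) →
        c * r ^ k < Nat.card R * Nat.card R) := by
  rcases Nat.lt_or_ge (finrank K F) 3 with ha3 | ha3
  · have ha2 : finrank K F = 2 := by omega
    by_cases hodd : ∃ r, r.Prime ∧ r ∣ Nat.card K + 1 ∧ r ≠ 2
    · obtain ⟨r, hr, hrq, hr2⟩ := hodd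
      apply rgroup_prim K F ha r hr
      · rw [ha2]
        have hfac : Nat.card K ^ 2 - 1 = (Nat.card K + 1) * (Nat.card K - 1) := by
          obtain ⟨z, hz⟩ : ∃ z, Nat.card K = z + 1 := ⟨Nat.card K - 1, by omega⟩
          rw [hz]
          have e1 : (z + 1) ^ 2 = (z + 1 + 1) * z + 1 := by ring
          rw [e1]
          simp
        rw [hfac]
        exact Dvd.dvd.mul_right hrq _
      · intro b hb0 hb2 hdvd
        have hb1 : b = 1 := by omega
        rw [hb1, pow_one] at hdvd
        have h3 := Nat.dvd_sub hrq hdvd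
        rw [show Nat.card K + 1 - (Nat.card K - 1) = 2 by omega] at h3
        exact hr2 ((Nat.prime_dvd_prime_iff_eq hr Nat.prime_two).mp h3)
    · push Not at hodd
      have hpow : Nat.card K + 1 = 2 ^ (Nat.card K + 1).primeFactorsList.length :=
        Nat.eq_prime_pow_of_unique_prime_dvd (by omega) (fun {d} hd hdv => hodd d hd hdv)
      set s := (Nat.card K + 1).primeFactorsList.length with hs
      apply rgroup_two K F ha2 s _ hpow
      by_contra hlt
      have : 2 ^ s ≤ 2 ^ 4 := Nat.pow_le_pow_right (by norm_num) (by omega)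
      omega
  · obtain ⟨r, hr, h1, h2⟩ := zsig (Nat.card K) (finrank K F) ha3 (by omega)
    exact rgroup_prim K F ha r hr h1 h2

end Pool.Agent.H10.Pro
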