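import Pool.Agent.H10.Pro.Defs

/-!
# A Sylow argument
-/

namespace Pool.Agent.H10.Pro

/-- (S) a Sylow argument in an abstract finite group. -/
theorem sylow_meet {G : Type*} [Group G] [Finite G] {r : ℕ} (hr : r.Prime) (A B : Subgroup G)
    (hA : IsPGroup r A) (hB : IsPGroup r B) (c : ℕ)
    (h : ∀ S : Subgroup G, S ≤ A ⊔ B → IsPGroup r S →
      c * Nat.card S < Nat.card A * Nat.card B) :
    ∃ x ∈ A ⊔ B, c < Nat.card ↥(A ⊓ conjSub x B) := by
  haveI := Fact.mk hr
  set M := A ⊔ B with hM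
  have hAM : A ≤ M := le_sup_left
  have hBM : B ≤ M := le_sup_right
  have hA' : IsPGroup r (A.subgroupOf M) :=
    hA.of_equiv (Subgroup.subgroupOfEquivOfLe hAM).symm
  have hB' : IsPGroup r (B.subgroupOf M) :=
    hB.of_equiv (Subgroup.subgroupOfEquivOfLe hBM).symm
  obtain ⟨P, hP⟩ := hA'.exists_le_sylow
  obtain ⟨Q, hQ⟩ := hB'.exists_le_sylow
  obtain ⟨x, hx⟩ := MulAction.exists_smul_eq M Q P
  have hPle : (P : Subgroup M).map M.subtype ≤ M := by
    rintro _ ⟨y, -, rfl⟩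
    exact y.2
  have hPp : IsPGroup r ((P : Subgroup M).map M.subtype) := P.2.map _
  have h1 := h _ hPle hPp
  have hAP : A ≤ (P : Subgroup M).map M.subtype := by
    intro y hy
    exact ⟨⟨y, hAM hy⟩, hP (Subgroup.mem_subgroupOf.2 hy), rfl⟩
  have hBP : conjSub (x : G) B ≤ (P : Subgroup M).map M.subtype := by
    intro y hy
    rw [mem_conjSub] at hy
    have h2 : (⟨(x : G)⁻¹ * y * x, hBM hy⟩ : M) ∈ (Q : Subgroup M) :=
      hQ (Subgroup.mem_subgroupOf.2 hy)
    have hyM : y ∈ M := by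
      have h3 : (x : G) * ((x : G)⁻¹ * y * x) * (x : G)⁻¹ ∈ M :=
        M.mul_mem (M.mul_mem x.2 (hBM hy)) (M.inv_mem x.2)
      have h4 : (x : G) * ((x : G)⁻¹ * y * x) * (x : G)⁻¹ = y := by group
      rwa [h4] at h3
    refine ⟨⟨y, hyM⟩, ?_, rfl⟩
    rw [← hx]
    change (⟨y, hyM⟩ : M) ∈ ((x • Q : Sylow r M) : Subgroup M)
    rw [Sylow.smul_def, Sylow.pointwise_smul_def, Subgroup.mem_pointwise_smul_iff_inv_smul_mem]
    convert h2 using 1
    apply Subtype.ext
    simp [MulAut.smul_def]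
  refine ⟨x, x.2, ?_⟩
  set S := (P : Subgroup M).map M.subtype with hS
  set B₁ := conjSub (x : G) B with hB₁
  have hcB : Nat.card B₁ = Nat.card B := by
    rw [hB₁]
    unfold conjSub
    exact (Nat.card_congr (B.equivMapOfInjective _ (MulAut.conj (x : G)).injective).toEquiv).symm
  have h2 : Nat.card A = Nat.card ↥(A ⊓ B₁) * B₁.relIndex A := by
    have h3 := Subgroup.relIndex_mul_relIndex (⊥ : Subgroup G) (A ⊓ B₁) A bot_le inf_le_left
    rw [Subgroup.relIndex_bot_left, Subgroup.relIndex_bot_left, inf_comm,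
      Subgroup.inf_relIndex_right, inf_comm] at h3
    exact h3.symm
  have h3 : Nat.card S = Nat.card B₁ * B₁.relIndex S := by
    have h4 := Subgroup.relIndex_mul_relIndex (⊥ : Subgroup G) B₁ S bot_le hBP
    rw [Subgroup.relIndex_bot_left, Subgroup.relIndex_bot_left] at h4
    exact h4.symm
  have h4 : B₁.relIndex A ≤ B₁.relIndex S := by
    apply Subgroup.relIndex_le_of_le_right hAP
    intro h5
    rw [h5, mul_zero] at h3
    exact Nat.card_pos.ne' h3
  have h5 : Nat.card A * Nat.card B ≤ Nat.card ↥(A ⊓ B₁) * Nat.card S := by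
    rw [h2, h3, hcB]
    calc Nat.card ↥(A ⊓ B₁) * B₁.relIndex A * Nat.card B ≤
        Nat.card ↥(A ⊓ B₁) * B₁.relIndex S * Nat.card B := by gcongr
      _ = Nat.card ↥(A ⊓ B₁) * (Nat.card B * B₁.relIndex S) := by ring
  have h6 : c * Nat.card S < Nat.card ↥(A ⊓ B₁) * Nat.card S := lt_of_lt_of_le h1 h5
  exact lt_of_mul_lt_mul_right h6 (Nat.zero_le _)

end Pool.Agent.H10.Pro
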