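import Pool.Agent.H10.Pro.Base
import Pool.Agent.H10.Pro.RGroup
import Pool.Agent.H10.Pro.SylMeet

/-!
# The linking step
-/

namespace Pool.Agent.H10.Pro

set_option linter.unusedSectionVars false
set_option linter.unusedDecidableInType false

open Module

section link

variable {K : Type} [Field K] [Finite K] {ι : Type} [Fintype ι] [DecidableEq ι] {L : ι → Type}
  [∀ i, Field (L i)] [∀ i, Algebra K (L i)] [∀ i, FiniteDimensional K (L i)]
  {V : Type} [AddCommGroup V] [Module K V]

/-- The `j`-th coordinate subspace. -/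
def Vj (e : V ≃ₗ[K] (∀ i, L i)) (j : ι) : Submodule K V where
  carrier := {u | ∀ i, i ≠ j → e u i = 0}
  add_mem' := by
    intro a b ha hb i hi
    simp [ha i hi, hb i hi]
  zero_mem' := by intro i _; simp
  smul_mem' := by
    intro c a ha i hi
    simp [ha i hi]

lemma mem_Vj {e : V ≃ₗ[K] (∀ i, L i)} {j : ι} {u : V} :
    u ∈ Vj e j ↔ ∀ i, i ≠ j → e u i = 0 := Iff.rfl

/-- Multiplication by `s` in the `j`-th coordinate, zero elsewhere. -/
def mj (e : V ≃ₗ[K] (∀ i, L i)) (j : ι) (s : L j) : V →ₗ[K] V :=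
  e.symm.toLinearMap ∘ₗ (LinearMap.single K L j) ∘ₗ (LinearMap.mulLeft K s) ∘ₗ
    (LinearMap.proj j) ∘ₗ e.toLinearMap

lemma mj_apply (e : V ≃ₗ[K] (∀ i, L i)) (j : ι) (s : L j) (v : V) :
    e (mj e j s v) = Pi.single j (s * e v j) := by
  simp [mj]

lemma mj_same (e : V ≃ₗ[K] (∀ i, L i)) (j : ι) (s : L j) (v : V) :
    e (mj e j s v) j = s * e v j := by
  rw [mj_apply, Pi.single_eq_same]

lemma mj_mem (e : V ≃ₗ[K] (∀ i, L i)) (j : ι) (s : L j) (v : V) : mj e j s v ∈ Vj e j := by
  intro i hi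
  rw [mj_apply, Pi.single_eq_of_ne hi]

lemma ext_Vj {e : V ≃ₗ[K] (∀ i, L i)} {j : ι} {u w : V} (hu : u ∈ Vj e j) (hw : w ∈ Vj e j)
    (h : e u j = e w j) : u = w := by
  apply e.injective
  funext i
  by_cases hi : i = j
  · subst hi; exact h
  · rw [hu i hi, hw i hi]

lemma mj_mul (e : V ≃ₗ[K] (∀ i, L i)) (j : ι) (s t : L j) (v : V) :
    mj e j (s * t) v = mj e j s (mj e j t v) := by
  apply ext_Vj (mj_mem e j _ v) (mj_mem e j _ _)
  rw [mj_same, mj_same, mj_same, mul_assoc]

lemma mj_add (e : V ≃ₗ[K] (∀ i, L i)) (j : ι) (s t : L j) (v : V) :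
    mj e j (s + t) v = mj e j s v + mj e j t v := by
  apply ext_Vj (mj_mem e j _ v) ((Vj e j).add_mem (mj_mem e j _ _) (mj_mem e j _ _))
  rw [map_add, Pi.add_apply, mj_same, mj_same, mj_same, add_mul]

lemma mj_algebraMap {e : V ≃ₗ[K] (∀ i, L i)} {j : ι} (c : K) {u : V} (hu : u ∈ Vj e j) :
    mj e j (algebraMap K (L j) c) u = c • u := by
  apply ext_Vj (mj_mem e j _ u) ((Vj e j).smul_mem c hu)
  rw [mj_same, map_smul, Pi.smul_apply, Algebra.smul_def]

lemma tor_single_same (e : V ≃ₗ[K] (∀ i, L i)) (j : ι) (s : (L j)ˣ) (v : V) :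
    e (tor e (Pi.mulSingle j s) v) j = s * e v j := by
  rw [tor_apply, Pi.mulSingle_eq_same]

lemma tor_single_ne (e : V ≃ₗ[K] (∀ i, L i)) (j : ι) (s : (L j)ˣ) (v : V) (i : ι) (hi : i ≠ j) :
    e (tor e (Pi.mulSingle j s) v) i = e v i := by
  rw [tor_apply, Pi.mulSingle_eq_of_ne hi, Units.val_one, one_mul]

lemma tor_single_mem {e : V ≃ₗ[K] (∀ i, L i)} {j : ι} (s : (L j)ˣ) {u : V} (hu : u ∈ Vj e j) :
    tor e (Pi.mulSingle j s) u ∈ Vj e j := by
  intro i hi
  rw [tor_single_ne e j s u i hi, hu i hi]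

lemma tor_single_eq {e : V ≃ₗ[K] (∀ i, L i)} {j : ι} (s : (L j)ˣ) {u : V} (hu : u ∈ Vj e j) :
    tor e (Pi.mulSingle j s) u = mj e j (s : L j) u := by
  apply ext_Vj (tor_single_mem s hu) (mj_mem e j _ u)
  rw [tor_single_same, mj_same]

lemma tor_sub_mem (e : V ≃ₗ[K] (∀ i, L i)) (j : ι) (s : (L j)ˣ) (v : V) :
    tor e (Pi.mulSingle j s) v - v ∈ Vj e j := by
  intro i hi
  rw [map_sub, Pi.sub_apply, tor_single_ne e j s v i hi, sub_self]

/-- Every element of `Vj` is `(tor e s - 1) w` if `s ≠ 1`. -/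
lemma exists_sub_eq {e : V ≃ₗ[K] (∀ i, L i)} {j : ι} {s : (L j)ˣ} (hs : s ≠ 1) {u : V}
    (hu : u ∈ Vj e j) : ∃ w, tor e (Pi.mulSingle j s) w - w = u := by
  have hs' : (s : L j) - 1 ≠ 0 := by
    rw [sub_ne_zero]
    intro h
    exact hs (Units.ext h)
  refine ⟨mj e j ((s : L j) - 1)⁻¹ u, ?_⟩
  have hw := mj_mem e j ((s : L j) - 1)⁻¹ u
  apply ext_Vj (tor_sub_mem e j s _) hu
  rw [map_sub, Pi.sub_apply, tor_single_same, mj_same]
  field_simp

lemma tor_injective_L (e : V ≃ₗ[K] (∀ i, L i)) : Function.Injective (tor e) := by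
  intro s t hst
  funext i
  apply Units.ext
  have h1 := congrArg (fun f : V ≃ₗ[K] V => e (f (e.symm 1)) i) hst
  simp only [tor_apply] at h1
  simpa using h1

lemma trans_tor (e : V ≃ₗ[K] (∀ i, L i)) (y : V ≃ₗ[K] V) (t : ∀ i, (L i)ˣ) (u : V) :
    tor (y.symm.trans e) t u = y (tor e t (y.symm u)) := by
  simp [tor, LinearEquiv.trans_apply]

lemma mem_Vj_trans (e : V ≃ₗ[K] (∀ i, L i)) (y : V ≃ₗ[K] V) (j : ι) (u : V) :
    u ∈ Vj (y.symm.trans e) j ↔ y.symm u ∈ Vj e j := Iff.rfl

/-- `SameAt` from the equality of the coordinate subspaces and one generating operator. -/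
lemma sameAt_of (e e' : V ≃ₗ[K] (∀ i, L i)) (j : ι) (y : V ≃ₗ[K] V)
    (hU : ∀ u, y.symm u ∈ Vj e j ↔ u ∈ Vj e' j) (s₀ s₁ : L j)
    (hadj : Algebra.adjoin K {s₀} = ⊤)
    (h0 : ∀ u ∈ Vj e' j, y (mj e j s₀ (y.symm u)) = mj e' j s₁ u) :
    SameAt (y.symm.trans e) e' j := by
  refine ⟨hU, ?_⟩
  let S : Subalgebra K (L j) :=
    { carrier := {s | ∃ s', ∀ u ∈ Vj e' j, y (mj e j s (y.symm u)) = mj e' j s' u}
      mul_mem' := by
        rintro s t ⟨s', hs⟩ ⟨t', ht⟩
        refine ⟨s' * t', fun u hu => ?_⟩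
        rw [mj_mul, mj_mul]
        have h1 := ht u hu
        have h2 := hs (mj e' j t' u) (mj_mem _ _ _ _)
        rw [← h2, ← h1, LinearEquiv.symm_apply_apply]
      add_mem' := by
        rintro s t ⟨s', hs⟩ ⟨t', ht⟩
        refine ⟨s' + t', fun u hu => ?_⟩
        rw [mj_add, mj_add, map_add, hs u hu, ht u hu]
      algebraMap_mem' := by
        intro c
        refine ⟨algebraMap K (L j) c, fun u hu => ?_⟩
        rw [mj_algebraMap c hu, mj_algebraMap c ((hU u).2 hu), map_smul,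
          LinearEquiv.apply_symm_apply] }
  have hS : S = ⊤ := by
    rw [eq_top_iff, ← hadj, Algebra.adjoin_le_iff, Set.singleton_subset_iff]
    exact ⟨s₁, h0⟩
  intro s
  have hs : (s : L j) ∈ S := by rw [hS]; trivial
  obtain ⟨s', hs'⟩ := hs
  have hne : s' ≠ 0 := by
    rintro rfl
    set u : V := e'.symm (Pi.single j 1) with hu
    have hu' : u ∈ Vj e' j := by
      intro i hi
      rw [hu, LinearEquiv.apply_symm_apply, Pi.single_eq_of_ne hi]
    have h1 := hs' u hu'
    have h2 : mj e' j 0 u = 0 := by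
      apply e'.injective
      rw [mj_apply, zero_mul, Pi.single_zero, map_zero]
    rw [h2, LinearEquiv.map_eq_zero_iff] at h1
    have h3 := mj_same e j (s : L j) (y.symm u)
    rw [h1, map_zero, Pi.zero_apply] at h3
    have h4 : e (y.symm u) j = 0 := by
      rcases mul_eq_zero.1 h3.symm with h | h
      · exact absurd h s.ne_zero
      · exact h
    have h5 : y.symm u = 0 := by
      apply ext_Vj ((hU u).2 hu') (Vj e j).zero_mem
      rw [h4, map_zero, Pi.zero_apply]
    rw [LinearEquiv.map_eq_zero_iff] at h5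
    have h6 : e' u j = 1 := by rw [hu, LinearEquiv.apply_symm_apply, Pi.single_eq_same]
    rw [h5, map_zero, Pi.zero_apply] at h6
    exact zero_ne_one h6
  refine ⟨Units.mk0 s' hne, fun u hu => ?_⟩
  have hu' : u ∈ Vj e' j := (hU u).1 hu
  rw [trans_tor, tor_single_eq _ hu', tor_single_eq _ ((hU u).2 hu'), hs' u hu', Units.val_mk0]

/-- The coordinate subspace is isomorphic to `L j`. -/
def VjEquiv (e : V ≃ₗ[K] (∀ i, L i)) (j : ι) : Vj e j ≃ₗ[K] L j where
  toFun u := e u j
  invFun x := ⟨e.symm (Pi.single j x), by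
    intro i hi
    rw [LinearEquiv.apply_symm_apply, Pi.single_eq_of_ne hi]⟩
  map_add' u w := by simp
  map_smul' c u := by simp
  left_inv u := by
    apply Subtype.ext
    apply e.injective
    funext i
    by_cases hi : i = j
    · subst hi; simp
    · simp only [LinearEquiv.apply_symm_apply]
      rw [Pi.single_eq_of_ne hi, u.2 i hi]
  right_inv x := by simp

lemma finrank_Vj (e : V ≃ₗ[K] (∀ i, L i)) (j : ι) : finrank K (Vj e j) = finrank K (L j) :=
  (VjEquiv e j).finrank_eq


lemma finite_V_L (e : V ≃ₗ[K] (∀ i, L i)) : Finite V := by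
  have : ∀ i, Finite (L i) := fun i => Module.finite_of_finite K
  exact Finite.of_equiv _ e.symm.toEquiv

lemma finite_GL_L (e : V ≃ₗ[K] (∀ i, L i)) : Finite (V ≃ₗ[K] V) := by
  have := finite_V_L e
  exact Finite.of_injective (fun f : V ≃ₗ[K] V => (f : V → V)) DFunLike.coe_injective

lemma tor_single_mem_T1 (e : V ≃ₗ[K] (∀ i, L i)) (j : ι) (s : (L j)ˣ)
    (hs : Algebra.norm K (s : L j) = 1) : tor e (Pi.mulSingle j s) ∈ T1 e := by
  refine Subgroup.mem_map_of_mem _ ?_
  rw [MonoidHom.mem_ker]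
  apply Units.ext
  simp only [NN, MonoidHom.coe_mk, OneHom.coe_mk, Units.coe_prod, Units.coe_map, Units.val_one]
  rw [Finset.prod_eq_single j]
  · rw [Pi.mulSingle_eq_same]
    exact hs
  · intro i _ hi
    rw [Pi.mulSingle_eq_of_ne hi]
    simp
  · intro h
    exact absurd (Finset.mem_univ j) h

omit [Finite K] in
/-- Powers of an element acting trivially on `X ⊇ (g - 1) V`. -/
lemma pow_apply_of_trivial {X : Submodule K V} {g : V ≃ₗ[K] V} (hX : ∀ v, g v - v ∈ X)
    (ht : ∀ x ∈ X, g x = x) (m : ℕ) (v : V) : (g ^ m) v = v + m • (g v - v) := by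
  induction m with
  | zero => simp
  | succ m ih =>
    rw [pow_succ', LinearEquiv.mul_apply, ih, map_add, map_nsmul, ht _ (hX v), succ_nsmul]
    abel

/-- An `r`-subgroup acting trivially on `V / X` has order dividing `|GL(X)|`. -/
lemma card_dvd_GL [Finite V] (S : Subgroup (V ≃ₗ[K] V)) (X : Submodule K V)
    (hX : ∀ g ∈ S, ∀ v, g v - v ∈ X) (r : ℕ) (hr : r.Prime) (hrq : ¬ r ∣ Nat.card K)
    (hS : IsPGroup r S) :
    Nat.card S ∣ ∏ i ∈ Finset.range (finrank K X),
      (Nat.card K ^ finrank K X - Nat.card K ^ i) := by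
  have : Module.Finite K V := Module.Finite.of_finite
  let _ : Fintype K := Fintype.ofFinite K
  have hstab : ∀ g : S, ∀ x ∈ X, (g : V ≃ₗ[K] V) x ∈ X := by
    intro g x hx
    have := X.add_mem (hX g g.2 x) hx
    simpa using this
  let ρ₀ : S →* Module.End K X :=
    { toFun := fun g => ((g : V ≃ₗ[K] V).toLinearMap).restrict (hstab g)
      map_one' := by ext x; simp
      map_mul' := by intro g g'; ext x; simp }
  have hρ₀ : ∀ (g : S) (x : X), ((ρ₀ g x : X) : V) = (g : V ≃ₗ[K] V) x := fun g x => rfl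
  let ρ₁ : S →* (Module.End K X)ˣ := ρ₀.toHomUnits
  let b := Module.finBasis K X
  let ρ₂ : (Module.End K X)ˣ →* GL (Fin (finrank K X)) K :=
    Units.map (LinearMap.toMatrixAlgEquiv b).toMulEquiv.toMonoidHom
  have hinj2 : Function.Injective ρ₂ :=
    Units.map_injective (LinearMap.toMatrixAlgEquiv b).injective
  have hinj1 : Function.Injective ρ₁ := by
    rw [injective_iff_map_eq_one]
    intro g hg
    have h1 : ρ₀ g = 1 := congrArg Units.val hg
    have ht : ∀ x ∈ X, (g : V ≃ₗ[K] V) x = x := by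
      intro x hx
      have h2 := hρ₀ g ⟨x, hx⟩
      rw [h1] at h2
      exact h2.symm
    obtain ⟨k, hk⟩ := hS g
    have hk' : ((g : V ≃ₗ[K] V)) ^ (r ^ k) = 1 := by
      have := congrArg Subtype.val hk
      simpa using this
    have hr0 : ((r ^ k : ℕ) : K) ≠ 0 := by
      intro h0
      have h0' : (r : K) = 0 := by
        rw [Nat.cast_pow] at h0
        have hk0 : k ≠ 0 := by
          rintro rfl
          rw [pow_zero] at h0
          exact one_ne_zero h0
        exact (pow_eq_zero_iff hk0).1 h0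
      have h3 : addOrderOf (1 : K) ∣ r := by
        rw [addOrderOf_dvd_iff_nsmul_eq_zero, nsmul_eq_mul, mul_one]
        exact h0'
      rcases (Nat.dvd_prime hr).1 h3 with h4 | h4
      · rw [AddMonoid.addOrderOf_eq_one_iff] at h4
        exact one_ne_zero h4
      · apply hrq
        rw [← h4]
        exact addOrderOf_dvd_natCard 1
    apply Subtype.ext
    apply LinearEquiv.ext
    intro v
    have h5 := pow_apply_of_trivial (hX g g.2) ht (r ^ k) v
    rw [hk'] at h5
    have h6 : ((r ^ k : ℕ) : K) • ((g : V ≃ₗ[K] V) v - v) = 0 := by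
      rw [Nat.cast_smul_eq_nsmul]
      have : (1 : V ≃ₗ[K] V) v = v := rfl
      rw [this] at h5
      simpa using h5.symm
    rcases smul_eq_zero.1 h6 with h7 | h7
    · exact absurd h7 hr0
    · exact sub_eq_zero.1 h7
  have h1 := Subgroup.card_dvd_of_injective (ρ₂.comp ρ₁) (hinj2.comp hinj1)
  rw [Matrix.card_GL_field] at h1
  rw [Finset.prod_range, Nat.card_eq_fintype_card (α := K)]
  exact h1

/-- The elements `g` with `(g - 1) V ≤ X` form a subgroup. -/
def nearX (X : Submodule K V) : Subgroup (V ≃ₗ[K] V) where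
  carrier := {g | ∀ v, g v - v ∈ X}
  mul_mem' := by
    intro a b ha hb v
    have h1 := X.add_mem (ha (b v)) (hb v)
    simpa using h1
  one_mem' := by
    intro v
    simp
  inv_mem' := by
    intro a ha v
    have h1 := X.neg_mem (ha (a⁻¹ v))
    have h2 : a (a⁻¹ v) = v := by
      rw [← LinearEquiv.mul_apply, mul_inv_cancel]
      rfl
    rw [h2, neg_sub] at h1
    exact h1

/-- The image `h A h⁻¹` of a group of units acting in the `j`-th coordinate. -/
noncomputable def phi (e : V ≃ₗ[K] (∀ i, L i)) (j : ι) : (L j)ˣ →* (V ≃ₗ[K] V) :=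
  (tor e).comp (MonoidHom.mulSingle (fun i => (L i)ˣ) j)

lemma phi_apply (e : V ≃ₗ[K] (∀ i, L i)) (j : ι) (s : (L j)ˣ) :
    phi e j s = tor e (Pi.mulSingle j s) := rfl

lemma phi_injective (e : V ≃ₗ[K] (∀ i, L i)) (j : ι) : Function.Injective (phi e j) := by
  intro s t hst
  exact Pi.mulSingle_injective j (tor_injective_L e hst)

lemma phi_conj_injective (e : V ≃ₗ[K] (∀ i, L i)) (j : ι) (h : V ≃ₗ[K] V) :
    Function.Injective ((MulAut.conj h).toMonoidHom.comp (phi e j)) := by
  intro s t hst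
  exact phi_injective e j ((MulAut.conj h).injective hst)

/-- (L) the linking step. -/
theorem link (e e' : V ≃ₗ[K] (∀ i, L i)) (H : Subgroup (V ≃ₗ[K] V)) (he : T1 e ≤ H)
    (he' : T1 e' ≤ H) (j : ι) (hq : 31 ≤ Nat.card K)
    (h : V ≃ₗ[K] V) (hh : h ∈ H) (v : V) (hv : supp e v = {j})
    (hv' : supp e' (h v) = {j}) :
    ∃ y ∈ H, SameAt (y.symm.trans e) e' j := by
  have hfV := finite_V_L e
  have hfG := finite_GL_L e
  have hFD : Module.Finite K V := Module.Finite.of_finite
  have hvV : v ∈ Vj e j := by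
    intro i hi
    by_contra h0
    have : i ∈ supp e v := mem_supp.2 h0
    rw [hv, Finset.mem_singleton] at this
    exact hi this
  have hvV' : h v ∈ Vj e' j := by
    intro i hi
    by_contra h0
    have : i ∈ supp e' (h v) := mem_supp.2 h0
    rw [hv', Finset.mem_singleton] at this
    exact hi this
  have hv0 : h v ≠ 0 := by
    intro h0
    have h1 : j ∈ supp e' (h v) := by rw [hv']; exact Finset.mem_singleton_self j
    rw [mem_supp, h0, map_zero] at h1
    exact h1 rfl
  set a := finrank K (L j) with ha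
  have ha1 : 1 ≤ a := Nat.one_le_iff_ne_zero.2 (Module.finrank_pos).ne'
  set U : Submodule K V := (Vj e j).map (h : V →ₗ[K] V) with hU
  set U' : Submodule K V := Vj e' j with hU'
  have hfU : finrank K U = a := by
    rw [hU, LinearEquiv.finrank_map_eq, finrank_Vj]
  have hfU' : finrank K U' = a := finrank_Vj e' j
  have hmemU : ∀ u, u ∈ U ↔ h.symm u ∈ Vj e j := by
    intro u
    rw [hU]
    constructor
    · rintro ⟨w, hw, rfl⟩
      simpa using hw
    · intro hu
      exact ⟨h.symm u, hu, by simp⟩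
  have hinf : U ⊓ U' ≠ ⊥ := by
    intro h0
    have h1 : h v ∈ U ⊓ U' := ⟨(hmemU _).2 (by simpa using hvV), hvV'⟩
    rw [h0, Submodule.mem_bot] at h1
    exact hv0 h1
  have hinf1 : 1 ≤ finrank K ↥(U ⊓ U') := Submodule.one_le_finrank_iff.2 hinf
  rcases ha1.eq_or_lt with ha1 | ha2
  · -- `a = 1`
    have hadj : Algebra.adjoin K {(1 : L j)} = ⊤ := by
      rw [eq_top_iff, ← Subalgebra.bot_eq_top_of_finrank_eq_one (F := K) (E := L j)
        (by rw [← ha, ← ha1])]
      exact bot_le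
    have h1 : U ⊓ U' = U := by
      apply Submodule.eq_of_le_of_finrank_le inf_le_left
      rw [hfU, ← ha1]
      exact hinf1
    have h2 : U ⊓ U' = U' := by
      apply Submodule.eq_of_le_of_finrank_le inf_le_right
      rw [hfU', ← ha1]
      exact hinf1
    have hUU : U = U' := h1.symm.trans h2
    refine ⟨h, hh, sameAt_of e e' j h ?_ 1 1 hadj ?_⟩
    · intro u
      rw [← hmemU, hUU]
    · intro u hu
      have h3 : h.symm u ∈ Vj e j := by
        rw [← hmemU, hUU]
        exact hu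
      have h4 := mj_algebraMap (1 : K) h3
      have h5 := mj_algebraMap (1 : K) hu
      rw [map_one, one_smul] at h4 h5
      rw [h4, h5, LinearEquiv.apply_symm_apply]
  · -- `a ≥ 2`
    obtain ⟨r, c, R, hr, hrq, hRp, hRn, hRa, hRc⟩ := exists_rgroup K (L j) ha2 hq
    set ψ := (MulAut.conj h).toMonoidHom.comp (phi e j) with hψ
    have hψi : Function.Injective ψ := phi_conj_injective e j h
    have hψa : ∀ s w, ψ s w = h (tor e (Pi.mulSingle j s) (h.symm w)) := fun s w => rfl
    set φ := phi e' j with hφ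
    have hφi : Function.Injective φ := phi_injective e' j
    have hcA : Nat.card (R.map ψ) = Nat.card R := Subgroup.card_map_of_injective hψi
    have hcB : Nat.card (R.map φ) = Nat.card R := Subgroup.card_map_of_injective hφi
    -- both groups lie in `H`
    have hAT : R.map ψ ≤ H := by
      rintro _ ⟨s, hs, rfl⟩
      have h1 : tor e (Pi.mulSingle j s) ∈ H :=
        he (tor_single_mem_T1 e j s (hRn s hs))
      exact H.mul_mem (H.mul_mem hh h1) (H.inv_mem hh)
    have hBT : R.map φ ≤ H := by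
      rintro _ ⟨s, hs, rfl⟩
      exact he' (tor_single_mem_T1 e' j s (hRn s hs))
    set X := U ⊔ U' with hX
    have hfX : finrank K X < 2 * a := by
      have := Submodule.finrank_sup_add_finrank_inf_eq U U'
      rw [hfU, hfU'] at this
      rw [hX]
      omega
    have hAX : R.map ψ ≤ nearX X := by
      rintro _ ⟨s, hs, rfl⟩ w
      have h1 := tor_sub_mem e j s (h.symm w)
      have h2 : ψ s w - w ∈ U := by
        rw [hmemU, hψa, map_sub, LinearEquiv.symm_apply_apply]
        exact h1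
      exact (le_sup_left : U ≤ X) h2
    have hBX : R.map φ ≤ nearX X := by
      rintro _ ⟨s, hs, rfl⟩ w
      exact (le_sup_right : U' ≤ X) (tor_sub_mem e' j s w)
    have hABX : R.map ψ ⊔ R.map φ ≤ nearX X := sup_le hAX hBX
    obtain ⟨x, hx, hxc⟩ := sylow_meet hr (R.map ψ) (R.map φ) (hRp.map ψ) (hRp.map φ) c (by
      intro S hS hSp
      have : Fact r.Prime := ⟨hr⟩
      obtain ⟨k, hk⟩ := (IsPGroup.iff_card.1 hSp)
      rw [hcA, hcB, hk]
      apply hRc (finrank K X) hfX k
      rw [← hk]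
      exact card_dvd_GL S X (fun g hg => hABX (hS hg)) r hr hrq hSp)
    have hxT : x ∈ H := (sup_le hAT hBT) hx
    -- the subgroup `A'` of `R`
    set A' : Subgroup (L j)ˣ := R ⊓ (conjSub x (R.map φ)).comap ψ with hA'
    have hA'map : A'.map ψ = R.map ψ ⊓ conjSub x (R.map φ) := by
      ext g
      constructor
      · rintro ⟨s, ⟨hs1, hs2⟩, rfl⟩
        exact ⟨⟨s, hs1, rfl⟩, hs2⟩
      · rintro ⟨⟨s, hs1, rfl⟩, hs2⟩
        exact ⟨s, ⟨hs1, hs2⟩, rfl⟩
    have hA'c : c < Nat.card A' := by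
      rw [← hA'map, Subgroup.card_map_of_injective hψi] at hxc
      exact hxc
    obtain ⟨s₀, hs₀, hadj⟩ := hRa A' inf_le_left hA'c
    obtain ⟨hs₀R, hs₀x⟩ := hs₀
    have hs₀x' : x⁻¹ * ψ s₀ * x ∈ R.map φ := mem_conjSub.1 hs₀x
    obtain ⟨s₁, hs₁R, hs₁⟩ := hs₀x'
    -- `ψ s₀ = x φ(s₁) x⁻¹`
    have hz : ψ s₀ = x * φ s₁ * x⁻¹ := by
      rw [hs₁]
      group
    have hs₀1 : s₀ ≠ 1 := by
      rintro rfl
      rw [Units.val_one] at hadj
      have h1 : (⊥ : Subalgebra K (L j)) = ⊤ := by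
        rw [eq_comm, eq_bot_iff, ← hadj, Algebra.adjoin_le_iff, Set.singleton_subset_iff]
        exact (⊥ : Subalgebra K (L j)).one_mem
      rw [Subalgebra.bot_eq_top_iff_finrank_eq_one] at h1
      omega
    have hs₁1 : s₁ ≠ 1 := by
      rintro rfl
      rw [map_one, mul_one, mul_inv_cancel] at hz
      exact hs₀1 (hψi (hz.trans (map_one ψ).symm))
    have hzw : ∀ w, ψ s₀ w = x (φ s₁ (x.symm w)) := by
      intro w
      rw [hz]
      rfl
    have hUx : ∀ u, h.symm u ∈ Vj e j ↔ x.symm u ∈ Vj e' j := by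
      intro u
      constructor
      · intro hu
        obtain ⟨w, hw⟩ := exists_sub_eq hs₀1 hu
        have h1 : u = ψ s₀ (h w) - h w := by
          rw [hψa, LinearEquiv.symm_apply_apply, ← map_sub, hw, LinearEquiv.apply_symm_apply]
        rw [h1, hzw, map_sub, LinearEquiv.symm_apply_apply]
        exact tor_sub_mem e' j s₁ _
      · intro hu
        obtain ⟨w, hw⟩ := exists_sub_eq hs₁1 hu
        have h1 : u = ψ s₀ (x w) - x w := by
          rw [hzw, LinearEquiv.symm_apply_apply, ← map_sub]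
          rw [hφ, phi_apply, hw, LinearEquiv.apply_symm_apply]
        rw [h1, hψa, map_sub, LinearEquiv.symm_apply_apply]
        exact tor_sub_mem e j s₀ _
    refine ⟨x⁻¹ * h, H.mul_mem (H.inv_mem hxT) hh,
      sameAt_of e e' j (x⁻¹ * h) ?_ (s₀ : L j) (s₁ : L j) hadj ?_⟩
    · intro u
      have h1 : (x⁻¹ * h).symm u = h.symm (x u) := rfl
      rw [h1, hUx, LinearEquiv.symm_apply_apply]
    · intro u hu
      have h1 : (x⁻¹ * h).symm u = h.symm (x u) := rfl
      have h2 : h.symm (x u) ∈ Vj e j := by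
        rw [hUx, LinearEquiv.symm_apply_apply]
        exact hu
      rw [h1, ← tor_single_eq s₀ h2, ← tor_single_eq s₁ hu]
      have h3 : (x⁻¹ * h) (tor e (Pi.mulSingle j s₀) (h.symm (x u))) = x.symm (ψ s₀ (x u)) := rfl
      rw [h3, hzw, LinearEquiv.symm_apply_apply, LinearEquiv.symm_apply_apply]
      rfl

end link

end Pool.Agent.H10.Pro
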