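import Pool.Agent.H10.Pro.Num
import Pool.Agent.H10.Pro.Base

/-!
# (A) the counting step
-/

namespace Pool.Agent.H10.Pro

set_option linter.unusedSectionVars false
set_option linter.unusedDecidableInType false

open Module

namespace StepA

variable {K : Type} [Field K] [Finite K] {ι : Type} [Fintype ι] [DecidableEq ι] {L : ι → Type}
  [∀ i, Field (L i)] [∀ i, Algebra K (L i)] [∀ i, FiniteDimensional K (L i)]
  {V : Type} [AddCommGroup V] [Module K V]

lemma NN_apply (t : ∀ i, (L i)ˣ) :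
    NN K t = ∏ i, Units.map (Algebra.norm K (S := L i)) (t i) := rfl

/-- transitivity of the norm one torus on vectors with the same (proper) support -/
lemma trans_supp (e : V ≃ₗ[K] (∀ i, L i)) {J : Finset ι} (hJ : J ≠ Finset.univ) {v w : V}
    (hv : supp e v = J) (hw : supp e w = J) :
    ∃ h ∈ T1 e, h v = w := by
  classical
  obtain ⟨k, hk⟩ : ∃ k, k ∉ J := by
    by_contra h
    push Not at h
    exact hJ (Finset.eq_univ_iff_forall.2 h)
  have hv0 : ∀ i, e v i ≠ 0 ↔ i ∈ J := fun i => by rw [← hv, mem_supp]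
  have hw0 : ∀ i, e w i ≠ 0 ↔ i ∈ J := fun i => by rw [← hw, mem_supp]
  have : ∀ i, Finite (L i) := fun i => Module.finite_of_finite K
  -- the tuple
  let t0 : ∀ i, (L i)ˣ := fun i => if h : e v i ≠ 0 ∧ e w i ≠ 0 then
    Units.mk0 (e w i) h.2 * (Units.mk0 (e v i) h.1)⁻¹ else 1
  obtain ⟨s, hs⟩ := FiniteField.unitsMap_norm_surjective K (L k)
    (∏ i, Units.map (Algebra.norm K (S := L i)) (t0 i))⁻¹
  have hNs : NN K (Pi.mulSingle k s : ∀ i, (L i)ˣ) = Units.map (Algebra.norm K) s := by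
    rw [NN_apply]
    rw [Finset.prod_eq_single k]
    · simp
    · intro b _ hb
      rw [Pi.mulSingle_eq_of_ne hb]
      simp
    · simp
  refine ⟨tor e (Pi.mulSingle k s * t0), Subgroup.mem_map.2 ⟨_, ?_, rfl⟩, ?_⟩
  · rw [MonoidHom.mem_ker, map_mul, hNs, hs, NN_apply]
    simp
  · apply e.injective
    funext i
    rw [tor_apply]
    by_cases hi : i ∈ J
    · have hik : i ≠ k := fun h => hk (h ▸ hi)
      have h1 := (hv0 i).2 hi
      have h2 := (hw0 i).2 hi
      have : (t0 i : L i) = e w i * (e v i)⁻¹ := by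
        simp only [t0]
        rw [dif_pos ⟨h1, h2⟩]
        simp
      rw [Pi.mul_apply, Pi.mulSingle_eq_of_ne hik, one_mul, this]
      field_simp
    · have h1 : e v i = 0 := by
        by_contra h; exact hi ((hv0 i).1 h)
      have h2 : e w i = 0 := by
        by_contra h; exact hi ((hw0 i).1 h)
      rw [h1, h2, mul_zero]

/-- the number of vectors with support `J` -/
lemma card_supp (e : V ≃ₗ[K] (∀ i, L i)) (J : Finset ι) :
    Nat.card {w : V // supp e w = J} = ∏ i ∈ J, (Nat.card K ^ finrank K (L i) - 1) := by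
  classical
  have hfin : ∀ i, Finite (L i) := fun i => Module.finite_of_finite K
  let : ∀ i, Fintype (L i) := fun i => Fintype.ofFinite _
  have e1 : {w : V // supp e w = J} ≃
      {x : ∀ i, L i // x ∈ Fintype.piFinset
        (fun i => if i ∈ J then (Finset.univ.erase (0 : L i)) else {0})} := by
    refine Equiv.subtypeEquiv e.toEquiv ?_
    intro w
    rw [Fintype.mem_piFinset]
    constructor
    · intro h i
      by_cases hi : i ∈ J
      · have : e w i ≠ 0 := by rwa [← mem_supp, h]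
        simp only [hi, if_true, Finset.mem_erase, Finset.mem_univ, and_true]
        exact this
      · have : ¬ e w i ≠ 0 := by rwa [← mem_supp, h]
        simp only [hi, if_false, Finset.mem_singleton]
        exact not_not.1 this
    · intro h
      ext i
      rw [mem_supp]
      have := h i
      by_cases hi : i ∈ J
      · simp only [hi, if_true, Finset.mem_erase, Finset.mem_univ, and_true] at this
        exact ⟨fun _ => hi, fun _ => this⟩
      · simp only [hi, if_false, Finset.mem_singleton] at this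
        exact ⟨fun h => absurd this h, fun h => absurd h hi⟩
  rw [Nat.card_congr e1]
  rw [Nat.card_eq_fintype_card, Fintype.card_coe, Fintype.card_piFinset]
  rw [← Finset.prod_subset (Finset.subset_univ J)]
  · apply Finset.prod_congr rfl
    intro i hi
    rw [if_pos hi, Finset.card_erase_of_mem (Finset.mem_univ _), Finset.card_univ,
      ← Nat.card_eq_fintype_card, Module.natCard_eq_pow_finrank (K := K)]
  · intro i _ hi
    rw [if_neg hi, Finset.card_singleton]

/-- the tuples whose norm is in `D`, up to the norm of a scalar -/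
noncomputable def SD (L : ι → Type) [∀ i, Field (L i)]
    [∀ i, Algebra K (L i)] (D : Subgroup Kˣ) (n : ℕ) : Subgroup (∀ i, (L i)ˣ) :=
  (D ⊔ (powMonoidHom n : Kˣ →* Kˣ).range).comap (NN K)

lemma mem_SD {D : Subgroup Kˣ} {n : ℕ} {t : ∀ i, (L i)ˣ} :
    t ∈ SD L D n ↔ ∃ c ∈ D, ∃ d : Kˣ, c * d ^ n = NN K t := by
  rw [SD, Subgroup.mem_comap, Subgroup.mem_sup]
  constructor
  · rintro ⟨c, hc, y, hy, h⟩
    obtain ⟨d, rfl⟩ := MonoidHom.mem_range.1 hy
    exact ⟨c, hc, d, h⟩
  · rintro ⟨c, hc, d, h⟩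
    exact ⟨c, hc, d ^ n, MonoidHom.mem_range.2 ⟨d, rfl⟩, h⟩

lemma card_SD (D : Subgroup Kˣ) (n : ℕ) (hn : 0 < n) (δ : ℕ) (hδ : min n D.index ≤ δ) :
    ∏ i, (Nat.card K ^ finrank K (L i) - 1) ≤ δ * Nat.card (SD L D n) := by
  classical
  have hfin : ∀ i, Finite (L i) := fun i => Module.finite_of_finite K
  have h1 : Nat.card (∀ i, (L i)ˣ) = ∏ i, (Nat.card K ^ finrank K (L i) - 1) := by
    rw [Nat.card_pi]
    apply Finset.prod_congr rfl
    intro i _
    rw [Nat.card_units, Module.natCard_eq_pow_finrank (K := K)]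
  have h2 := Subgroup.card_mul_index (SD L D n)
  rw [← h1, ← h2, mul_comm]
  apply Nat.mul_le_mul_right
  refine le_trans ?_ hδ
  unfold SD
  rw [Subgroup.index_comap]
  have h3 : (D ⊔ (powMonoidHom n : Kˣ →* Kˣ).range).relIndex (NN K (L := L)).range ∣
      (D ⊔ (powMonoidHom n : Kˣ →* Kˣ).range).index := Subgroup.relIndex_dvd_index_of_normal _ _
  have h5 : (D ⊔ (powMonoidHom n : Kˣ →* Kˣ).range).index ∣
      (powMonoidHom n : Kˣ →* Kˣ).range.index := Subgroup.index_dvd_of_le le_sup_right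
  have h6 : (D ⊔ (powMonoidHom n : Kˣ →* Kˣ).range).index ∣ D.index :=
    Subgroup.index_dvd_of_le le_sup_left
  have h4 : (powMonoidHom n : Kˣ →* Kˣ).range.index = (Nat.card Kˣ).gcd n :=
    IsCyclic.index_powMonoidHom_range Kˣ n
  rw [h4] at h5
  refine le_min (Nat.le_of_dvd hn (h3.trans (h5.trans (Nat.gcd_dvd_right _ _)))) ?_
  exact Nat.le_of_dvd (Nat.pos_of_ne_zero Subgroup.index_ne_zero_of_finite) (h3.trans h6)

/-- the norm of a scalar tuple -/
lemma NN_scalar (d : Kˣ) :
    NN K (fun i => Units.map (algebraMap K (L i)).toMonoidHom d) = d ^ ∑ i, finrank K (L i) := by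
  rw [NN_apply, ← Finset.prod_pow_eq_pow_sum]
  apply Finset.prod_congr rfl
  intro i _
  ext
  simp [Algebra.norm_algebraMap]

/-- An element of `SD` acts as a scalar times an element of `TD`. -/
lemma tor_SD (D : Subgroup Kˣ) (e : V ≃ₗ[K] (∀ i, L i)) {t : ∀ i, (L i)ˣ}
    (ht : t ∈ SD L D (∑ i, finrank K (L i))) :
    ∃ (d : Kˣ), ∃ s ∈ TD D e, ∀ v, tor e t v = (d : K) • s v := by
  obtain ⟨c, hc, d, hd⟩ := mem_SD.1 ht
  refine ⟨d, tor e ((fun i => Units.map (algebraMap K (L i)).toMonoidHom d)⁻¹ * t),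
    mem_TD.2 ⟨_, ?_, rfl⟩, ?_⟩
  · rw [map_mul, map_inv, NN_scalar, ← hd, mul_comm, mul_inv_cancel_right]
    exact hc
  · intro v
    apply e.injective
    funext i
    rw [tor_apply, map_smul, Pi.smul_apply, tor_apply, Algebra.smul_def]
    have : algebraMap K (L i) (d : K) ≠ 0 := by
      simp
    simp only [Pi.mul_apply, Pi.inv_apply, Units.val_mul]
    rw [Units.val_inv_eq_inv_val]
    simp only [RingHom.toMonoidHom_eq_coe, Units.coe_map, MonoidHom.coe_coe]
    field_simp

/-- divisibility -/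
lemma dvd_card (D : Subgroup Kˣ) (e : V ≃ₗ[K] (∀ i, L i)) (Ω : Set V)
    (hΩ : ∀ t ∈ SD L D (∑ i, finrank K (L i)), ∀ v ∈ Ω, tor e t v ∈ Ω) :
    Nat.card (SD L D (∑ i, finrank K (L i))) ∣
      Nat.card {v : V // v ∈ Ω ∧ supp e v = Finset.univ} := by
  classical
  set T := SD L D (∑ i, finrank K (L i)) with hT
  have hsupp : ∀ (t : ∀ i, (L i)ˣ) (v : V), supp e (tor e t v) = supp e v := by
    intro t v
    ext i
    rw [mem_supp, mem_supp, tor_apply]
    simp
  let : MulAction T {v : V // v ∈ Ω ∧ supp e v = Finset.univ} :=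
    { smul := fun t v => ⟨tor e t v, hΩ t t.2 v v.2.1, by rw [hsupp]; exact v.2.2⟩
      one_smul := fun v => Subtype.ext (by
        change tor e ((1 : T) : ∀ i, (L i)ˣ) v = v
        simp)
      mul_smul := fun s t v => Subtype.ext (by
        change tor e ((s * t : T) : ∀ i, (L i)ˣ) v = tor e s (tor e t v)
        simp) }
  have hfree : ∀ b : {v : V // v ∈ Ω ∧ supp e v = Finset.univ},
      MulAction.stabilizer T b = ⊥ := by
    intro b
    rw [eq_bot_iff]
    intro t ht
    rw [MulAction.mem_stabilizer_iff] at ht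
    have h1 : tor e (t : ∀ i, (L i)ˣ) (b : V) = b := congrArg Subtype.val ht
    rw [Subgroup.mem_bot]
    apply Subtype.ext
    funext i
    have h2 : e (tor e (t : ∀ i, (L i)ˣ) (b : V)) i = e (b : V) i := by rw [h1]
    rw [tor_apply] at h2
    have h3 : e (b : V) i ≠ 0 := by
      rw [← mem_supp, b.2.2]; simp
    have h4 : ((t : ∀ i, (L i)ˣ) i : L i) = 1 := by
      have := mul_right_cancel₀ h3 (h2.trans (one_mul _).symm)
      exact this
    exact Units.ext h4
  rw [Nat.card_congr (MulAction.selfEquivOrbitsQuotientProd hfree), Nat.card_prod]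
  exact Dvd.intro_left _ rfl

/-- the fibre count over the supports -/
lemma sum_card (e : V ≃ₗ[K] (∀ i, L i)) [Finite V] (Ω : Set V) :
    ∑ J : Finset ι, Nat.card {v : V // v ∈ Ω ∧ supp e v = J} = Nat.card Ω := by
  classical
  let := Fintype.ofFinite V
  have h1 : ∀ J : Finset ι, Nat.card {v : V // v ∈ Ω ∧ supp e v = J} =
      ((Finset.univ.filter (fun v => v ∈ Ω)).filter (fun v => supp e v = J)).card := by
    intro J
    rw [Nat.card_eq_fintype_card, Fintype.card_subtype, Finset.filter_filter]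
  have h2 : Nat.card Ω = (Finset.univ.filter (fun v => v ∈ Ω)).card := by
    rw [← Fintype.card_subtype, ← Nat.card_eq_fintype_card]
  simp_rw [h1]
  rw [h2]
  exact (Finset.card_eq_sum_card_fiberwise (fun x _ => Finset.mem_univ _)).symm

/-- the values for proper subsets -/
lemma card_proper (e : V ≃ₗ[K] (∀ i, L i)) (Ω : Set V)
    (hΩ : ∀ h ∈ T1 e, ∀ v ∈ Ω, h v ∈ Ω) (J : Finset ι) (hJ : J ≠ Finset.univ) :
    Nat.card {v : V // v ∈ Ω ∧ supp e v = J} = 0 ∨
      Nat.card {v : V // v ∈ Ω ∧ supp e v = J} =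
        ∏ i ∈ J, (Nat.card K ^ finrank K (L i) - 1) := by
  by_cases h : ∃ v, v ∈ Ω ∧ supp e v = J
  · right
    obtain ⟨v, hv, hvJ⟩ := h
    rw [← card_supp e J]
    apply Nat.card_congr
    apply Equiv.subtypeEquivRight
    intro w
    refine ⟨fun hw => hw.2, fun hw => ⟨?_, hw⟩⟩
    obtain ⟨t, ht, htw⟩ := trans_supp e hJ hvJ hw
    rw [← htw]
    exact hΩ t ht v hv
  · left
    have : IsEmpty {v : V // v ∈ Ω ∧ supp e v = J} := ⟨fun v => h ⟨v, v.2⟩⟩
    exact Nat.card_of_isEmpty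

end StepA

section tori

variable {K : Type} [Field K] [Finite K] {ι : Type} [Fintype ι] [DecidableEq ι] {L : ι → Type}
  [∀ i, Field (L i)] [∀ i, Algebra K (L i)] [∀ i, FiniteDimensional K (L i)]
  {V : Type} [AddCommGroup V] [Module K V]

/-- (A) the counting step. `δ` bounds `n` or the index of the group `D` of determinants. -/
theorem stepA (D : Subgroup Kˣ) (δ : ℕ) (hδ : min (∑ i, finrank K (L i)) D.index ≤ δ)
    (hq : 2 ^ Fintype.card ι + Fintype.card ι * (δ + 1) ≤ Nat.card K)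
    (hι : 2 ≤ Fintype.card ι) (hD : DistinctSums fun i => finrank K (L i))
    (e e' : V ≃ₗ[K] (∀ i, L i)) (j : ι) :
    ∃ l, finrank K (L l) = finrank K (L j) ∧ ∃ h ∈ TD D e ⊔ TD D e', ∃ v : V,
      supp e v = {j} ∧ supp e' (h v) = {l} := by
  classical
  have hfin : ∀ i, Finite (L i) := fun i => Module.finite_of_finite K
  have hV : Finite V := Finite.of_equiv _ e.toEquiv.symm
  have ha : ∀ i, 1 ≤ finrank K (L i) := fun i => finrank_pos
  have hn0 : 0 < ∑ i, finrank K (L i) :=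
    Finset.sum_pos (fun i _ => ha i) ⟨j, Finset.mem_univ j⟩
  -- the base vector
  set v0 : V := e.symm (Pi.single j (1 : L j)) with hv0
  have hs0 : supp e v0 = {j} := by
    ext i
    rw [mem_supp, hv0, LinearEquiv.apply_symm_apply, Finset.mem_singleton]
    by_cases hi : i = j
    · subst hi; simp
    · simp [hi]
  have hv00 : v0 ≠ 0 := by
    intro h
    have : supp e v0 = ∅ := by
      ext i; rw [mem_supp, h]; simp
    rw [hs0] at this
    exact Finset.singleton_ne_empty j this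
  have hju : ({j} : Finset ι) ≠ Finset.univ := by
    intro h
    have := congrArg Finset.card h
    rw [Finset.card_singleton, Finset.card_univ] at this
    omega
  set Hg := TD D e ⊔ TD D e' with hHg
  set Ω : Set V := {v | ∃ h ∈ Hg, h v0 = v} with hΩ
  have hΩH : ∀ h ∈ Hg, ∀ v ∈ Ω, h v ∈ Ω := by
    rintro h hh v ⟨g, hg, rfl⟩
    exact ⟨h * g, mul_mem hh hg, rfl⟩
  have hΩK : ∀ d : Kˣ, ∀ v ∈ Ω, (d : K) • v ∈ Ω := by
    rintro d v ⟨g, hg, rfl⟩
    have h1 : supp e ((d : K) • v0) = {j} := by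
      rw [← hs0]
      ext i
      rw [mem_supp, mem_supp, map_smul, Pi.smul_apply]
      simp
    obtain ⟨s, hs, hsv⟩ := StepA.trans_supp e hju hs0 h1
    refine ⟨g * s, mul_mem hg (Subgroup.mem_sup_left (T1_le_TD D e hs)), ?_⟩
    rw [LinearEquiv.mul_apply, hsv, map_smul]
  have hv0Ω : v0 ∈ Ω := ⟨1, one_mem _, rfl⟩
  -- stability under SD
  have hT : ∀ t ∈ StepA.SD L D (∑ i, finrank K (L i)), ∀ v ∈ Ω, tor e t v ∈ Ω := by
    intro t ht v hv
    obtain ⟨d, s, hs, hds⟩ := StepA.tor_SD D e ht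
    rw [hds]
    exact hΩK d _ (hΩH s (Subgroup.mem_sup_left hs) v hv)
  have hT' : ∀ t ∈ StepA.SD L D (∑ i, finrank K (L i)), ∀ v ∈ Ω, tor e' t v ∈ Ω := by
    intro t ht v hv
    obtain ⟨d, s, hs, hds⟩ := StepA.tor_SD D e' ht
    rw [hds]
    exact hΩK d _ (hΩH s (Subgroup.mem_sup_right hs) v hv)
  -- counts
  have hcj : Nat.card {v : V // v ∈ Ω ∧ supp e v = {j}} ≠ 0 := by
    have : Nonempty {v : V // v ∈ Ω ∧ supp e v = {j}} := ⟨⟨v0, hv0Ω, hs0⟩⟩
    exact Nat.card_pos.ne'
  obtain ⟨l, hl, hl'⟩ := num_core (fun i => finrank K (L i)) ha hD hι δ (Nat.card K)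
    (Nat.card (StepA.SD L D (∑ i, finrank K (L i)))) hq (StepA.card_SD D _ hn0 δ hδ)
    (fun J => Nat.card {v : V // v ∈ Ω ∧ supp e v = J})
    (fun J => Nat.card {v : V // v ∈ Ω ∧ supp e' v = J})
    (StepA.card_proper e Ω (fun h hh v hv =>
      hΩH h (Subgroup.mem_sup_left (T1_le_TD D e hh)) v hv))
    (StepA.card_proper e' Ω (fun h hh v hv =>
      hΩH h (Subgroup.mem_sup_right (T1_le_TD D e' hh)) v hv))
    (StepA.dvd_card D e Ω hT) (StepA.dvd_card D e' Ω hT')
    (by rw [StepA.sum_card e Ω, StepA.sum_card e' Ω]) j hcj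
  refine ⟨l, hl, ?_⟩
  obtain ⟨⟨v, ⟨h, hh, rfl⟩, hvl⟩⟩ : Nonempty {v : V // v ∈ Ω ∧ supp e' v = {l}} := by
    by_contra hne
    rw [not_nonempty_iff] at hne
    exact hl' Nat.card_of_isEmpty
  exact ⟨h, hh, v0, hs0, hvl⟩

end tori

end Pool.Agent.H10.Pro
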