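import Pool.Agent.H10.Pro.Link
import Pool.Agent.H10.Pro.StepA
import Pool.Agent.H10.Pro.Lift
import Pool.Agent.H10.Pro.Glue

/-!
# The main conjugacy theorem
-/

namespace Pool.Agent.H10.Pro

set_option linter.unusedSectionVars false
set_option linter.unusedDecidableInType false
set_option linter.style.haveILetI false

open Module

lemma DistinctSums.restrict {ι : Type} [Fintype ι] {a : ι → ℕ} (h : DistinctSums a) (j : ι) :
    DistinctSums (fun i : {i : ι // i ≠ j} => a i) := by
  classical
  intro S S' hS
  have h1 := h (S.map (Function.Embedding.subtype _)) (S'.map (Function.Embedding.subtype _))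
    (by simpa [Finset.sum_map] using hS)
  simpa [Finset.map_val, Multiset.map_map, Function.comp_def] using h1

/-- (M) the main conjugacy theorem, with an induction parameter. -/
theorem conj_tori_aux {K : Type} [Field K] [Finite K] (D : Subgroup Kˣ) (δ : ℕ) :
    ∀ (m : ℕ) {ι : Type} [Fintype ι] [DecidableEq ι] {L : ι → Type}
    [∀ i, Field (L i)] [∀ i, Algebra K (L i)] [∀ i, FiniteDimensional K (L i)]
    {V : Type} [AddCommGroup V] [Module K V] (_ : Fintype.card ι = m)
    (_ : 31 ≤ Nat.card K) (_ : 2 ^ m + m * (δ + 1) ≤ Nat.card K)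
    (_ : min (∑ i, finrank K (L i)) D.index ≤ δ) (_ : DistinctSums fun i => finrank K (L i))
    (e e' : V ≃ₗ[K] (∀ i, L i)),
    ∃ x ∈ TD D e ⊔ TD D e', TT (x.symm.trans e) = TT e' := by
  classical
  intro m
  induction m with
  | zero =>
    intro ι _ _ L _ _ _ V _ _ hcard hq31 hq hn hD e e'
    haveI : IsEmpty ι := Fintype.card_eq_zero_iff.1 hcard
    haveI : Subsingleton V := e.toEquiv.subsingleton
    refine ⟨1, Subgroup.one_mem _, ?_⟩
    have h1 : ∀ g h : V ≃ₗ[K] V, g = h := by
      intro g h; ext v; exact Subsingleton.elim _ _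
    ext g
    constructor
    · intro _; exact ⟨1, h1 _ _⟩
    · intro _; exact ⟨1, h1 _ _⟩
  | succ m ih =>
    intro ι _ _ L _ _ _ V _ _ hcard hq31 hq hn hD e e'
    have hne : Nonempty ι := Fintype.card_pos_iff.1 (by omega)
    obtain ⟨j, -, hmin'⟩ := Finset.exists_min_image (Finset.univ : Finset ι)
      (fun i => finrank K (L i)) Finset.univ_nonempty
    have hmin : ∀ i, finrank K (L j) ≤ finrank K (L i) := fun i => hmin' i (Finset.mem_univ i)
    haveI := finite_GL e
    by_cases hm : m = 0
    · -- one part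
      subst hm
      have huniq : ∀ i, i = j := by
        intro i
        have := Fintype.card_le_one_iff.1 (by omega : Fintype.card ι ≤ 1)
        exact this i j
      have hsupp : ∀ (f : V ≃ₗ[K] (∀ i, L i)) (v : V), v ≠ 0 → supp f v = {j} := by
        intro f v hv
        ext i
        rw [mem_supp, Finset.mem_singleton]
        refine ⟨fun _ => huniq i, fun hi h0 => hv ?_⟩
        apply f.injective
        rw [map_zero]
        funext k
        rw [huniq k, ← hi]; exact h0
      have hv0 : e.symm 1 ≠ 0 := by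
        intro h
        have h2 := congrArg (fun w => e w j) h
        simp at h2
      obtain ⟨y, hy, hS⟩ := link e e' (TD D e ⊔ TD D e')
        ((T1_le_TD D e).trans le_sup_left) ((T1_le_TD D e').trans le_sup_right) j hq31 1
        (Subgroup.one_mem _) (e.symm 1) (hsupp e _ hv0) (hsupp e' _ hv0)
      refine ⟨y, hy, ?_⟩
      apply Subgroup.eq_of_le_of_card_ge
      · rintro g ⟨t, rfl⟩
        obtain ⟨s', hs'⟩ := hS.2 (t j)
        refine ⟨Pi.mulSingle j s', ?_⟩
        ext v
        have hall : ∀ i, i ≠ j → (y.symm.trans e) v i = 0 := fun i hi => absurd (huniq i) hi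
        rw [tor_eq_of_supp (y.symm.trans e) t j v hall, hs' v hall]
      · rw [card_TT, card_TT]
    · -- at least two parts
      have hι : 2 ≤ Fintype.card ι := by omega
      obtain ⟨l, hl, h, hh, v, hv, hv'⟩ := stepA D δ hn (by rw [hcard]; exact hq) hι hD e e' j
      obtain ⟨e'', hTT, hTD, hsup⟩ := relabel e' j l hl
      rw [← hTD] at hh ⊢
      rw [← hTT]
      obtain ⟨y, hy, hS⟩ := link e e'' (TD D e ⊔ TD D e'')
        ((T1_le_TD D e).trans le_sup_left) ((T1_le_TD D e'').trans le_sup_right)
        j hq31 h hh v hv (hsup _ hv')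
      set H := TD D e ⊔ TD D e'' with hH
      set e₁ := y.symm.trans e with he₁
      have he₁H : TD D e₁ ≤ H := TD_cj_le hy le_sup_left
      have he''H : TD D e'' ≤ H := le_sup_right
      let U : Submodule K V :=
        { carrier := {u | ∀ i, i ≠ j → e₁ u i = 0}
          add_mem' := by
            intro a b ha hb i hi
            rw [map_add, Pi.add_apply, ha i hi, hb i hi, add_zero]
          zero_mem' := by intro i _; rw [map_zero]; rfl
          smul_mem' := by
            intro c a ha i hi
            rw [map_smul, Pi.smul_apply, ha i hi, smul_zero] }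
      have hU : ∀ u : V, u ∈ U ↔ ∀ i, i ≠ j → e₁ u i = 0 := fun u => Iff.rfl
      have hU' : ∀ u : V, u ∈ U ↔ ∀ i, i ≠ j → e'' u i = 0 := fun u => hS.1 u
      have hsumle : ∑ i : {i : ι // i ≠ j}, finrank K (L i) ≤ ∑ i, finrank K (L i) := by
        rw [← Finset.sum_erase_add Finset.univ _ (Finset.mem_univ j)]
        refine le_trans (le_of_eq ?_) (Nat.le_add_right _ _)
        apply Finset.sum_bij (fun (i : {i : ι // i ≠ j}) _ => (i : ι))
        · intro i _; simp [i.2]
        · intro i _ k _ h; exact Subtype.ext h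
        · intro i hi
          exact ⟨⟨i, (Finset.mem_erase.1 hi).1⟩, Finset.mem_univ _, rfl⟩
        · intro i _; rfl
      obtain ⟨x', hx', hTx'⟩ := ih (ι := {i : ι // i ≠ j}) (L := fun i => L i) (V := V ⧸ U)
        (by
          rw [Fintype.card_subtype_compl, Fintype.card_subtype_eq]
          omega) hq31
        (by
          have h1 : 2 ^ m ≤ 2 ^ (m + 1) := Nat.pow_le_pow_right (by norm_num) (Nat.le_succ m)
          have h2 : m * (δ + 1) ≤ (m + 1) * (δ + 1) := Nat.mul_le_mul_right _ (Nat.le_succ m)
          linarith)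
        (le_trans (min_le_min_right _ hsumle) hn)
        (hD.restrict j) (eQ e₁ j U hU) (eQ e'' j U hU')
      obtain ⟨x, hx, hxU, hxQ⟩ := lift D e₁ e'' j U hU hU' x' hx'
      have hxH : x ∈ H := (sup_le he₁H he''H) hx
      have hxinv : ∀ w, x⁻¹ (x w) = w := fun w => by
        rw [← LinearEquiv.mul_apply, inv_mul_cancel]; rfl
      have hxinv' : ∀ w, x (x⁻¹ w) = w := fun w => by
        rw [← LinearEquiv.mul_apply, mul_inv_cancel]; rfl
      have hxU' : ∀ u ∈ U, x⁻¹ u = u := by
        intro u hu
        have := hxinv u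
        rwa [hxU u hu] at this
      set e₂ := x.symm.trans e₁ with he₂
      have he₂a : ∀ w, e₂ w = e₁ (x⁻¹ w) := fun w => rfl
      have hU₂ : ∀ u : V, u ∈ U ↔ ∀ i, i ≠ j → e₂ u i = 0 := by
        intro u
        constructor
        · intro hu i hi
          rw [he₂a, hxU' u hu]; exact (hU u).1 hu i hi
        · intro hu
          have h1 : x⁻¹ u ∈ U := (hU _).2 (fun i hi => by rw [← he₂a]; exact hu i hi)
          have h2 := hxU _ h1
          rw [hxinv'] at h2
          rw [h2]; exact h1
      have hS₂ : SameAt e₂ e'' j := by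
        constructor
        · intro u
          rw [← hU₂ u, ← hU' u]
        · intro s
          obtain ⟨s', hs'⟩ := hS.2 s
          refine ⟨s', fun u hu => ?_⟩
          have huU : u ∈ U := (hU₂ u).2 hu
          rw [← hs' u ((hU u).1 huU), he₂, tor_cj]
          simp only [LinearEquiv.mul_apply]
          rw [hxU' u huU]
          apply hxU
          rw [hU]
          intro i hi
          rw [tor_apply, (hU u).1 huU i hi, mul_zero]
      have heQ : eQ e₂ j U hU₂ = x'.symm.trans (eQ e₁ j U hU) := by
        ext w i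
        obtain ⟨v, rfl⟩ := U.mkQ_surjective w
        rw [eQ_apply, he₂a]
        have h1 : x'.symm (U.mkQ v) = U.mkQ (x⁻¹ v) := by
          apply x'.injective
          rw [LinearEquiv.apply_symm_apply, ← hxQ, hxinv']
        have h2 : (x'.symm.trans (eQ e₁ j U hU)) (U.mkQ v) i
            = eQ e₁ j U hU (x'.symm (U.mkQ v)) i := rfl
        rw [h2, h1, eQ_apply]
      have hQ : TT (eQ e₂ j U hU₂) = TT (eQ e'' j U hU') := by
        rw [heQ]; exact hTx'
      have he₂H : TD D e₂ ≤ H := TD_cj_le hxH he₁H
      obtain ⟨z, hz, hTz⟩ := glue e₂ e'' H ((T1_le_TD D e₂).trans he₂H)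
        ((T1_le_TD D e'').trans he''H) hι (by omega) j hmin hS₂ U hU₂ hU' hQ
      refine ⟨z * (x * y), H.mul_mem hz (H.mul_mem hxH hy), ?_⟩
      rw [← cj_cj, ← cj_cj]
      exact hTz

/-- (M) the main conjugacy theorem. -/
theorem conj_tori {K : Type} [Field K] [Finite K] {ι : Type} [Fintype ι] [DecidableEq ι]
    {L : ι → Type} [∀ i, Field (L i)] [∀ i, Algebra K (L i)] [∀ i, FiniteDimensional K (L i)]
    {V : Type} [AddCommGroup V] [Module K V] (D : Subgroup Kˣ) (hq31 : 31 ≤ Nat.card K)
    (hq : 2 ^ Fintype.card ι + Fintype.card ι * (min (∑ i, finrank K (L i)) D.index + 1)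
      ≤ Nat.card K)
    (hD : DistinctSums fun i => finrank K (L i)) (e e' : V ≃ₗ[K] (∀ i, L i)) :
    ∃ x ∈ TD D e ⊔ TD D e', TT (x.symm.trans e) = TT e' :=
  conj_tori_aux D _ _ rfl hq31 hq le_rfl hD e e'

end Pool.Agent.H10.Pro
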