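import Pool.Agent.H10.Pro.Defs

/-!
# The numerical core of the counting step
-/

namespace Pool.Agent.H10.Pro

section num

variable {ι : Type} [Fintype ι] [DecidableEq ι]

omit [Fintype ι] in
theorem num_lower (a : ι → ℕ) (ha : ∀ i, 1 ≤ a i) (q : ℕ) (hq : 1 ≤ q) (J : Finset ι) :
    J.card ≤ q → ((q : ℤ) - J.card) * (q : ℤ) ^ (∑ i ∈ J, a i) ≤
      q * ((∏ i ∈ J, (q ^ a i - 1) : ℕ) : ℤ) := by
  induction J using Finset.induction_on with
  | empty => intro _; simp
  | insert i J hi ih =>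
    intro hJ
    rw [Finset.card_insert_of_notMem hi] at hJ
    have h1 := ih (by omega)
    rw [Finset.sum_insert hi, Finset.prod_insert hi, Finset.card_insert_of_notMem hi, pow_add]
    have hq1 : (1 : ℤ) ≤ q := by exact_mod_cast hq
    have h2 : (q : ℤ) ≤ (q : ℤ) ^ a i := by
      calc (q : ℤ) = (q : ℤ) ^ 1 := (pow_one _).symm
        _ ≤ (q : ℤ) ^ a i := pow_le_pow_right₀ hq1 (ha i)
    have h3 : ((q ^ a i - 1 : ℕ) : ℤ) = (q : ℤ) ^ a i - 1 := by
      rw [Nat.cast_sub (Nat.one_le_pow _ _ hq)]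
      push_cast
      ring
    have h4 : (0 : ℤ) ≤ (q : ℤ) ^ (∑ x ∈ J, a x) := by positivity
    have h5 : ((J.card : ℤ)) + 1 ≤ q := by exact_mod_cast hJ
    have h6 : ((q : ℤ) - ((J.card + 1 : ℕ) : ℤ)) * (q : ℤ) ^ a i ≤
        ((q : ℤ) ^ a i - 1) * ((q : ℤ) - J.card) := by
      push_cast
      have : (0 : ℤ) ≤ J.card := by positivity
      nlinarith
    have h7 : (0 : ℤ) ≤ (q : ℤ) ^ a i - 1 := by linarith
    rw [Nat.cast_mul, h3]
    calc ((q : ℤ) - ((J.card + 1 : ℕ) : ℤ)) * ((q : ℤ) ^ a i * (q : ℤ) ^ (∑ x ∈ J, a x))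
        = (((q : ℤ) - ((J.card + 1 : ℕ) : ℤ)) * (q : ℤ) ^ a i) * (q : ℤ) ^ (∑ x ∈ J, a x) := by
          ring
      _ ≤ (((q : ℤ) ^ a i - 1) * ((q : ℤ) - J.card)) * (q : ℤ) ^ (∑ x ∈ J, a x) :=
          mul_le_mul_of_nonneg_right h6 h4
      _ = ((q : ℤ) ^ a i - 1) * (((q : ℤ) - J.card) * (q : ℤ) ^ (∑ x ∈ J, a x)) := by ring
      _ ≤ ((q : ℤ) ^ a i - 1) * (q * ((∏ x ∈ J, (q ^ a x - 1) : ℕ) : ℤ)) :=
          mul_le_mul_of_nonneg_left h1 h7
      _ = q * (((q : ℤ) ^ a i - 1) * ((∏ x ∈ J, (q ^ a x - 1) : ℕ) : ℤ)) := by ring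

omit [Fintype ι] [DecidableEq ι] in
theorem num_upper (a : ι → ℕ) (q : ℕ) (J : Finset ι) :
    ∏ i ∈ J, (q ^ a i - 1) ≤ q ^ ∑ i ∈ J, a i := by
  rw [← Finset.prod_pow_eq_pow_sum]
  exact Finset.prod_le_prod' fun i _ => Nat.sub_le _ _

theorem num_total (a : ι → ℕ) (q : ℕ) (hq : 1 ≤ q) :
    ∑ J : Finset ι, ∏ i ∈ J, (q ^ a i - 1) = q ^ ∑ i, a i := by
  rw [← Finset.prod_pow_eq_pow_sum]
  have h := Finset.prod_add_one (s := (Finset.univ : Finset ι)) (f := fun i => q ^ a i - 1)
  rw [Finset.powerset_univ] at h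
  rw [← h]
  apply Finset.prod_congr rfl
  intro i _
  exact Nat.sub_add_cancel (Nat.one_le_pow _ _ hq)

omit [Fintype ι] [DecidableEq ι] in
theorem peel {p0 F F' g g' : ℕ} (hF : p0 ∣ F) (hF' : p0 ∣ F') (hg : g < p0) (hg' : g' < p0)
    (h : F + g = F' + g') : F = F' ∧ g = g' := by
  obtain ⟨k, rfl⟩ := hF
  obtain ⟨k', rfl⟩ := hF'
  have h1 : (p0 * k + g) % p0 = g := by rw [Nat.mul_add_mod, Nat.mod_eq_of_lt hg]
  have h2 : (p0 * k' + g') % p0 = g' := by rw [Nat.mul_add_mod, Nat.mod_eq_of_lt hg']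
  have h3 : g = g' := by rw [← h1, h, h2]
  omega

/-- (N) the numerical core of the counting step. -/
theorem num_core (a : ι → ℕ) (ha : ∀ i, 1 ≤ a i) (hD : DistinctSums a) (hι : 2 ≤ Fintype.card ι)
    (δ q m : ℕ) (hq : 2 ^ Fintype.card ι + Fintype.card ι * (δ + 1) ≤ q)
    (hm : ∏ i, (q ^ a i - 1) ≤ δ * m)
    (c c' : Finset ι → ℕ)
    (hc : ∀ J, J ≠ Finset.univ → c J = 0 ∨ c J = ∏ i ∈ J, (q ^ a i - 1))
    (hc' : ∀ J, J ≠ Finset.univ → c' J = 0 ∨ c' J = ∏ i ∈ J, (q ^ a i - 1))
    (hu : m ∣ c Finset.univ) (hu' : m ∣ c' Finset.univ)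
    (hsum : ∑ J : Finset ι, c J = ∑ J : Finset ι, c' J) (j : ι) (hj : c {j} ≠ 0) :
    ∃ l, a l = a j ∧ c' {l} ≠ 0 := by
  classical
  have hn2 : 0 < 2 ^ Fintype.card ι := by positivity
  have hmul : Fintype.card ι * (δ + 1) = δ * Fintype.card ι + Fintype.card ι := by ring
  rw [hmul] at hq
  have hmul0 : 0 ≤ δ * Fintype.card ι := Nat.zero_le _
  have hq1 : 1 ≤ q := by omega
  have hqz : (0 : ℤ) < q := by exact_mod_cast hq1
  obtain ⟨n, hn⟩ : ∃ n, ∑ i, a i = n := ⟨_, rfl⟩
  set W : Finset (Finset ι) := Finset.univ.erase Finset.univ with hW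
  have hWm : ∀ J, J ∈ W ↔ J ≠ Finset.univ := fun J => by simp [hW]
  have hsplit : ∀ f : Finset ι → ℕ, ∑ J : Finset ι, f J = f Finset.univ + ∑ J ∈ W, f J := by
    intro f
    rw [hW, Finset.add_sum_erase _ _ (Finset.mem_univ _)]
  have hcle : ∀ J ∈ W, c J ≤ ∏ i ∈ J, (q ^ a i - 1) := by
    intro J hJ
    rcases hc J ((hWm J).1 hJ) with h | h
    · rw [h]; exact Nat.zero_le _
    · rw [h]
  have hcle' : ∀ J ∈ W, c' J ≤ ∏ i ∈ J, (q ^ a i - 1) := by
    intro J hJ
    rcases hc' J ((hWm J).1 hJ) with h | h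
    · rw [h]; exact Nat.zero_le _
    · rw [h]
  -- the total of the proper cells is less than `m`
  have hQ : ∑ J ∈ W, ∏ i ∈ J, (q ^ a i - 1) < m := by
    have h1 := num_total a q hq1
    rw [hsplit, hn] at h1
    have h2 := num_lower a ha q hq1 Finset.univ (by rw [Finset.card_univ]; omega)
    rw [hn, Finset.card_univ] at h2
    set Q := ∑ J ∈ W, ∏ i ∈ J, (q ^ a i - 1) with hQdef
    set P := ∏ i, (q ^ a i - 1) with hP
    have h1z : (P : ℤ) + Q = (q : ℤ) ^ n := by exact_mod_cast h1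
    have hqn : (0 : ℤ) < (q : ℤ) ^ n := by positivity
    have hnlz : (δ : ℤ) * Fintype.card ι < q - Fintype.card ι := by
      have h3 : δ * Fintype.card ι + Fintype.card ι < q := by omega
      have h5 : ((δ * Fintype.card ι + Fintype.card ι : ℕ) : ℤ) < q := by exact_mod_cast h3
      push_cast at h5
      linarith
    have h3 : (δ : ℤ) * Q < P := by
      have h4 : (q : ℤ) * Q ≤ Fintype.card ι * (q : ℤ) ^ n := by
        have : (q : ℤ) * Q = q * (q : ℤ) ^ n - q * P := by rw [← h1z]; ring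
        rw [this]
        linarith
      have h5 : (q : ℤ) * (δ * Q) < q * P := by
        calc (q : ℤ) * (δ * Q) = δ * (q * Q) := by ring
          _ ≤ δ * (Fintype.card ι * (q : ℤ) ^ n) := by
              apply mul_le_mul_of_nonneg_left h4 (by positivity)
          _ = (δ * Fintype.card ι) * (q : ℤ) ^ n := by ring
          _ < (q - Fintype.card ι) * (q : ℤ) ^ n := by
              exact mul_lt_mul_of_pos_right hnlz hqn
          _ ≤ q * P := h2
      exact lt_of_mul_lt_mul_left h5 hqz.le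
    have h6 : δ * Q < δ * m := by
      have : δ * Q < P := by exact_mod_cast h3
      omega
    exact lt_of_mul_lt_mul_left h6 (Nat.zero_le _)
  have hR : ∑ J ∈ W, c J < m := (Finset.sum_le_sum hcle).trans_lt hQ
  have hR' : ∑ J ∈ W, c' J < m := (Finset.sum_le_sum hcle').trans_lt hQ
  have htop := (peel hu hu' hR hR' (by rw [← hsplit, ← hsplit, hsum])).2
  -- peeling off the degrees
  let dg : Finset ι → ℕ := fun J => ∑ i ∈ J, a i
  have hdgle : ∀ J, dg J ≤ n := by
    intro J
    rw [← hn]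
    exact Finset.sum_le_sum_of_subset (Finset.subset_univ J)
  have hsame : ∀ J J' : Finset ι, dg J = dg J' →
      ∏ i ∈ J, (q ^ a i - 1) = ∏ i ∈ J', (q ^ a i - 1) := by
    intro J J' h
    have h1 := hD J J' h
    have h2 : ∀ K : Finset ι, ∏ i ∈ K, (q ^ a i - 1) =
        ((K.val.map a).map (fun x => q ^ x - 1)).prod := by
      intro K
      rw [Multiset.map_map]
      rfl
    rw [h2, h2, h1]
  have hstep : ∀ D : ℕ, ∑ J ∈ W with dg J ≤ D + 1, c J = ∑ J ∈ W with dg J ≤ D + 1, c' J →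
      ∑ J ∈ W with dg J = D + 1, c J = ∑ J ∈ W with dg J = D + 1, c' J ∧
      ∑ J ∈ W with dg J ≤ D, c J = ∑ J ∈ W with dg J ≤ D, c' J := by
    intro D hDD
    have hsp : ∀ f : Finset ι → ℕ, ∑ J ∈ W with dg J ≤ D + 1, f J =
        ∑ J ∈ W with dg J = D + 1, f J + ∑ J ∈ W with dg J ≤ D, f J := by
      intro f
      rw [← Finset.sum_union]
      · apply Finset.sum_congr _ fun _ _ => rfl
        ext J
        simp only [Finset.mem_filter, Finset.mem_union]
        constructor
        · rintro ⟨h1, h2⟩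
          rcases Nat.lt_or_ge D (dg J) with h | h
          · left; exact ⟨h1, by omega⟩
          · right; exact ⟨h1, h⟩
        · rintro (⟨h1, h2⟩ | ⟨h1, h2⟩)
          · exact ⟨h1, by omega⟩
          · exact ⟨h1, by omega⟩
      · rw [Finset.disjoint_left]
        intro J hJ hJ'
        rw [Finset.mem_filter] at hJ hJ'
        omega
    rw [hsp, hsp] at hDD
    by_cases hex : ∃ J₀ ∈ W, dg J₀ = D + 1
    · obtain ⟨J₀, hJ₀W, hJ₀⟩ := hex
      set p0 := ∏ i ∈ J₀, (q ^ a i - 1) with hp0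
      have hsmall : ∑ J ∈ W with dg J ≤ D, ∏ i ∈ J, (q ^ a i - 1) < p0 := by
        have h1 : ∑ J ∈ W with dg J ≤ D, ∏ i ∈ J, (q ^ a i - 1) ≤ 2 ^ Fintype.card ι * q ^ D := by
          calc ∑ J ∈ W with dg J ≤ D, ∏ i ∈ J, (q ^ a i - 1)
              ≤ ∑ J ∈ W with dg J ≤ D, q ^ D := by
                apply Finset.sum_le_sum
                intro J hJ
                rw [Finset.mem_filter] at hJ
                exact (num_upper a q J).trans (Nat.pow_le_pow_right hq1 hJ.2)
            _ = (W.filter fun J => dg J ≤ D).card * q ^ D := by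
                rw [Finset.sum_const, smul_eq_mul]
            _ ≤ 2 ^ Fintype.card ι * q ^ D := by
                apply Nat.mul_le_mul_right
                calc (W.filter fun J => dg J ≤ D).card ≤ (Finset.univ : Finset (Finset ι)).card :=
                      Finset.card_le_card (Finset.subset_univ _)
                  _ = 2 ^ Fintype.card ι := by
                      rw [Finset.card_univ, Fintype.card_finset]
        obtain ⟨x₀, hx₀⟩ : ∃ x, x ∉ J₀ := by
          by_contra hcon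
          push Not at hcon
          exact (hWm J₀).1 hJ₀W (Finset.eq_univ_iff_forall.2 hcon)
        have hcard : J₀.card < Fintype.card ι := Finset.card_lt_univ_of_notMem hx₀
        have h2 := num_lower a ha q hq1 J₀ (by omega)
        have hJ₀' : ∑ i ∈ J₀, a i = D + 1 := hJ₀
        rw [hJ₀', ← hp0] at h2
        have h3 : ((q : ℤ) - J₀.card) * (q : ℤ) ^ D ≤ p0 := by
          have h4 : (q : ℤ) * (((q : ℤ) - J₀.card) * (q : ℤ) ^ D) ≤ q * p0 := by
            rw [pow_succ] at h2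
            calc (q : ℤ) * (((q : ℤ) - J₀.card) * (q : ℤ) ^ D) =
                ((q : ℤ) - J₀.card) * ((q : ℤ) ^ D * q) := by ring
              _ ≤ q * p0 := h2
          exact le_of_mul_le_mul_left h4 hqz
        have h5 : (2 : ℤ) ^ Fintype.card ι < q - J₀.card := by
          have h6 : 2 ^ Fintype.card ι + J₀.card < q := by omega
          have h7 : ((2 ^ Fintype.card ι + J₀.card : ℕ) : ℤ) < q := by exact_mod_cast h6
          push_cast at h7
          linarith
        have h8 : (2 : ℤ) ^ Fintype.card ι * (q : ℤ) ^ D < p0 :=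
          lt_of_lt_of_le (mul_lt_mul_of_pos_right h5 (by positivity)) h3
        have h9 : 2 ^ Fintype.card ι * q ^ D < p0 := by exact_mod_cast h8
        omega
      refine peel (p0 := p0) ?_ ?_ ?_ ?_ hDD
      · apply Finset.dvd_sum
        intro J hJ
        rw [Finset.mem_filter] at hJ
        rcases hc J ((hWm J).1 hJ.1) with h | h
        · rw [h]; exact dvd_zero _
        · rw [h, hsame J J₀ (hJ.2.trans hJ₀.symm)]
      · apply Finset.dvd_sum
        intro J hJ
        rw [Finset.mem_filter] at hJ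
        rcases hc' J ((hWm J).1 hJ.1) with h | h
        · rw [h]; exact dvd_zero _
        · rw [h, hsame J J₀ (hJ.2.trans hJ₀.symm)]
      · refine lt_of_le_of_lt ?_ hsmall
        apply Finset.sum_le_sum
        intro J hJ
        exact hcle J (Finset.mem_filter.1 hJ).1
      · refine lt_of_le_of_lt ?_ hsmall
        apply Finset.sum_le_sum
        intro J hJ
        exact hcle' J (Finset.mem_filter.1 hJ).1
    · have hemp : W.filter (fun J => dg J = D + 1) = ∅ := by
        rw [Finset.filter_eq_empty_iff]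
        intro J hJ h
        exact hex ⟨J, hJ, h⟩
      rw [hemp] at hDD ⊢
      simp only [Finset.sum_empty, zero_add] at hDD ⊢
      exact ⟨trivial, hDD⟩
  have hall : ∀ k D : ℕ, D + k = n →
      ∑ J ∈ W with dg J ≤ D, c J = ∑ J ∈ W with dg J ≤ D, c' J := by
    intro k
    induction k with
    | zero =>
      intro D hDn
      have hfull : W.filter (fun J => dg J ≤ D) = W := by
        rw [Finset.filter_eq_self]
        intro J _
        have := hdgle J
        omega
      rw [hfull]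
      exact htop
    | succ k ih =>
      intro D hDn
      exact (hstep D (ih (D + 1) (by omega))).2
  have haj : a j ≤ n := by
    have := hdgle {j}
    simpa [dg] using this
  obtain ⟨D, hDj⟩ : ∃ D, a j = D + 1 := ⟨a j - 1, by have := ha j; omega⟩
  have hF := (hstep D (hall (n - (D + 1)) (D + 1) (by omega))).1
  have hjne : ({j} : Finset ι) ≠ Finset.univ := by
    intro h
    have h1 := congrArg Finset.card h
    rw [Finset.card_singleton, Finset.card_univ] at h1
    omega
  have hpos : 0 < ∑ J ∈ W with dg J = D + 1, c J := by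
    apply lt_of_lt_of_le (Nat.pos_of_ne_zero hj)
    apply Finset.single_le_sum (f := fun J => c J) (fun _ _ => Nat.zero_le _)
    rw [Finset.mem_filter]
    refine ⟨(hWm _).2 hjne, ?_⟩
    simp [dg, hDj]
  rw [hF] at hpos
  obtain ⟨J, hJ, hJc⟩ := Finset.exists_ne_zero_of_sum_ne_zero hpos.ne'
  rw [Finset.mem_filter] at hJ
  have h1 := hD J {j} (by
    have h2 : dg J = dg {j} := by
      rw [hJ.2]
      simp [dg, hDj]
    exact h2)
  have h2 : J.card = 1 := by
    have := congrArg Multiset.card h1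
    simpa using this
  obtain ⟨l, rfl⟩ := Finset.card_eq_one.1 h2
  refine ⟨l, ?_, hJc⟩
  simpa using h1

end num

end Pool.Agent.H10.Pro
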