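import Pool.Agent.H10.Pro.Defs

/-!
# A primitive prime divisor
-/

namespace Pool.Agent.H10.Pro

open Polynomial

lemma zsig_isRoot (q a r : ℕ) (h : r ∣ ((cyclotomic a ℤ).eval (q : ℤ)).natAbs) :
    (cyclotomic a (ZMod r)).IsRoot (q : ZMod r) := by
  have h1 : ((r : ℕ) : ℤ) ∣ (cyclotomic a ℤ).eval (q : ℤ) := Int.natCast_dvd.mpr h
  have h2 : (((cyclotomic a ℤ).eval (q : ℤ) : ℤ) : ZMod r) = 0 :=
    (ZMod.intCast_zmod_eq_zero_iff_dvd _ r).mpr h1
  rw [IsRoot.def, ← map_cyclotomic_int a (ZMod r)]
  have h3 : (q : ZMod r) = (Int.castRingHom (ZMod r)) (q : ℤ) := by simp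
  rw [h3, eval_map_apply]
  simpa using h2

lemma zsig_dvd (q a b : ℕ) (hq : 1 ≤ q) (hb : b ∈ a.properDivisors) :
    (q ^ b - 1) * ((cyclotomic a ℤ).eval (q : ℤ)).natAbs ∣ q ^ a - 1 := by
  have h1 := X_pow_sub_one_mul_cyclotomic_dvd_X_pow_sub_one_of_dvd ℤ hb
  obtain ⟨P, hP⟩ := h1
  have h2 := congrArg (fun f => eval (q : ℤ) f) hP
  simp only [eval_sub, eval_pow, eval_X, eval_one, eval_mul] at h2
  have h3 : ((q : ℤ) ^ b - 1) * (cyclotomic a ℤ).eval (q : ℤ) ∣ (q : ℤ) ^ a - 1 :=
    ⟨_, h2⟩
  have h4 := Int.natAbs_dvd_natAbs.mpr h3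
  rw [Int.natAbs_mul] at h4
  have e : ∀ c : ℕ, ((q : ℤ) ^ c - 1).natAbs = q ^ c - 1 := by
    intro c
    have : ((q : ℤ) ^ c - 1) = ((q ^ c - 1 : ℕ) : ℤ) := by
      have : 1 ≤ q ^ c := Nat.one_le_pow _ _ hq
      push_cast [Nat.cast_sub this]
      ring
    rw [this, Int.natAbs_natCast]
  rw [e, e] at h4
  exact h4

lemma zmod_two_eq_one : ∀ x : ZMod 2, x ≠ 0 → x = 1 := by decide

theorem zsig (q a : ℕ) (ha : 3 ≤ a) (hq : 3 ≤ q) :
    ∃ r : ℕ, r.Prime ∧ r ∣ q ^ a - 1 ∧ ∀ b, 0 < b → b < a → ¬ r ∣ q ^ b - 1 := by
  set F := ((cyclotomic a ℤ).eval (q : ℤ)).natAbs with hFdef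
  have hF : q - 1 < F := sub_one_lt_natAbs_cyclotomic_eval (by omega) (by omega)
  have hq1 : 1 ≤ q := by omega
  by_cases h : ∃ r, r.Prime ∧ r ∣ F ∧ ¬ r ∣ a
  · obtain ⟨r, hr, hrF, hra⟩ := h
    have := Fact.mk hr
    have : NeZero (a : ZMod r) := ⟨by
      intro h0
      exact hra ((ZMod.natCast_eq_zero_iff a r).mp h0)⟩
    have hprim : IsPrimitiveRoot (q : ZMod r) a :=
      isRoot_cyclotomic_iff.mp (zsig_isRoot q a r hrF)
    have key : ∀ c : ℕ, r ∣ q ^ c - 1 ↔ (q : ZMod r) ^ c = 1 := by
      intro c
      have h1 : 1 ≤ q ^ c := Nat.one_le_pow _ _ hq1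
      rw [← ZMod.natCast_eq_zero_iff, Nat.cast_sub h1, sub_eq_zero]
      push_cast
      rfl
    refine ⟨r, hr, (key a).mpr hprim.pow_eq_one, fun b hb0 hba hdvd => ?_⟩
    exact hprim.pow_ne_one_of_pos_of_lt hb0.ne' hba ((key b).mp hdvd)
  · exfalso
    push Not at h
    have hFpos : F ≠ 0 := by omega
    have hvF : ∀ r, r.Prime → r ∣ F → F.factorization r ≤ 1 := by
        intro r hr hrF
        have hra : r ∣ a := h r hr hrF
        have := Fact.mk hr
        obtain ⟨b, hb⟩ := hra
        have hb0 : 0 < b := by
          rcases Nat.eq_zero_or_pos b with h0 | h0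
          · rw [h0] at hb; omega
          · exact h0
        have hba : b < a := by
          rw [hb]
          calc b = 1 * b := (one_mul b).symm
            _ < r * b := Nat.mul_lt_mul_of_pos_right hr.one_lt hb0
        have hbprop : b ∈ a.properDivisors := by
          rw [Nat.mem_properDivisors]
          exact ⟨⟨r, by rw [hb]; ring⟩, hba⟩
        have hdv := zsig_dvd q a b hq1 hbprop
        rw [← hFdef] at hdv
        have hqa : q ^ a - 1 ≠ 0 := by
          have : 1 < q ^ a := Nat.one_lt_pow (by omega) (by omega)
          omega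
        have hqb : q ^ b - 1 ≠ 0 := by
          have : 1 < q ^ b := Nat.one_lt_pow (by omega) (by omega)
          omega
        have hval : (q ^ b - 1).factorization r + F.factorization r
            ≤ (q ^ a - 1).factorization r := by
          have := (Nat.factorization_le_iff_dvd (Nat.mul_ne_zero hqb hFpos) hqa).mpr hdv
          rw [Nat.factorization_mul hqb hFpos] at this
          exact this r
        -- r divides q ^ b - 1
        have hroot := zsig_isRoot q a r hrF
        have hqa1 : (q : ZMod r) ^ a = 1 := by
          have hd : cyclotomic a (ZMod r) ∣ X ^ a - 1 := cyclotomic.dvd_X_pow_sub_one a _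
          obtain ⟨P, hP⟩ := hd
          have := congrArg (fun f => eval (q : ZMod r) f) hP
          simp only [eval_sub, eval_pow, eval_X, eval_one, eval_mul] at this
          rw [IsRoot.def.mp hroot, zero_mul, sub_eq_zero] at this
          exact this
        have hqb1 : (q : ZMod r) ^ b = 1 := by
          rw [hb, mul_comm, pow_mul, ZMod.pow_card] at hqa1
          exact hqa1
        have hrb : r ∣ q ^ b - 1 := by
          have h1 : 1 ≤ q ^ b := Nat.one_le_pow _ _ hq1
          rw [← ZMod.natCast_eq_zero_iff, Nat.cast_sub h1, sub_eq_zero]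
          push_cast
          exact hqb1
        have hrq : ¬ r ∣ q ^ b := by
          intro hd
          have : r ∣ 1 := by
            have h1 : 1 ≤ q ^ b := Nat.one_le_pow _ _ hq1
            have := (Nat.dvd_sub hd hrb)
            rwa [show q ^ b - (q ^ b - 1) = 1 by omega] at this
          exact hr.one_lt.ne' (Nat.dvd_one.mp this)
        rcases hr.eq_two_or_odd' with h2 | hodd
        · -- r = 2
          subst h2
          -- a is a power of two
          have hane : a ≠ 0 := by omega
          obtain ⟨k, m, hm, hkm⟩ := Nat.exists_eq_pow_mul_and_not_dvd hane 2 (by norm_num)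
          have hm1 : m = 1 := by
            have : NeZero (m : ZMod 2) := ⟨by
              intro h0
              exact hm ((ZMod.natCast_eq_zero_iff m 2).mp h0)⟩
            rw [hkm] at hroot
            have hpr : IsPrimitiveRoot (q : ZMod 2) m :=
              isRoot_cyclotomic_prime_pow_mul_iff_of_charP.mp hroot
            have hq2 : (q : ZMod 2) = 1 := by
              have : (q : ZMod 2) ≠ 0 := by
                intro h0
                rw [h0, zero_pow hb0.ne'] at hqb1
                exact zero_ne_one hqb1
              exact zmod_two_eq_one _ this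
            rw [hq2] at hpr
            have := hpr.dvd_of_pow_eq_one 1 (by simp)
            exact Nat.dvd_one.mp this
          have hk2 : 2 ≤ k := by
            rw [hm1, mul_one] at hkm
            by_contra hk
            have : k = 0 ∨ k = 1 := by omega
            rcases this with h0 | h0
            · rw [h0] at hkm; omega
            · rw [h0] at hkm; omega
          obtain ⟨c, hc⟩ : ∃ c, b = 2 * c := by
            rw [hm1, mul_one] at hkm
            obtain ⟨k', rfl⟩ : ∃ k', k = k' + 2 := ⟨k - 2, by omega⟩
            refine ⟨2 ^ k', ?_⟩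
            have : 2 * b = 2 * (2 * 2 ^ k') := by
              rw [← hb, hkm]; ring
            omega
          -- q ^ b + 1 is 2 mod 4
          have hfac : q ^ a - 1 = (q ^ b - 1) * (q ^ b + 1) := by
            rw [hb, pow_mul']
            have : 1 ≤ q ^ b := Nat.one_le_pow _ _ hq1
            obtain ⟨z, hz⟩ : ∃ z, q ^ b = z + 1 := ⟨q ^ b - 1, by omega⟩
            rw [hz]
            have e1 : (z + 1) ^ 2 - 1 = z * z + 2 * z := by
              have : (z + 1) ^ 2 = z * z + 2 * z + 1 := by ring
              omega
            rw [e1]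
            have e2 : z + 1 - 1 = z := by omega
            rw [e2]; ring
          have hne : q ^ b + 1 ≠ 0 := by omega
          rw [hfac, Nat.factorization_mul hqb hne] at hval
          have hle : F.factorization 2 ≤ (q ^ b + 1).factorization 2 := by
            simp only [Finsupp.coe_add, Pi.add_apply] at hval
            omega
          refine le_trans hle ?_
          by_contra hcon
          have h4 : 2 ^ 2 ∣ q ^ b + 1 := by
            rw [Nat.prime_two.pow_dvd_iff_le_factorization hne]
            omega
          have hqodd : q % 2 = 1 := by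
            by_contra hev
            apply hrq
            have : 2 ∣ q := by omega
            exact dvd_pow this hb0.ne'
          have hmod : q ^ b % 4 = 1 := by
            rw [hc, pow_mul, Nat.pow_mod]
            have hq4 : q ^ 2 % 4 = 1 := by
              rw [Nat.pow_mod]
              have : q % 4 = 1 ∨ q % 4 = 3 := by omega
              rcases this with h | h <;> rw [h]
            rw [hq4]; simp
          omega
        · -- r odd: lifting the exponent
          have hlte := padicValNat.pow_sub_pow (p := r) hodd (x := q ^ b) (y := 1)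
            (by omega) (by simpa using hrb) hrq hr.ne_zero
          rw [one_pow, ← pow_mul, mul_comm b r, ← hb, padicValNat_self] at hlte
          rw [Nat.factorization_def _ hr, Nat.factorization_def _ hr,
            Nat.factorization_def _ hr] at hval
          rw [Nat.factorization_def _ hr]
          omega

    -- the cofactor of the largest power of `r` in `a` divides `r - 1`
    have hlt : ∀ r r', r.Prime → r'.Prime → r ∣ F → r' ∣ F → r ≠ r' → r' < r := by
      intro r r' hr hr' hrF hrF' hne
      have := Fact.mk hr
      obtain ⟨k, m, hm, hkm⟩ := Nat.exists_eq_pow_mul_and_not_dvd (show a ≠ 0 by omega) r hr.ne_one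
      have : NeZero (m : ZMod r) := ⟨by
        intro h0
        exact hm ((ZMod.natCast_eq_zero_iff m r).mp h0)⟩
      have hroot := zsig_isRoot q a r hrF
      rw [hkm] at hroot
      have hpr : IsPrimitiveRoot (q : ZMod r) m :=
        isRoot_cyclotomic_prime_pow_mul_iff_of_charP.mp hroot
      have hm0 : m ≠ 0 := by
        rintro rfl
        exact hm (dvd_zero _)
      have hq0 : (q : ZMod r) ≠ 0 := by
        intro h0
        have := hpr.pow_eq_one
        rw [h0, zero_pow hm0] at this
        exact zero_ne_one this
      have hmr : m ∣ r - 1 := hpr.dvd_of_pow_eq_one _ (ZMod.pow_card_sub_one_eq_one hq0)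
      have hr'a : r' ∣ a := h r' hr' hrF'
      rw [hkm] at hr'a
      rcases (hr'.dvd_mul).mp hr'a with h1 | h1
      · exact absurd ((Nat.prime_dvd_prime_iff_eq hr' hr).mp (hr'.dvd_of_dvd_pow h1)).symm hne
      · have h2 := Nat.le_of_dvd (by have := hr.two_le; omega) (h1.trans hmr)
        have := hr.two_le
        omega
    -- so `F` divides a prime
    obtain ⟨r, hr, hrF⟩ := Nat.exists_prime_and_dvd (show F ≠ 1 by omega)
    have hFr : F ∣ r := by
      rw [← Nat.factorization_prime_le_iff_dvd hFpos hr.ne_zero]
      intro p hp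
      by_cases hpF : p ∣ F
      · have hpr : p = r := by
          by_contra hne
          have h1 := hlt p r hp hr hpF hrF hne
          have h2 := hlt r p hr hp hrF hpF (Ne.symm hne)
          omega
        rw [hpr, hr.factorization_self]
        exact hvF r hr hrF
      · rw [Nat.factorization_eq_zero_of_not_dvd hpF]
        exact Nat.zero_le _
    have hFle := Nat.le_of_dvd hr.pos hFr
    have hbig : (q - 1) ^ Nat.totient a < F :=
      sub_one_pow_totient_lt_natAbs_cyclotomic_eval (by omega) (by omega)
    have hra : r ∣ a := h r hr hrF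
    have htot : r - 1 ≤ Nat.totient a := by
      have h1 := Nat.totient_dvd_of_dvd hra
      rw [Nat.totient_prime hr] at h1
      exact Nat.le_of_dvd (Nat.totient_pos.mpr (by omega)) h1
    have h2 : 2 ^ (r - 1) ≤ (q - 1) ^ Nat.totient a :=
      (Nat.pow_le_pow_left (by omega) _).trans (Nat.pow_le_pow_right (by omega) htot)
    have h3 : r - 1 < 2 ^ (r - 1) := Nat.lt_two_pow_self
    omega

end Pool.Agent.H10.Pro
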